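import Mathlib

set_option autoImplicit false
open Complex Filter Topology Metric
open Finset (range)

namespace Pool.Agent.Helper205.Bohr

/-- `PS F a`: on the open unit disc, `F` is the sum of the power series with coefficients `a`. -/
def PS (F : ℂ → ℂ) (a : ℕ → ℂ) : Prop :=
  ∀ z : ℂ, ‖z‖ < 1 → HasSum (fun n => a n * z ^ n) (F z)

/-- Taylor coefficients at `0`. -/
noncomputable def coeff (f : ℂ → ℂ) (n : ℕ) : ℂ := iteratedDeriv n f 0 / (n.factorial : ℂ)

lemma hs_congr {f g : ℕ → ℂ} {a b : ℂ} (h : HasSum f a) (hfg : ∀ n, f n = g n) (hab : a = b) :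
    HasSum g b := by
  rw [← hab, ← funext hfg]
  exact h

lemma ps_coeff {F : ℂ → ℂ} (hF : DifferentiableOn ℂ F (ball 0 1)) : PS F (coeff F) := by
  intro z hz
  have h := Complex.hasSum_taylorSeries_on_ball (c := 0) (r := 1) hF (z := z)
    (by simpa using hz)
  refine hs_congr h (fun n => ?_) rfl
  rw [sub_zero, smul_eq_mul, smul_eq_mul, coeff]
  field_simp

lemma PS.hasFPowerSeriesOnBall {F : ℂ → ℂ} {a : ℕ → ℂ} (h : PS F a) :
    HasFPowerSeriesOnBall F (FormalMultilinearSeries.ofScalars ℂ a) 0 1 := by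
  refine ⟨?_, by norm_num, ?_⟩
  · apply ENNReal.le_of_forall_nnreal_lt
    intro t ht
    have ht1 : (t : ℝ) < 1 := by exact_mod_cast ht
    apply FormalMultilinearSeries.le_radius_of_tendsto (l := 0)
    have h1 := (h (t : ℂ) (by simpa using ht1)).summable.norm.tendsto_atTop_zero
    convert h1 using 2 with n
    simp
  · intro y hy
    have hy' : ‖y‖ < 1 := by
      rw [Metric.mem_eball, edist_zero_right] at hy
      have : (‖y‖₊ : ENNReal) < 1 := hy
      exact_mod_cast this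
    rw [zero_add]
    refine hs_congr (h y hy') (fun n => ?_) rfl
    simp [mul_comm]

lemma eball_eq : (Metric.eball (0 : ℂ) 1) = ball 0 1 := by
  have := Metric.eball_ofReal (x := (0 : ℂ)) (ε := 1)
  simpa using this

lemma PS.differentiableOn {F : ℂ → ℂ} {a : ℕ → ℂ} (h : PS F a) :
    DifferentiableOn ℂ F (ball 0 1) := by
  have := h.hasFPowerSeriesOnBall.differentiableOn
  rwa [eball_eq] at this

lemma PS.continuousOn {F : ℂ → ℂ} {a : ℕ → ℂ} (h : PS F a) :
    ContinuousOn F (ball 0 1) := h.differentiableOn.continuousOn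

lemma PS.unique {F : ℂ → ℂ} {a b : ℕ → ℂ} (ha : PS F a) (hb : PS F b) : a = b := by
  have h1 := ha.hasFPowerSeriesOnBall.hasFPowerSeriesAt
  have h2 := hb.hasFPowerSeriesOnBall.hasFPowerSeriesAt
  have h3 := h1.eq_formalMultilinearSeries h2
  funext n
  have h4 := congrArg (fun p => FormalMultilinearSeries.coeff p n) h3
  simpa [FormalMultilinearSeries.coeff_ofScalars] using h4

lemma PS.congr {F G : ℂ → ℂ} {a : ℕ → ℂ} (ha : PS F a) (h : ∀ z : ℂ, ‖z‖ < 1 → F z = G z) :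
    PS G a := by
  intro z hz
  rw [← h z hz]
  exact ha z hz

lemma PS.add {F G : ℂ → ℂ} {a b : ℕ → ℂ} (ha : PS F a) (hb : PS G b) :
    PS (fun z => F z + G z) (fun n => a n + b n) := by
  intro z hz
  exact hs_congr ((ha z hz).add (hb z hz)) (fun n => by ring) rfl

lemma PS.sub {F G : ℂ → ℂ} {a b : ℕ → ℂ} (ha : PS F a) (hb : PS G b) :
    PS (fun z => F z - G z) (fun n => a n - b n) := by
  intro z hz
  exact hs_congr ((ha z hz).sub (hb z hz)) (fun n => by ring) rfl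

lemma PS.const_mul {F : ℂ → ℂ} {a : ℕ → ℂ} (ha : PS F a) (c : ℂ) :
    PS (fun z => c * F z) (fun n => c * a n) := by
  intro z hz
  exact hs_congr ((ha z hz).mul_left c) (fun n => by ring) rfl

lemma PS.scale {F : ℂ → ℂ} {a : ℕ → ℂ} (ha : PS F a) (s : ℂ) (hs : ‖s‖ ≤ 1) :
    PS (fun z => F (s * z)) (fun n => a n * s ^ n) := by
  intro z hz
  have h1 : ‖s * z‖ < 1 := by
    rw [norm_mul]
    calc ‖s‖ * ‖z‖ ≤ 1 * ‖z‖ := mul_le_mul_of_nonneg_right hs (norm_nonneg z)
      _ < 1 := by rw [one_mul]; exact hz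
  refine hs_congr (ha (s * z) h1) (fun n => ?_) rfl
  rw [mul_pow]
  ring

lemma PS.summable_norm {F : ℂ → ℂ} {a : ℕ → ℂ} (ha : PS F a) (z : ℂ) (hz : ‖z‖ < 1) :
    Summable (fun n => ‖a n * z ^ n‖) := (ha z hz).summable.norm

lemma PS.summable_norm_mul {F : ℂ → ℂ} {a : ℕ → ℂ} (ha : PS F a) (r : ℝ) (h0 : 0 ≤ r)
    (h1 : r < 1) : Summable (fun n => ‖a n‖ * r ^ n) := by
  have := ha.summable_norm (r : ℂ) (by simpa [abs_of_nonneg h0] using h1)
  convert this using 2 with n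
  rw [norm_mul, norm_pow, Complex.norm_real, Real.norm_of_nonneg h0]

/-- Cauchy product. -/
noncomputable def cprod (a b : ℕ → ℂ) (n : ℕ) : ℂ :=
  ∑ kl ∈ Finset.HasAntidiagonal.antidiagonal n, a kl.1 * b kl.2

lemma PS.mul {F G : ℂ → ℂ} {a b : ℕ → ℂ} (ha : PS F a) (hb : PS G b) :
    PS (fun z => F z * G z) (cprod a b) := by
  intro z hz
  have h1 := ha.summable_norm z hz
  have h2 := hb.summable_norm z hz
  have h3 := tsum_mul_tsum_eq_tsum_sum_antidiagonal_of_summable_norm h1 h2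
  have h4 := (summable_norm_sum_mul_antidiagonal_of_summable_norm h1 h2).of_norm.hasSum
  rw [← h3, (ha z hz).tsum_eq, (hb z hz).tsum_eq] at h4
  refine hs_congr h4 (fun n => ?_) rfl
  rw [cprod, Finset.sum_mul]
  apply Finset.sum_congr rfl
  intro kl hkl
  have : kl.1 + kl.2 = n := Finset.HasAntidiagonal.mem_antidiagonal.mp hkl
  rw [← this, pow_add]
  ring

/-- multiplication by `z` -/
def shiftR (a : ℕ → ℂ) : ℕ → ℂ
  | 0 => 0
  | n + 1 => a n

lemma PS.zmul {F : ℂ → ℂ} {a : ℕ → ℂ} (ha : PS F a) :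
    PS (fun z => z * F z) (shiftR a) := by
  intro z hz
  have h1 := (ha z hz).mul_left z
  have h2 : HasSum (fun n => shiftR a (n + 1) * z ^ (n + 1)) (z * F z) := by
    refine hs_congr h1 (fun n => ?_) rfl
    simp only [shiftR]
    ring
  have h3 := (hasSum_nat_add_iff (f := fun n => shiftR a n * z ^ n) 1 (g := z * F z)).mp h2
  refine hs_congr h3 (fun n => rfl) ?_
  simp [shiftR]

lemma ps_const (c : ℂ) : PS (fun _ => c) (fun n => if n = 0 then c else 0) := by
  intro z _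
  refine hs_congr (hasSum_ite_eq (0 : ℕ) c) (fun n => ?_) rfl
  split_ifs with h
  · simp [h]
  · simp [h]

lemma norm_mul_lt {l z : ℂ} (hl : ‖l‖ ≤ 1) (hz : ‖z‖ < 1) : ‖l * z‖ < 1 := by
  rw [norm_mul]
  calc ‖l‖ * ‖z‖ ≤ 1 * ‖z‖ := mul_le_mul_of_nonneg_right hl (norm_nonneg z)
    _ < 1 := by rw [one_mul]; exact hz

lemma ps_geom (l : ℂ) (hl : ‖l‖ ≤ 1) : PS (fun z => 1 / (1 - l * z)) (fun n => l ^ n) := by
  intro z hz
  refine hs_congr (hasSum_geometric_of_norm_lt_one (norm_mul_lt hl hz)) (fun n => ?_) ?_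
  · rw [mul_pow]
  · simp only [one_div]

end Pool.Agent.Helper205.Bohr
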