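import Pool.Agent.Helper205.BohrA

set_option autoImplicit false
open Complex Filter Topology Metric
open Finset (range)

namespace Pool.Agent.Helper205.Bohr

/-- Schur functions: analytic and bounded by one on the unit disc. -/
def Schur (φ : ℂ → ℂ) : Prop :=
  DifferentiableOn ℂ φ (ball 0 1) ∧ ∀ z : ℂ, ‖z‖ < 1 → ‖φ z‖ ≤ 1

/-- `G = φ / (1 - l z φ)` -/
noncomputable def Gf (l : ℝ) (φ : ℂ → ℂ) (z : ℂ) : ℂ := φ z / (1 - l * z * φ z)

/-- the sharp coefficient inequality at the pair `(l, r)` -/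
def P (l r : ℝ) : Prop :=
  ∀ φ : ℂ → ℂ, Schur φ → ∀ g : ℕ → ℂ, PS (Gf l φ) g → ∑' n, ‖g n‖ * r ^ n ≤ 1 / (1 - l * r)

lemma one_sub_ne {w : ℂ} (h : ‖w‖ < 1) : 1 - w ≠ 0 := by
  intro h0
  have : w = 1 := by linear_combination -h0
  rw [this] at h
  simp at h

lemma Schur.norm_lt {φ : ℂ → ℂ} (h : Schur φ) {l : ℝ} (hl0 : 0 ≤ l) (hl1 : l ≤ 1) {z : ℂ}
    (hz : ‖z‖ < 1) : ‖(l : ℂ) * z * φ z‖ < 1 := by
  rw [norm_mul, norm_mul, Complex.norm_real, Real.norm_of_nonneg hl0]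
  have h1 := h.2 z hz
  have h2 := norm_nonneg z
  have h3 := norm_nonneg (φ z)
  calc l * ‖z‖ * ‖φ z‖ ≤ l * ‖z‖ * 1 := by
        apply mul_le_mul_of_nonneg_left h1; positivity
    _ ≤ 1 * ‖z‖ := by rw [mul_one]; exact mul_le_mul_of_nonneg_right hl1 h2
    _ < 1 := by rw [one_mul]; exact hz

lemma Schur.den_ne {φ : ℂ → ℂ} (h : Schur φ) {l : ℝ} (hl0 : 0 ≤ l) (hl1 : l ≤ 1) {z : ℂ}
    (hz : ‖z‖ < 1) : (1 : ℂ) - l * z * φ z ≠ 0 := one_sub_ne (h.norm_lt hl0 hl1 hz)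

lemma Gf_diff {φ : ℂ → ℂ} (h : Schur φ) {l : ℝ} (hl0 : 0 ≤ l) (hl1 : l ≤ 1) :
    DifferentiableOn ℂ (Gf l φ) (ball 0 1) := by
  unfold Gf
  have hφ := h.1
  apply DifferentiableOn.div hφ
  · fun_prop
  · intro z hz
    exact h.den_ne hl0 hl1 (by simpa using hz)

lemma Gf_ps {φ : ℂ → ℂ} (h : Schur φ) {l : ℝ} (hl0 : 0 ≤ l) (hl1 : l ≤ 1) :
    PS (Gf l φ) (coeff (Gf l φ)) := ps_coeff (Gf_diff h hl0 hl1)

lemma cprod_sum {a b : ℕ → ℂ} {r : ℝ} (hr : 0 ≤ r) (ha : Summable (fun n => ‖a n‖ * r ^ n))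
    (hb : Summable (fun n => ‖b n‖ * r ^ n)) :
    Summable (fun n => ‖cprod a b n‖ * r ^ n) ∧
    ∑' n, ‖cprod a b n‖ * r ^ n ≤ (∑' n, ‖a n‖ * r ^ n) * ∑' n, ‖b n‖ * r ^ n := by
  have hna : Summable (fun n => ‖(‖a n‖ * r ^ n : ℝ)‖) := ha.norm
  have hnb : Summable (fun n => ‖(‖b n‖ * r ^ n : ℝ)‖) := hb.norm
  have h3 := tsum_mul_tsum_eq_tsum_sum_antidiagonal_of_summable_norm hna hnb
  have h4 := (summable_norm_sum_mul_antidiagonal_of_summable_norm hna hnb).of_norm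
  have hle : ∀ n, ‖cprod a b n‖ * r ^ n ≤
      ∑ kl ∈ Finset.HasAntidiagonal.antidiagonal n, (‖a kl.1‖ * r ^ kl.1) * (‖b kl.2‖ * r ^ kl.2) := by
    intro n
    calc ‖cprod a b n‖ * r ^ n
        ≤ (∑ kl ∈ Finset.HasAntidiagonal.antidiagonal n, ‖a kl.1 * b kl.2‖) * r ^ n := by
          apply mul_le_mul_of_nonneg_right (norm_sum_le _ _) (by positivity)
      _ = ∑ kl ∈ Finset.HasAntidiagonal.antidiagonal n, (‖a kl.1‖ * r ^ kl.1) * (‖b kl.2‖ * r ^ kl.2) := by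
          rw [Finset.sum_mul]
          apply Finset.sum_congr rfl
          intro kl hkl
          have : kl.1 + kl.2 = n := Finset.HasAntidiagonal.mem_antidiagonal.mp hkl
          rw [← this, pow_add, norm_mul]
          ring
  have hs : Summable (fun n => ‖cprod a b n‖ * r ^ n) :=
    Summable.of_nonneg_of_le (fun n => by positivity) hle h4
  refine ⟨hs, ?_⟩
  rw [h3]
  exact hs.tsum_le_tsum hle h4

lemma P_mono {l0 l1 r : ℝ} (hP : P l0 r) (h0 : 0 ≤ l0) (h01 : l0 ≤ l1) (h1 : l1 ≤ 1)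
    (hr0 : 0 ≤ r) (hr1 : r < 1) : P l1 r := by
  intro φ hφ g1 hg1
  set g0 := coeff (Gf l0 φ) with hg0def
  have hg0 : PS (Gf l0 φ) g0 := Gf_ps hφ h0 (h01.trans h1)
  have hM0 := hP φ hφ g0 hg0
  have hs0 := hg0.summable_norm_mul r hr0 hr1
  have hs1 := hg1.summable_norm_mul r hr0 hr1
  have hid : g1 = fun n => g0 n + ((l1 - l0 : ℝ) : ℂ) * shiftR (cprod g0 g1) n := by
    apply hg1.unique
    refine (hg0.add (((hg0.mul hg1).zmul).const_mul ((l1 - l0 : ℝ) : ℂ))).congr ?_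
    intro z hz
    have hd0 := hφ.den_ne h0 (h01.trans h1) hz
    have hd1 := hφ.den_ne (h0.trans h01) h1 hz
    simp only [Gf]
    push_cast
    rw [div_mul_div_comm, mul_div_assoc', mul_div_assoc',
      div_add_div _ _ hd0 (mul_ne_zero hd0 hd1), div_eq_div_iff (mul_ne_zero hd0
        (mul_ne_zero hd0 hd1)) hd1]
    ring
  obtain ⟨hcs, hcle⟩ := cprod_sum hr0 hs0 hs1
  set M0 := ∑' n, ‖g0 n‖ * r ^ n with hM0def
  set M1 := ∑' n, ‖g1 n‖ * r ^ n with hM1def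
  have hshift : HasSum (fun n => ‖shiftR (cprod g0 g1) n‖ * r ^ n)
      (r * ∑' n, ‖cprod g0 g1 n‖ * r ^ n) := by
    have h1 := hcs.hasSum.mul_left r
    have h2 : HasSum (fun n => ‖shiftR (cprod g0 g1) (n + 1)‖ * r ^ (n + 1))
        (r * ∑' n, ‖cprod g0 g1 n‖ * r ^ n) := by
      have he : (fun n => ‖shiftR (cprod g0 g1) (n + 1)‖ * r ^ (n + 1))
          = fun n => r * (‖cprod g0 g1 n‖ * r ^ n) := by
        funext n
        simp only [shiftR]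
        ring
      rw [he]; exact h1
    have h3 := (hasSum_nat_add_iff (f := fun n => ‖shiftR (cprod g0 g1) n‖ * r ^ n) 1
      (g := r * ∑' n, ‖cprod g0 g1 n‖ * r ^ n)).mp h2
    simpa [shiftR] using h3
  have hle : M1 ≤ M0 + (l1 - l0) * (r * (M0 * M1)) := by
    have hsum : Summable (fun n => ‖g0 n‖ * r ^ n
        + (l1 - l0) * (‖shiftR (cprod g0 g1) n‖ * r ^ n)) :=
      hs0.add (hshift.summable.mul_left _)
    calc M1 ≤ ∑' n, (‖g0 n‖ * r ^ n + (l1 - l0) * (‖shiftR (cprod g0 g1) n‖ * r ^ n)) := by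
          apply hs1.tsum_le_tsum _ hsum
          intro n
          have hn : g1 n = g0 n + ((l1 - l0 : ℝ) : ℂ) * shiftR (cprod g0 g1) n := congrFun hid n
          rw [hn]
          have h2 := norm_add_le (g0 n) (((l1 - l0 : ℝ) : ℂ) * shiftR (cprod g0 g1) n)
          rw [norm_mul, Complex.norm_real, Real.norm_of_nonneg (by linarith)] at h2
          have h3 : 0 ≤ r ^ n := by positivity
          nlinarith [mul_le_mul_of_nonneg_right h2 h3]
      _ = M0 + (l1 - l0) * (r * ∑' n, ‖cprod g0 g1 n‖ * r ^ n) := by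
          rw [hs0.tsum_add (hshift.summable.mul_left _), tsum_mul_left, hshift.tsum_eq]
      _ ≤ M0 + (l1 - l0) * (r * (M0 * M1)) := by
          have : (l1 - l0) * (r * ∑' n, ‖cprod g0 g1 n‖ * r ^ n)
              ≤ (l1 - l0) * (r * (M0 * M1)) := by
            apply mul_le_mul_of_nonneg_left _ (by linarith)
            apply mul_le_mul_of_nonneg_left hcle hr0
          linarith
  have hM0nn : 0 ≤ M0 := tsum_nonneg (fun n => by positivity)
  have hM1nn : 0 ≤ M1 := tsum_nonneg (fun n => by positivity)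
  have hl0r : 0 < 1 - l0 * r := by nlinarith
  have hl1r : 0 < 1 - l1 * r := by nlinarith
  have hM0' : M0 * (1 - l0 * r) ≤ 1 := by
    rwa [le_div_iff₀ hl0r] at hM0
  rw [le_div_iff₀ hl1r]
  -- M1 * (1 - l1 r) ≤ 1
  by_contra hcon
  push Not at hcon
  have e1 : M1 * (1 - (l1 - l0) * r * M0) ≤ M0 := by nlinarith [hle]
  have hk : 0 ≤ (l1 - l0) * r := mul_nonneg (by linarith) hr0
  -- (1 - l0 r) * (1 - (l1-l0) r M0) ≥ 1 - l0 r - (l1 - l0) r = 1 - l1 r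
  have e2 : 1 - l1 * r ≤ (1 - l0 * r) * (1 - (l1 - l0) * r * M0) := by
    nlinarith [mul_le_mul_of_nonneg_left hM0' hk]
  have e3 : M1 * (1 - l1 * r) ≤ (1 - l0 * r) * M0 := by
    calc M1 * (1 - l1 * r) ≤ M1 * ((1 - l0 * r) * (1 - (l1 - l0) * r * M0)) :=
          mul_le_mul_of_nonneg_left e2 hM1nn
      _ = (1 - l0 * r) * (M1 * (1 - (l1 - l0) * r * M0)) := by ring
      _ ≤ (1 - l0 * r) * M0 := mul_le_mul_of_nonneg_left e1 hl0r.le
  nlinarith

end Pool.Agent.Helper205.Bohr
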