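import Pool.Agent.Helper205.BohrB

set_option autoImplicit false
open Complex Filter Topology Metric
open Finset (range)

namespace Pool.Agent.Helper205.Bohr

/-- The class `F_l`. -/
def Fam (l : ℝ) : Set (ℂ → ℂ) :=
  {f | DifferentiableOn ℂ f (ball 0 1) ∧ (∀ z ∈ ball (0 : ℂ) 1, ‖f z‖ < 1) ∧ f 0 = (l : ℂ)}

/-- `F_f(r) = l + ∑_{n ≥ 1} |a_n| r^n`. -/
noncomputable def maj (l : ℝ) (f : ℂ → ℂ) (r : ℝ) : ℝ := l + ∑' n : ℕ, ‖coeff f (n + 1)‖ * r ^ (n + 1)

/-- The best constant `B(l)`. -/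
noncomputable def B (l : ℝ) : ℝ := sSup {r : ℝ | 0 ≤ r ∧ r < 1 ∧ ∀ f ∈ Fam l, maj l f r ≤ 1}


lemma moebius_lt {l : ℝ} {u : ℂ} (hl0 : 0 ≤ l) (hl1 : l < 1) (hu : ‖u‖ < 1) :
    ‖((l : ℂ) - u) / (1 - l * u)‖ < 1 := by
  have hlu : ‖(l : ℂ) * u‖ < 1 := by
    apply norm_mul_lt _ hu
    rw [Complex.norm_real, Real.norm_of_nonneg hl0]
    exact hl1.le
  have hd := one_sub_ne hlu
  rw [norm_div, div_lt_one (norm_pos_iff.mpr hd)]
  apply lt_of_pow_lt_pow_left₀ 2 (norm_nonneg _)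
  rw [← Complex.normSq_eq_norm_sq, ← Complex.normSq_eq_norm_sq]
  have hu2 : Complex.normSq u < 1 := by
    rw [Complex.normSq_eq_norm_sq]
    nlinarith [norm_nonneg u]
  simp only [Complex.normSq_apply, Complex.sub_re, Complex.sub_im, Complex.mul_re, Complex.mul_im,
    Complex.ofReal_re, Complex.ofReal_im, Complex.one_re, Complex.one_im] at hu2 ⊢
  have h1 : 0 < (1 - l * l) * (1 - (u.re * u.re + u.im * u.im)) :=
    mul_pos (by nlinarith) (by linarith)
  nlinarith [h1]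

lemma exists_phi {l : ℝ} (hl0 : 0 ≤ l) (hl1 : l < 1) {f : ℂ → ℂ} (hf : f ∈ Fam l) :
    ∃ φ : ℂ → ℂ, Schur φ ∧ ∀ z : ℂ, ‖z‖ < 1 →
      f z = l - (1 - (l : ℂ) ^ 2) * (z * (φ z / (1 - l * z * φ z))) := by
  obtain ⟨hfd, hfb, hf0⟩ := hf
  set w : ℂ → ℂ := fun z => ((l : ℂ) - f z) / (1 - l * f z) with hw
  have hden : ∀ z : ℂ, ‖z‖ < 1 → (1 : ℂ) - l * f z ≠ 0 := by
    intro z hz
    apply one_sub_ne
    apply norm_mul_lt _ (hfb z (by simpa using hz))
    rw [Complex.norm_real, Real.norm_of_nonneg hl0]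
    exact hl1.le
  have hwd : DifferentiableOn ℂ w (ball 0 1) := by
    apply DifferentiableOn.div
    · fun_prop
    · fun_prop
    · intro z hz
      exact hden z (by simpa using hz)
  have hw0 : w 0 = 0 := by
    rw [hw]; simp [hf0]
  have hwb : ∀ z : ℂ, ‖z‖ < 1 → ‖w z‖ < 1 := by
    intro z hz
    exact moebius_lt hl0 hl1 (hfb z (by simpa using hz))
  refine ⟨dslope w 0, ⟨?_, ?_⟩, ?_⟩
  · exact (Complex.differentiableOn_dslope (ball_mem_nhds 0 one_pos)).mpr hwd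
  · intro z hz
    have := Complex.norm_dslope_le_div_of_mapsTo_ball (c := 0) (R₁ := 1) (R₂ := 1) (f := w) hwd
      (by
        intro y hy
        rw [hw0]
        simpa using (hwb y (by simpa using hy)).le) (z := z) (by simpa using hz)
    simpa using this
  · intro z hz
    have h1 : z * dslope w 0 z = w z := by
      have := sub_smul_dslope w 0 z
      simpa [hw0] using this
    have hd := hden z hz
    have h2 : (1 : ℂ) - l * z * dslope w 0 z = 1 - l * w z := by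
      rw [mul_assoc, h1]
    have hd2 : (1 : ℂ) - l * w z ≠ 0 := by
      apply one_sub_ne
      apply norm_mul_lt _ (hwb z hz)
      rw [Complex.norm_real, Real.norm_of_nonneg hl0]
      exact hl1.le
    rw [h2, mul_div_assoc', h1]
    have hl2 : (1 : ℂ) - l ^ 2 ≠ 0 := by
      norm_cast
      nlinarith
    have h3 : (1 : ℂ) - l * w z = (1 - l ^ 2) / (1 - l * f z) := by
      rw [hw]
      simp only
      field_simp
      ring
    rw [h3, hw]
    simp only
    rw [div_div_div_cancel_right₀ hd, mul_div_cancel₀ _ hl2]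
    ring

lemma maj_le {l0 r0 l : ℝ} (hP : P l0 r0) (h0 : 0 < l0) (hr00 : 0 < r0) (hr01 : r0 < 1)
    (h01 : l0 ≤ l) (hl1 : l < 1) (hr : r0 = 1 / (1 + 2 * l0)) {f : ℂ → ℂ} (hf : f ∈ Fam l) :
    maj l f (1 / (1 + 2 * l)) ≤ 1 := by
  have hl0 : 0 < l := lt_of_lt_of_le h0 h01
  obtain ⟨φ, hφ, hφf⟩ := exists_phi hl0.le hl1 hf
  set s : ℝ := (1 + 2 * l0) / (1 + 2 * l) with hs
  have hs0 : 0 < s := by positivity
  have hs1 : s ≤ 1 := by
    rw [hs, div_le_one (by positivity)]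
    linarith
  set r : ℝ := 1 / (1 + 2 * l) with hrdef
  have hrs : r = s * r0 := by
    rw [hrdef, hs, hr]
    field_simp
  have hsn : ‖(s : ℂ)‖ ≤ 1 := by
    rw [Complex.norm_real, Real.norm_of_nonneg hs0.le]
    exact hs1
  have hφs : Schur (fun z => φ (s * z)) := by
    refine ⟨?_, ?_⟩
    · have : DifferentiableOn ℂ (fun z : ℂ => (s : ℂ) * z) (ball 0 1) := by fun_prop
      apply hφ.1.comp this
      intro z hz
      have := norm_mul_lt hsn (by simpa using hz : ‖z‖ < 1)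
      simpa using this
    · intro z hz
      exact hφ.2 _ (norm_mul_lt hsn hz)
  set l1 : ℝ := l * s with hl1def
  have hl1a : l0 ≤ l1 := by
    rw [hl1def, hs, mul_div_assoc', le_div_iff₀ (by positivity)]
    nlinarith
  have hl1b : l1 ≤ 1 := by
    rw [hl1def]
    nlinarith
  have hl1c : 0 ≤ l1 := h0.le.trans hl1a
  have hP1 : P l1 r0 := P_mono hP h0.le hl1a hl1b hr00.le hr01
  have hG := Gf_ps hφs hl1c hl1b
  set g := coeff (Gf l1 (fun z => φ (s * z))) with hg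
  have hM := hP1 _ hφs g hG
  have hfd : DifferentiableOn ℂ f (ball 0 1) := hf.1
  have hps := (ps_coeff hfd).scale (s : ℂ) hsn
  have hps2 : PS (fun z => f (s * z))
      (fun n => (if n = 0 then (l : ℂ) else 0) - ((1 - (l : ℂ) ^ 2) * s) * shiftR g n) := by
    refine ((ps_const (l : ℂ)).sub ((hG.zmul).const_mul ((1 - (l : ℂ) ^ 2) * s))).congr ?_
    intro z hz
    have hz' := norm_mul_lt hsn hz
    rw [hφf _ hz']
    simp only [Gf, hl1def]
    push_cast
    ring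
  have hco := hps.unique hps2
  have hterm : ∀ n, ‖coeff f (n + 1)‖ * r ^ (n + 1) = ((1 - l ^ 2) * r) * (‖g n‖ * r0 ^ n) := by
    intro n
    have h1 := congrFun hco (n + 1)
    simp only [shiftR] at h1
    have h2 : ‖coeff f (n + 1)‖ * s ^ (n + 1) = (1 - l ^ 2) * s * ‖g n‖ := by
      have h3 := congrArg norm h1
      rw [norm_mul, norm_pow, Complex.norm_real, Real.norm_of_nonneg hs0.le] at h3
      rw [h3]
      simp only [Nat.add_eq_zero_iff, one_ne_zero, and_false, if_false, zero_sub, norm_neg, norm_mul]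
      rw [Complex.norm_real, Real.norm_of_nonneg hs0.le]
      have h4 : (1 - (l : ℂ) ^ 2) = ((1 - l ^ 2 : ℝ) : ℂ) := by push_cast; ring
      rw [h4, Complex.norm_real, Real.norm_of_nonneg (by nlinarith)]
    rw [hrs, mul_pow, ← mul_assoc, h2]
    ring
  rw [maj]
  have hsum : ∑' n, ‖coeff f (n + 1)‖ * r ^ (n + 1) = ((1 - l ^ 2) * r) * ∑' n, ‖g n‖ * r0 ^ n := by
    rw [← tsum_mul_left]
    exact tsum_congr hterm
  rw [hsum]
  have hlr : l1 * r0 = l * r := by
    rw [hl1def, hrs]; ring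
  rw [hlr] at hM
  have h5 : 1 / (1 - l * r) = (1 + 2 * l) / (1 + l) := by
    rw [hrdef]
    have : (1 : ℝ) + l ≠ 0 := by positivity
    have h6 : (1 : ℝ) - l * (1 / (1 + 2 * l)) = (1 + l) / (1 + 2 * l) := by
      field_simp
      ring
    rw [h6, one_div_div]
  rw [h5] at hM
  have hr0' : 0 < r := by rw [hrdef]; positivity
  have h7 : 0 ≤ (1 - l ^ 2) * r := mul_nonneg (by nlinarith) hr0'.le
  have h8 := mul_le_mul_of_nonneg_left hM h7
  have h9 : (1 - l ^ 2) * r * ((1 + 2 * l) / (1 + l)) = 1 - l := by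
    rw [hrdef]
    have : (1 : ℝ) + l ≠ 0 := by positivity
    field_simp
    ring
  linarith

/-- the Möbius function -/
noncomputable def moeb (l : ℝ) (z : ℂ) : ℂ := ((l : ℂ) - z) / (1 - l * z)

lemma moeb_ps {l : ℝ} (hl0 : 0 ≤ l) (hl1 : l < 1) : PS (moeb l)
    (fun n => (if n = 0 then (l : ℂ) else 0) - (1 - (l : ℂ) ^ 2) * shiftR (fun n => (l : ℂ) ^ n) n) := by
  have hln : ‖(l : ℂ)‖ ≤ 1 := by
    rw [Complex.norm_real, Real.norm_of_nonneg hl0]; exact hl1.le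
  refine ((ps_const (l : ℂ)).sub (((ps_geom (l : ℂ) hln).zmul).const_mul (1 - (l : ℂ) ^ 2))).congr ?_
  intro z hz
  have hd := one_sub_ne (norm_mul_lt hln hz)
  simp only [moeb]
  field_simp
  ring

lemma moeb_mem {l : ℝ} (hl0 : 0 ≤ l) (hl1 : l < 1) : moeb l ∈ Fam l := by
  refine ⟨(moeb_ps hl0 hl1).differentiableOn, ?_, ?_⟩
  · intro z hz
    exact moebius_lt hl0 hl1 (by simpa using hz)
  · simp [moeb]

lemma moeb_maj {l r : ℝ} (hl0 : 0 ≤ l) (hl1 : l < 1) (hr0 : 0 ≤ r) (hr1 : r < 1) :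
    maj l (moeb l) r = l + (1 - l ^ 2) * (r / (1 - l * r)) := by
  have hco : coeff (moeb l) = _ := (ps_coeff (moeb_mem hl0 hl1).1).unique (moeb_ps hl0 hl1)
  rw [maj]
  congr 1
  have hterm : ∀ n, ‖coeff (moeb l) (n + 1)‖ * r ^ (n + 1) = ((1 - l ^ 2) * r) * (l * r) ^ n := by
    intro n
    rw [hco]
    simp only [shiftR, Nat.add_eq_zero_iff, one_ne_zero, and_false, if_false, zero_sub, norm_neg,
      norm_mul, norm_pow]
    have h4 : (1 - (l : ℂ) ^ 2) = ((1 - l ^ 2 : ℝ) : ℂ) := by push_cast; ring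
    rw [h4, Complex.norm_real, Complex.norm_real, Real.norm_of_nonneg (by nlinarith : 0 ≤ 1 - l ^ 2),
      Real.norm_of_nonneg hl0, mul_pow]
    ring
  rw [tsum_congr hterm, tsum_mul_left, tsum_geometric_of_lt_one (by positivity) (by nlinarith)]
  rw [div_eq_mul_inv]
  ring

lemma B_eq {l0 r0 l : ℝ} (hP : P l0 r0) (h0 : 0 < l0) (hr00 : 0 < r0) (hr01 : r0 < 1)
    (h01 : l0 ≤ l) (hl1 : l < 1) (hr : r0 = 1 / (1 + 2 * l0)) : B l = 1 / (1 + 2 * l) := by
  have hl0 : 0 < l := lt_of_lt_of_le h0 h01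
  have hgr : IsGreatest {r : ℝ | 0 ≤ r ∧ r < 1 ∧ ∀ f ∈ Fam l, maj l f r ≤ 1} (1 / (1 + 2 * l)) := by
    constructor
    · refine ⟨by positivity, ?_, ?_⟩
      · rw [div_lt_one (by positivity)]; linarith
      · intro f hf
        exact maj_le hP h0 hr00 hr01 h01 hl1 hr hf
    · rintro r ⟨hr0, hr1, hf⟩
      have h1 := hf _ (moeb_mem hl0.le hl1)
      rw [moeb_maj hl0.le hl1 hr0 hr1] at h1
      have h2 : 0 < 1 - l * r := by nlinarith
      have h3 : (1 - l ^ 2) * (r / (1 - l * r)) ≤ 1 - l := by linarith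
      rw [mul_div_assoc', div_le_iff₀ h2] at h3
      rw [le_div_iff₀ (by positivity)]
      have h4 : 0 < 1 - l := by linarith
      have h5 : (1 - l) * ((1 + l) * r) ≤ (1 - l) * (1 - l * r) := by nlinarith
      have h6 := le_of_mul_le_mul_left h5 h4
      linarith
  exact hgr.csSup_eq

end Pool.Agent.Helper205.Bohr
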