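import Pool.Agent.Helper205.BohrC

set_option autoImplicit false
open Complex Filter Topology Metric
open Finset (range Ico)

/-! Parseval for power series (the first part is taken from `Pool.Agent.Helper76.Hardy`). -/

namespace Pool.Agent.Helper205.Bohr

/-- mean value property, real part -/
lemma avg_re (Q : ℂ → ℂ) (r : ℝ) (hc : ContinuousOn Q (sphere 0 |r|))
    (hQ : DiffContOnCl ℂ Q (ball 0 |r|)) :
    Real.circleAverage (fun z => (Q z).re) 0 r = (Q 0).re := by
  have hi : CircleIntegrable Q 0 r := hc.circleIntegrable'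
  have h1 := hQ.circleAverage
  have h2 := Complex.reCLM.circleAverage_comp_comm hi
  rw [h1] at h2
  exact h2

lemma circ_int_cont (f : ℂ → ℝ) (hf : Continuous f) (r : ℝ) : CircleIntegrable f 0 r :=
  ContinuousOn.circleIntegrable' hf.continuousOn

lemma avg_add3 (f g : ℂ → ℝ) (hf : Continuous f) (hg : Continuous g) (c r : ℝ) :
    Real.circleAverage (fun z => f z + g z + c) 0 r
      = Real.circleAverage f 0 r + Real.circleAverage g 0 r + c := by
  have h1 := Real.circleAverage_fun_add (circ_int_cont _ (hf.add hg) r)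
    (circ_int_cont (fun _ => c) continuous_const r)
  have h2 := Real.circleAverage_fun_add (circ_int_cont _ hf r) (circ_int_cont _ hg r)
  rw [Real.circleAverage_const] at h1
  simp only [Pi.add_apply] at h1 h2 ⊢
  rw [h1, ← h2]
  rfl

lemma parseval_fin (p : ℕ → ℂ) (r : ℝ) (N : ℕ) :
    Real.circleAverage (fun z => ‖∑ n ∈ range N, p n * z ^ n‖ ^ 2) 0 r
      = ∑ n ∈ range N, ‖p n‖ ^ 2 * (r ^ 2) ^ n := by
  induction N with
  | zero =>
    simp only [Finset.range_zero, Finset.sum_empty, norm_zero]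
    rw [Real.circleAverage_const]
    simp
  | succ N ih =>
    rw [Finset.sum_range_succ (n := N) (f := fun n => ‖p n‖ ^ 2 * (r ^ 2) ^ n), ← ih]
    set Q : ℂ → ℂ := fun z => p N * ∑ n ∈ range N, (starRingEnd ℂ) (p n) * ((r : ℂ) ^ 2) ^ n * z ^ (N - n) with hQ
    have hQd : Differentiable ℂ Q := by
      rw [hQ]
      fun_prop
    have hQ0 : Q 0 = 0 := by
      rw [hQ]
      simp only
      rw [Finset.sum_eq_zero, mul_zero]
      intro n hn
      have : N - n ≠ 0 := by
        have := Finset.mem_range.mp hn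
        omega
      rw [zero_pow this, mul_zero]
    have havg : Real.circleAverage (fun z => (Q z).re) 0 r = 0 := by
      rw [avg_re Q r hQd.continuous.continuousOn hQd.diffContOnCl, hQ0]
      simp
    have hpt : Set.EqOn (fun z : ℂ => ‖∑ n ∈ range (N + 1), p n * z ^ n‖ ^ 2)
        (fun z => (‖∑ n ∈ range N, p n * z ^ n‖ ^ 2 + 2 * (Q z).re) + ‖p N‖ ^ 2 * (r ^ 2) ^ N)
        (sphere 0 |r|) := by
      intro z hz
      have hz1 : ‖z‖ = |r| := by simpa using hz
      have hz2 : (starRingEnd ℂ) z * z = (r : ℂ) ^ 2 := by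
        rw [Complex.conj_mul', hz1]
        rw [← Complex.ofReal_pow, sq_abs, Complex.ofReal_pow]
      simp only
      rw [Finset.sum_range_succ]
      have h1 : (starRingEnd ℂ) (∑ n ∈ range N, p n * z ^ n) * (p N * z ^ N) = Q z := by
        rw [hQ]
        simp only
        rw [map_sum, Finset.sum_mul, Finset.mul_sum]
        apply Finset.sum_congr rfl
        intro n hn
        have hn' : n < N := Finset.mem_range.mp hn
        rw [map_mul, map_pow, ← hz2, mul_pow]
        have : z ^ N = z ^ n * z ^ (N - n) := by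
          rw [← pow_add]
          congr 1
          omega
        rw [this]
        ring
      have h2 : ∀ x y : ℂ, ‖x + y‖ ^ 2 = ‖x‖ ^ 2 + 2 * ((starRingEnd ℂ) x * y).re + ‖y‖ ^ 2 := by
        intro x y
        simp only [← Complex.normSq_eq_norm_sq, Complex.normSq_apply, Complex.mul_re,
          Complex.conj_re, Complex.conj_im, Complex.add_re, Complex.add_im]
        ring
      rw [h2, h1, norm_mul, norm_pow, hz1, mul_pow, ← pow_mul, mul_comm N 2, pow_mul, sq_abs]
    rw [Real.circleAverage_congr_sphere hpt]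
    have hc1 : Continuous (fun z : ℂ => ‖∑ n ∈ range N, p n * z ^ n‖ ^ 2) := by fun_prop
    have hc2 : Continuous (fun z : ℂ => 2 * (Q z).re) := by
      have := hQd.continuous
      fun_prop
    rw [avg_add3 _ _ hc1 hc2]
    have : Real.circleAverage (fun z : ℂ => 2 * (Q z).re) 0 r = 0 := by
      have h := Real.circleAverage_fun_smul (a := (2 : ℝ)) (f := fun z : ℂ => (Q z).re) (c := 0) (R := r)
      simp only [smul_eq_mul] at h
      rw [h, havg]
      simp
    rw [this]
    ring



noncomputable def ev (a : ℕ → ℂ) (z : ℂ) : ℂ := ∑' n : ℕ, a n * z ^ n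

lemma ev_summable_norm (a : ℕ → ℂ) (B : ℝ) (hB : ∀ n, ‖a n‖ ≤ B) (z : ℂ) (hz : ‖z‖ < 1) :
    Summable (fun n : ℕ => ‖a n * z ^ n‖) := by
  have hg : Summable (fun n : ℕ => B * ‖z‖ ^ n) :=
    (summable_geometric_of_lt_one (norm_nonneg z) hz).mul_left B
  apply Summable.of_nonneg_of_le (fun n => norm_nonneg _) _ hg
  intro n
  rw [norm_mul, norm_pow]
  exact mul_le_mul_of_nonneg_right (hB n) (by positivity)

lemma ev_summable (a : ℕ → ℂ) (B : ℝ) (hB : ∀ n, ‖a n‖ ≤ B) (z : ℂ) (hz : ‖z‖ < 1) :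
    Summable (fun n : ℕ => a n * z ^ n) :=
  (ev_summable_norm a B hB z hz).of_norm

lemma ev_bound (a : ℕ → ℂ) (B : ℝ) (hB : ∀ n, ‖a n‖ ≤ B) (z : ℂ) (hz : ‖z‖ < 1) (N : ℕ) :
    ‖∑ n ∈ range N, a n * z ^ n‖ ≤ B * (1 - ‖z‖)⁻¹ := by
  have hB0 : 0 ≤ B := (norm_nonneg _).trans (hB 0)
  calc ‖∑ n ∈ range N, a n * z ^ n‖ ≤ ∑ n ∈ range N, ‖a n * z ^ n‖ := norm_sum_le _ _
    _ ≤ ∑ n ∈ range N, B * ‖z‖ ^ n := by
        apply Finset.sum_le_sum
        intro n _
        rw [norm_mul, norm_pow]
        exact mul_le_mul_of_nonneg_right (hB n) (by positivity)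
    _ = B * ∑ n ∈ range N, ‖z‖ ^ n := (Finset.mul_sum _ _ _).symm
    _ ≤ B * (1 - ‖z‖)⁻¹ := by
        apply mul_le_mul_of_nonneg_left _ hB0
        rw [← tsum_geometric_of_lt_one (norm_nonneg z) hz]
        exact (summable_geometric_of_lt_one (norm_nonneg z) hz).sum_le_tsum _
          (fun n _ => by positivity)

lemma parseval_inf (a : ℕ → ℂ) (B : ℝ) (hB : ∀ n, ‖a n‖ ≤ B) (r : ℝ) (h0 : 0 ≤ r) (h1 : r < 1) :
    Tendsto (fun N : ℕ => ∑ n ∈ range N, ‖a n‖ ^ 2 * (r ^ 2) ^ n) atTop
      (𝓝 (Real.circleAverage (fun z => ‖ev a z‖ ^ 2) 0 r)) := by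
  have hmem : ∀ θ : ℝ, ‖circleMap 0 r θ‖ = r := by
    intro θ
    rw [norm_circleMap_zero, abs_of_nonneg h0]
  have key : Tendsto (fun N : ℕ => Real.circleAverage (fun z => ‖∑ n ∈ range N, a n * z ^ n‖ ^ 2) 0 r)
      atTop (𝓝 (Real.circleAverage (fun z => ‖ev a z‖ ^ 2) 0 r)) := by
    unfold Real.circleAverage
    apply Tendsto.const_smul
    apply intervalIntegral.tendsto_integral_filter_of_dominated_convergence
      (fun _ => (B * (1 - r)⁻¹) ^ 2)
    · filter_upwards with N
      apply Continuous.aestronglyMeasurable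
      fun_prop
    · filter_upwards with N
      filter_upwards with θ _
      rw [Real.norm_of_nonneg (by positivity)]
      apply pow_le_pow_left₀ (norm_nonneg _)
      have := ev_bound a B hB (circleMap 0 r θ) (by rw [hmem]; exact h1) N
      rwa [hmem] at this
    · exact intervalIntegrable_const
    · filter_upwards with θ _
      have hs := ev_summable a B hB (circleMap 0 r θ) (by rw [hmem]; exact h1)
      exact (hs.hasSum.tendsto_sum_nat.norm).pow 2
  refine key.congr ?_
  intro N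
  exact parseval_fin a r N


/-- Bessel inequality for bounded analytic functions. -/
lemma bessel {F : ℂ → ℂ} {a : ℕ → ℂ} (ha : PS F a) (hb : ∀ z : ℂ, ‖z‖ < 1 → ‖F z‖ ≤ 1) (N : ℕ) :
    ∑ n ∈ range N, ‖a n‖ ^ 2 ≤ 1 := by
  have key : ∀ t : ℝ, 0 ≤ t → t < 1 → ∑ n ∈ range N, ‖a n‖ ^ 2 * (t ^ 2 * t ^ 2) ^ n ≤ 1 := by
    intro t h0 h1
    have htn : ‖(t : ℂ)‖ ≤ 1 := by
      rw [Complex.norm_real, Real.norm_of_nonneg h0]; exact h1.le
    have hsc := ha.scale (t : ℂ) htn
    have hbd : ∃ B : ℝ, ∀ n, ‖a n * (t : ℂ) ^ n‖ ≤ B := by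
      have hs := (ha (t : ℂ) (by rw [Complex.norm_real, Real.norm_of_nonneg h0]; exact h1)).summable
      have h2 := hs.tendsto_atTop_zero.norm.bddAbove_range
      obtain ⟨B, hB⟩ := h2
      exact ⟨B, fun n => hB ⟨n, rfl⟩⟩
    obtain ⟨B, hB⟩ := hbd
    have hP := parseval_inf (fun n => a n * (t : ℂ) ^ n) B hB t h0 h1
    have hle : Real.circleAverage (fun z => ‖ev (fun n => a n * (t : ℂ) ^ n) z‖ ^ 2) 0 t ≤ 1 := by
      apply Real.circleAverage_mono_on_of_le_circle
      · apply ContinuousOn.circleIntegrable'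
        rw [abs_of_nonneg h0]
        have hc : ContinuousOn (fun z : ℂ => F (t * z)) (ball 0 1) := hsc.continuousOn
        have hc2 : ContinuousOn (fun z : ℂ => ‖F (t * z)‖ ^ 2) (sphere 0 t) := by
          apply ContinuousOn.pow
          apply ContinuousOn.norm
          apply hc.mono
          intro z hz
          have : ‖z‖ = t := by simpa using hz
          simpa [this] using h1
        apply hc2.congr
        intro z hz
        have hz1 : ‖z‖ = t := by simpa using hz
        have := (hsc z (by rw [hz1]; exact h1)).tsum_eq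
        simp only [ev]
        rw [this]
      · intro z hz
        rw [abs_of_nonneg h0] at hz
        have hz1 : ‖z‖ = t := by simpa using hz
        have hz2 : ‖z‖ < 1 := by rw [hz1]; exact h1
        have := (hsc z hz2).tsum_eq
        simp only [ev]
        rw [this]
        have h3 := hb _ (norm_mul_lt htn hz2)
        have h4 := norm_nonneg (F (t * z))
        nlinarith
    have hmono : ∑ n ∈ range N, ‖a n * (t : ℂ) ^ n‖ ^ 2 * (t ^ 2) ^ n ≤ 1 := by
      refine le_trans ?_ hle
      apply ge_of_tendsto hP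
      filter_upwards [eventually_ge_atTop N] with m hm
      apply Finset.sum_le_sum_of_subset_of_nonneg
      · intro x hx
        rw [Finset.mem_range] at hx ⊢
        omega
      · intro i _ _
        positivity
    refine le_trans (le_of_eq ?_) hmono
    apply Finset.sum_congr rfl
    intro n _
    rw [norm_mul, norm_pow, Complex.norm_real, Real.norm_of_nonneg h0, mul_pow, mul_pow]
    ring
  have hcont : Tendsto (fun t : ℝ => ∑ n ∈ range N, ‖a n‖ ^ 2 * (t ^ 2 * t ^ 2) ^ n) (𝓝[<] 1)
      (𝓝 (∑ n ∈ range N, ‖a n‖ ^ 2 * ((1 : ℝ) ^ 2 * 1 ^ 2) ^ n)) := by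
    apply tendsto_nhdsWithin_of_tendsto_nhds
    apply Continuous.tendsto
    fun_prop
  simp only [one_pow, mul_one] at hcont
  apply le_of_tendsto hcont
  have : ∀ᶠ t : ℝ in 𝓝[<] 1, t ∈ Set.Ioo (0 : ℝ) 1 := Ioo_mem_nhdsLT (by norm_num)
  filter_upwards [this] with t ht
  exact key t ht.1.le ht.2

end Pool.Agent.Helper205.Bohr
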