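import Pool.Agent.Helper205.BohrD

set_option autoImplicit false
open Complex Filter Topology Metric MeasureTheory
open Finset (range)

namespace Pool.Agent.Helper205.Bohr


/-- point on the circle -/
noncomputable def cpt (t : ℝ) : ℂ := Complex.exp (t * I)

lemma cpt_norm (t : ℝ) : ‖cpt t‖ = 1 := Complex.norm_exp_ofReal_mul_I t

lemma cpt_cont : Continuous cpt := by unfold cpt; fun_prop

lemma cpt_zpow_int (m : ℤ) :
    ∫ t in (0 : ℝ)..2 * Real.pi, (cpt t) ^ m = if m = 0 then ((2 * Real.pi : ℝ) : ℂ) else 0 := by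
  split_ifs with h
  · rw [h]
    simp
  · have hc : (m : ℂ) * I ≠ 0 := mul_ne_zero (by exact_mod_cast h) I_ne_zero
    have h1 : ∀ t : ℝ, (cpt t) ^ m = Complex.exp ((m : ℂ) * I * t) := by
      intro t
      rw [cpt, ← Complex.exp_int_mul]
      congr 1
      ring
    simp_rw [h1]
    rw [integral_exp_mul_complex hc]
    have h2 : Complex.exp ((m : ℂ) * I * ((2 * Real.pi : ℝ) : ℂ)) = 1 := by
      rw [show (m : ℂ) * I * ((2 * Real.pi : ℝ) : ℂ) = m * (2 * Real.pi * I) by push_cast; ring]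
      exact Complex.exp_int_mul_two_pi_mul_I m
    rw [h2]
    simp

lemma coef_int {F : ℂ → ℂ} {a : ℕ → ℂ} (ha : PS F a) {ρ : ℝ} (h0 : 0 ≤ ρ) (h1 : ρ < 1) (m : ℤ) :
    HasSum (fun n : ℕ => a n * (ρ : ℂ) ^ n * (if (n : ℤ) + m = 0 then ((2 * Real.pi : ℝ) : ℂ) else 0))
      (∫ t in (0 : ℝ)..2 * Real.pi, F (ρ * cpt t) * (cpt t) ^ m) := by
  have hs := ha.summable_norm_mul ρ h0 h1
  have hc : Continuous fun t : ℝ => (cpt t) ^ m := by
    apply Continuous.zpow₀ cpt_cont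
    intro t
    left
    intro h
    have := cpt_norm t
    rw [h] at this
    simp at this
  have key := intervalIntegral.hasSum_integral_of_dominated_convergence (a := 0) (b := 2 * Real.pi)
    (μ := volume) (F := fun (n : ℕ) (t : ℝ) => a n * (ρ : ℂ) ^ n * (cpt t) ^ ((n : ℤ) + m))
    (f := fun t => F (ρ * cpt t) * (cpt t) ^ m) (fun n _ => ‖a n‖ * ρ ^ n) ?_ ?_ ?_ ?_ ?_
  · refine hs_congr key (fun n => ?_) rfl
    rw [intervalIntegral.integral_const_mul, cpt_zpow_int]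
  · intro n
    apply Continuous.aestronglyMeasurable
    apply Continuous.mul continuous_const
    apply Continuous.zpow₀ cpt_cont
    intro t
    left
    intro h
    have := cpt_norm t
    rw [h] at this
    simp at this
  · intro n
    filter_upwards with t _
    rw [norm_mul, norm_mul, norm_pow, Complex.norm_real, Real.norm_of_nonneg h0, norm_zpow, cpt_norm,
      one_zpow, mul_one]
  · filter_upwards with t _
    exact hs
  · exact intervalIntegrable_const
  · filter_upwards with t _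
    have hz : ‖(ρ : ℂ) * cpt t‖ < 1 := by
      rw [norm_mul, cpt_norm, Complex.norm_real, Real.norm_of_nonneg h0, mul_one]
      exact h1
    have h2 := (ha _ hz).mul_right ((cpt t) ^ m)
    refine hs_congr h2 (fun n => ?_) rfl
    have hne : cpt t ≠ 0 := by
      intro h
      have := cpt_norm t
      rw [h] at this
      simp at this
    rw [zpow_add₀ hne, zpow_natCast, mul_pow]
    ring

lemma coef_int_neg {F : ℂ → ℂ} {a : ℕ → ℂ} (ha : PS F a) {ρ : ℝ} (h0 : 0 ≤ ρ) (h1 : ρ < 1) (j : ℕ) :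
    ∫ t in (0 : ℝ)..2 * Real.pi, F (ρ * cpt t) * (cpt t) ^ (-(j : ℤ)) = a j * (ρ : ℂ) ^ j * ((2 * Real.pi : ℝ) : ℂ) := by
  have h := coef_int ha h0 h1 (-(j : ℤ))
  have h2 := hasSum_single (f := fun n : ℕ => a n * (ρ : ℂ) ^ n *
    (if (n : ℤ) + (-(j : ℤ)) = 0 then ((2 * Real.pi : ℝ) : ℂ) else 0)) j (by
      intro n hn
      rw [if_neg (by omega), mul_zero])
  have h3 := h.unique h2
  rw [h3]
  simp

lemma coef_int_pos {F : ℂ → ℂ} {a : ℕ → ℂ} (ha : PS F a) {ρ : ℝ} (h0 : 0 ≤ ρ) (h1 : ρ < 1) (j : ℕ)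
    (hj : 1 ≤ j) :
    ∫ t in (0 : ℝ)..2 * Real.pi, F (ρ * cpt t) * (cpt t) ^ (j : ℤ) = 0 := by
  have h := coef_int ha h0 h1 (j : ℤ)
  have h2 : HasSum (fun n : ℕ => a n * (ρ : ℂ) ^ n *
    (if (n : ℤ) + (j : ℤ) = 0 then ((2 * Real.pi : ℝ) : ℂ) else 0)) 0 := by
    refine hs_congr hasSum_zero (fun n => ?_) rfl
    rw [if_neg (by omega), mul_zero]
  exact h.unique h2

lemma circ_cont {F : ℂ → ℂ} {a : ℕ → ℂ} (ha : PS F a) {ρ : ℝ} (h0 : 0 ≤ ρ) (h1 : ρ < 1) :
    Continuous (fun t : ℝ => F (ρ * cpt t)) := by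
  have h := ha.continuousOn
  rw [← continuousOn_univ]
  apply h.comp (f := fun t : ℝ => (ρ : ℂ) * cpt t)
  · exact (continuous_const.mul cpt_cont).continuousOn
  · intro t _
    have : ‖(ρ : ℂ) * cpt t‖ < 1 := by
      rw [norm_mul, cpt_norm, Complex.norm_real, Real.norm_of_nonneg h0, mul_one]
      exact h1
    simpa using this

/-- the coefficients of `(1 + ζ z)/(1 - ζ z)` -/
noncomputable def cc (ζ : ℂ) (j : ℕ) : ℂ := if j = 0 then 1 else 2 * ζ ^ j

lemma herglotz {F : ℂ → ℂ} {a : ℕ → ℂ} (ha : PS F a) (hre : (a 0).im = 0) {ρ : ℝ} (h0 : 0 ≤ ρ)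
    (h1 : ρ < 1) (j : ℕ) :
    ∫ t in (0 : ℝ)..2 * Real.pi, ((F (ρ * cpt t)).re : ℂ) * cc (cpt t)⁻¹ j
      = a j * (ρ : ℂ) ^ j * ((2 * Real.pi : ℝ) : ℂ) := by
  have hFc := circ_cont ha h0 h1
  have hcpt : ∀ t, cpt t ≠ 0 := by
    intro t h
    have := cpt_norm t
    rw [h] at this
    simp at this
  have hzc : ∀ m : ℤ, Continuous fun t : ℝ => (cpt t) ^ m := fun m =>
    Continuous.zpow₀ cpt_cont m (fun t => Or.inl (hcpt t))
  have hconj : ∀ t, (starRingEnd ℂ) (cpt t) = (cpt t)⁻¹ := by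
    intro t
    rw [Complex.inv_def, Complex.normSq_eq_norm_sq, cpt_norm]
    simp
  have hneg := coef_int_neg ha h0 h1 j
  by_cases hj : j = 0
  · subst hj
    have e1 : ∀ t : ℝ, ((F (ρ * cpt t)).re : ℂ) * cc (cpt t)⁻¹ 0 = ((F (ρ * cpt t)).re : ℂ) := by
      intro t; simp [cc]
    simp_rw [e1]
    rw [intervalIntegral.integral_ofReal]
    have h2 : ∫ t in (0 : ℝ)..2 * Real.pi, F (ρ * cpt t) = a 0 * ((2 * Real.pi : ℝ) : ℂ) := by
      simpa using hneg
    have h3 : (∫ t in (0 : ℝ)..2 * Real.pi, (F (ρ * cpt t)).re) = (∫ t in (0 : ℝ)..2 * Real.pi, F (ρ * cpt t)).re := by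
      have := Complex.reCLM.intervalIntegral_comp_comm (hFc.intervalIntegrable (μ := volume) 0 (2 * Real.pi))
      simpa using this
    rw [h3, h2]
    apply Complex.ext
    · simp
    · simp [hre]
  · have hpos := coef_int_pos ha h0 h1 j (by omega)
    have h4 : ∫ t in (0 : ℝ)..2 * Real.pi, (starRingEnd ℂ) (F (ρ * cpt t)) * (cpt t) ^ (-(j : ℤ)) = 0 := by
      have h5 := Complex.conjCLE.toContinuousLinearMap.intervalIntegral_comp_comm
        ((hFc.mul (hzc j)).intervalIntegrable (μ := volume) 0 (2 * Real.pi))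
      simp only [ContinuousLinearEquiv.coe_coe, Complex.conjCLE_apply, Pi.mul_apply] at h5
      rw [hpos] at h5
      rw [map_zero] at h5
      rw [← h5]
      congr 1
      funext t
      rw [map_mul, map_zpow₀, hconj, inv_zpow, zpow_neg]
    have e2 : ∀ t : ℝ, ((F (ρ * cpt t)).re : ℂ) * cc (cpt t)⁻¹ j
        = F (ρ * cpt t) * (cpt t) ^ (-(j : ℤ)) + (starRingEnd ℂ) (F (ρ * cpt t)) * (cpt t) ^ (-(j : ℤ)) := by
      intro t
      rw [cc, if_neg hj, ← add_mul, Complex.add_conj, inv_pow, zpow_neg, zpow_natCast]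
      push_cast
      ring
    simp_rw [e2]
    rw [intervalIntegral.integral_add, hneg, h4, add_zero]
    · exact (hFc.mul (hzc _)).intervalIntegrable _ _
    · exact ((Complex.continuous_conj.comp hFc).mul (hzc _)).intervalIntegrable _ _

end Pool.Agent.Helper205.Bohr
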