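import Pool.Agent.Helper205.BohrE

set_option autoImplicit false
open Complex Filter Topology Metric MeasureTheory
open Finset (range)

namespace Pool.Agent.Helper205.Bohr


noncomputable def mm (l : ℝ) (i : ℕ) : ℂ := ((i : ℂ) + 1) * (l : ℂ) ^ i

/-- the coefficients of `(1 + ζ z)/((1 - ζ z)(1 - l z)^2)` -/
noncomputable def kk (l : ℝ) (ζ : ℂ) (n : ℕ) : ℂ := cprod (mm l) (cc ζ) n

/-- the one-parameter inequality -/
def Star (l r d : ℝ) : Prop :=
  ∀ ζ : ℂ, ‖ζ‖ = 1 → ∀ N : ℕ,
    ∑ n ∈ range N, r ^ n * ‖(l : ℂ) ^ n - d * kk l ζ n‖ ≤ 1 / (1 - l * r)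

lemma PS.zero {F : ℂ → ℂ} {a : ℕ → ℂ} (ha : PS F a) : a 0 = F 0 := by
  have h := ha 0 (by simp)
  have h2 := hasSum_single (f := fun n : ℕ => a n * (0 : ℂ) ^ n) 0 (by
    intro n hn
    simp [hn])
  have h3 := h2.unique h
  simpa using h3

lemma ps_mm {l : ℝ} (hl0 : 0 ≤ l) (hl1 : l ≤ 1) :
    PS (fun z => 1 / (1 - (l : ℂ) * z) * (1 / (1 - l * z))) (mm l) := by
  have hln : ‖(l : ℂ)‖ ≤ 1 := by
    rw [Complex.norm_real, Real.norm_of_nonneg hl0]; exact hl1
  have h := (ps_geom (l : ℂ) hln).mul (ps_geom (l : ℂ) hln)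
  have he : cprod (fun n => (l : ℂ) ^ n) (fun n => (l : ℂ) ^ n) = mm l := by
    funext n
    rw [cprod, mm]
    have : ∀ kl ∈ Finset.HasAntidiagonal.antidiagonal n, (l : ℂ) ^ kl.1 * (l : ℂ) ^ kl.2 = (l : ℂ) ^ n := by
      intro kl hkl
      rw [← pow_add, Finset.HasAntidiagonal.mem_antidiagonal.mp hkl]
    rw [Finset.sum_congr rfl this, Finset.sum_const, Finset.Nat.card_antidiagonal]
    simp
  rwa [he] at h

lemma ups_re {u p : ℂ} (hu : ‖u‖ < 1) (hp : ‖p‖ ≤ 1) :
    0 ≤ ((1 - u) * (1 - p) / (1 - u * p)).re := by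
  have hup : ‖u * p‖ < 1 := by
    rw [mul_comm]; exact norm_mul_lt hp hu
  have hd := one_sub_ne hup
  have hns : 0 < Complex.normSq (1 - u * p) := Complex.normSq_pos.mpr hd
  have hu2 : Complex.normSq u ≤ 1 := by
    rw [Complex.normSq_eq_norm_sq]; nlinarith [norm_nonneg u]
  have hp2 : Complex.normSq p ≤ 1 := by
    rw [Complex.normSq_eq_norm_sq]; nlinarith [norm_nonneg p]
  rw [Complex.div_re, ← add_div]
  apply div_nonneg _ hns.le
  have e : ((1 - u) * (1 - p)).re * (1 - u * p).re + ((1 - u) * (1 - p)).im * (1 - u * p).im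
      = (1 - Complex.normSq u) * Complex.normSq (1 - p) / 2
        + Complex.normSq (1 - u) * (1 - Complex.normSq p) / 2 := by
    simp only [Complex.normSq_apply, Complex.sub_re, Complex.sub_im, Complex.mul_re, Complex.mul_im,
      Complex.one_re, Complex.one_im]
    ring
  rw [e]
  have h1 := Complex.normSq_nonneg (1 - p)
  have h2 := Complex.normSq_nonneg (1 - u)
  have h3 : 0 ≤ (1 - Complex.normSq u) * Complex.normSq (1 - p) := mul_nonneg (by linarith) h1
  have h4 : 0 ≤ Complex.normSq (1 - u) * (1 - Complex.normSq p) := mul_nonneg h2 (by linarith)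
  linarith

lemma partB {l r d c : ℝ} (hS : Star l r d) (hl0 : 0 ≤ l) (hl1 : l < 1) (hr0 : 0 ≤ r) (hr1 : r < 1)
    (hd : 0 < d) {φ : ℂ → ℂ} (hφ : Schur φ) (hc : φ 0 = (c : ℂ)) (hc1 : c ≤ 1) (hc2 : 1 - d ≤ c)
    {g : ℕ → ℂ} (hg : PS (Gf l φ) g) : ∑' n, ‖g n‖ * r ^ n ≤ 1 / (1 - l * r) := by
  have hln : ‖(l : ℂ)‖ ≤ 1 := by
    rw [Complex.norm_real, Real.norm_of_nonneg hl0]; exact hl1.le
  set T0 : ℝ := 1 / (1 - l * r) with hT0
  have hlr : 0 < 1 - l * r := by nlinarith
  have hT0pos : 0 < T0 := by rw [hT0]; positivity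
  set Υ : ℂ → ℂ := fun z => (1 - l * z) * (1 - φ z) / (1 - l * z * φ z) with hΥ
  have hΥd : DifferentiableOn ℂ Υ (ball 0 1) := by
    have h1 := hφ.1
    apply DifferentiableOn.div
    · fun_prop
    · fun_prop
    · intro z hz
      exact hφ.den_ne hl0 hl1.le (by simpa using hz)
  have hυ := ps_coeff hΥd
  set υ := coeff Υ with hυdef
  have hυ0 : υ 0 = ((1 - c : ℝ) : ℂ) := by
    rw [hυ.zero, hΥ]
    simp [hc]
  have hΥre : ∀ z : ℂ, ‖z‖ < 1 → 0 ≤ (Υ z).re := by
    intro z hz
    exact ups_re (norm_mul_lt hln hz) (hφ.2 z hz)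
  have hgid : g = fun n => (l : ℂ) ^ n - cprod (mm l) υ n := by
    apply hg.unique
    refine ((ps_geom (l : ℂ) hln).sub ((ps_mm hl0 hl1.le).mul hυ)).congr ?_
    intro z hz
    have hd0 := hφ.den_ne hl0 hl1.le hz
    have hd1 : (1 : ℂ) - l * z ≠ 0 := one_sub_ne (norm_mul_lt hln hz)
    simp only [Gf, hΥ]
    rw [div_mul_div_comm, div_mul_div_comm, div_sub_div _ _ hd1 (mul_ne_zero (mul_ne_zero hd1 hd1) hd0),
      div_eq_div_iff (mul_ne_zero hd1 (mul_ne_zero (mul_ne_zero hd1 hd1) hd0)) hd0]
    ring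
  have h2pi : (0 : ℝ) < 2 * Real.pi := by positivity
  -- the main inequality for each `ρ < 1`
  have main : ∀ N : ℕ, ∀ ρ : ℝ, 0 ≤ ρ → ρ < 1 →
      ∑ n ∈ range N, r ^ n * ‖(l : ℂ) ^ n - cprod (mm l) (fun j => υ j * (ρ : ℂ) ^ j) n‖ ≤ T0 := by
    intro N ρ h0 h1
    set U : ℝ → ℝ := fun t => (Υ (ρ * cpt t)).re with hU
    have hΥc := circ_cont hυ h0 h1
    have hUc : Continuous U := Complex.continuous_re.comp hΥc
    have hU0 : ∀ t, 0 ≤ U t := by
      intro t
      apply hΥre
      rw [norm_mul, cpt_norm, Complex.norm_real, Real.norm_of_nonneg h0, mul_one]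
      exact h1
    have hH : ∀ j : ℕ, ∫ t in (0 : ℝ)..2 * Real.pi, (U t : ℂ) * cc (cpt t)⁻¹ j
        = υ j * (ρ : ℂ) ^ j * ((2 * Real.pi : ℝ) : ℂ) := by
      intro j
      exact herglotz hυ (by rw [hυ0]; exact Complex.ofReal_im _) h0 h1 j
    have hcinv : Continuous fun t : ℝ => (cpt t)⁻¹ := by
      apply Continuous.inv₀ cpt_cont
      intro t h
      have := cpt_norm t
      rw [h] at this
      simp at this
    have hccc : ∀ j : ℕ, Continuous fun t : ℝ => cc (cpt t)⁻¹ j := by
      intro j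
      unfold cc
      split_ifs
      · exact continuous_const
      · exact continuous_const.mul (hcinv.pow j)
    have hkkc : ∀ n : ℕ, Continuous fun t : ℝ => kk l (cpt t)⁻¹ n := by
      intro n
      unfold kk cprod
      apply continuous_finsetSum
      intro kl _
      exact continuous_const.mul (hccc kl.2)
    have hUint : ∫ t in (0 : ℝ)..2 * Real.pi, U t = (1 - c) * (2 * Real.pi) := by
      have h2 := hH 0
      have e1 : ∀ t : ℝ, (U t : ℂ) * cc (cpt t)⁻¹ 0 = (U t : ℂ) := by
        intro t; simp [cc]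
      simp_rw [e1] at h2
      rw [intervalIntegral.integral_ofReal, hυ0, pow_zero, mul_one, ← Complex.ofReal_mul] at h2
      exact_mod_cast h2
    have hk : ∀ n : ℕ, ∫ t in (0 : ℝ)..2 * Real.pi, (U t : ℂ) * kk l (cpt t)⁻¹ n
        = cprod (mm l) (fun j => υ j * (ρ : ℂ) ^ j) n * ((2 * Real.pi : ℝ) : ℂ) := by
      intro n
      unfold kk cprod
      simp_rw [Finset.mul_sum]
      rw [intervalIntegral.integral_finsetSum]
      · rw [Finset.sum_mul]
        apply Finset.sum_congr rfl
        intro kl _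
        have e2 : ∀ t : ℝ, (U t : ℂ) * (mm l kl.1 * cc (cpt t)⁻¹ kl.2)
            = mm l kl.1 * ((U t : ℂ) * cc (cpt t)⁻¹ kl.2) := by
          intro t; ring
        simp_rw [e2]
        rw [intervalIntegral.integral_const_mul, hH]
        ring
      · intro kl _
        apply Continuous.intervalIntegrable
        exact (Complex.continuous_ofReal.comp hUc).mul (continuous_const.mul (hccc kl.2))
    have hUcC : Continuous fun t : ℝ => (U t : ℂ) := Complex.continuous_ofReal.comp hUc
    have hbound : ∀ n : ℕ, (2 * Real.pi) * ‖(l : ℂ) ^ n - cprod (mm l) (fun j => υ j * (ρ : ℂ) ^ j) n‖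
        ≤ (2 * Real.pi) * (l ^ n * (1 - (1 - c) / d))
          + ∫ t in (0 : ℝ)..2 * Real.pi, U t / d * ‖(l : ℂ) ^ n - d * kk l (cpt t)⁻¹ n‖ := by
      intro n
      have hdC : (d : ℂ) ≠ 0 := by exact_mod_cast hd.ne'
      have e3 : ((2 * Real.pi : ℝ) : ℂ) * ((l : ℂ) ^ n - cprod (mm l) (fun j => υ j * (ρ : ℂ) ^ j) n)
          = (((2 * Real.pi) * (l ^ n * (1 - (1 - c) / d)) : ℝ) : ℂ)
            + ∫ t in (0 : ℝ)..2 * Real.pi, (U t : ℂ) / d * ((l : ℂ) ^ n - d * kk l (cpt t)⁻¹ n) := by
        have e4 : ∀ t : ℝ, (U t : ℂ) / d * ((l : ℂ) ^ n - d * kk l (cpt t)⁻¹ n)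
            = ((l : ℂ) ^ n / d) * (U t : ℂ) - (U t : ℂ) * kk l (cpt t)⁻¹ n := by
          intro t
          field_simp
        simp_rw [e4]
        rw [intervalIntegral.integral_sub, hk, intervalIntegral.integral_const_mul,
          intervalIntegral.integral_ofReal, hUint]
        · push_cast
          field_simp
          ring
        · exact (continuous_const.mul hUcC).intervalIntegrable _ _
        · exact (hUcC.mul (hkkc n)).intervalIntegrable _ _
      have e5 : (2 * Real.pi) * ‖(l : ℂ) ^ n - cprod (mm l) (fun j => υ j * (ρ : ℂ) ^ j) n‖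
          = ‖((2 * Real.pi : ℝ) : ℂ) * ((l : ℂ) ^ n - cprod (mm l) (fun j => υ j * (ρ : ℂ) ^ j) n)‖ := by
        rw [norm_mul, Complex.norm_real, Real.norm_of_nonneg h2pi.le]
      rw [e5, e3]
      refine (norm_add_le _ _).trans ?_
      apply add_le_add
      · rw [Complex.norm_real, Real.norm_of_nonneg]
        have : (1 - c) / d ≤ 1 := by
          rw [div_le_one hd]; linarith
        have h3 : 0 ≤ l ^ n := pow_nonneg hl0 n
        have h4 : 0 ≤ 1 - (1 - c) / d := by linarith
        positivity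
      · refine (intervalIntegral.norm_integral_le_integral_norm h2pi.le).trans ?_
        apply le_of_eq
        congr 1
        funext t
        rw [norm_mul, norm_div, Complex.norm_real, Complex.norm_real, Real.norm_of_nonneg (hU0 t),
          Real.norm_of_nonneg hd.le]
    have hfin : (2 * Real.pi) * ∑ n ∈ range N, r ^ n *
          ‖(l : ℂ) ^ n - cprod (mm l) (fun j => υ j * (ρ : ℂ) ^ j) n‖ ≤ (2 * Real.pi) * T0 := by
      have hcontn : ∀ n : ℕ, Continuous fun t : ℝ =>
          r ^ n * (U t / d * ‖(l : ℂ) ^ n - d * kk l (cpt t)⁻¹ n‖) := by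
        intro n
        apply Continuous.mul continuous_const
        apply Continuous.mul (hUc.div_const d)
        apply Continuous.norm
        exact continuous_const.sub (continuous_const.mul (hkkc n))
      calc (2 * Real.pi) * ∑ n ∈ range N, r ^ n *
            ‖(l : ℂ) ^ n - cprod (mm l) (fun j => υ j * (ρ : ℂ) ^ j) n‖
          = ∑ n ∈ range N, r ^ n * ((2 * Real.pi) *
            ‖(l : ℂ) ^ n - cprod (mm l) (fun j => υ j * (ρ : ℂ) ^ j) n‖) := by
            rw [Finset.mul_sum]
            apply Finset.sum_congr rfl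
            intro n _
            ring
        _ ≤ ∑ n ∈ range N, r ^ n * ((2 * Real.pi) * (l ^ n * (1 - (1 - c) / d))
          + ∫ t in (0 : ℝ)..2 * Real.pi, U t / d * ‖(l : ℂ) ^ n - d * kk l (cpt t)⁻¹ n‖) := by
            apply Finset.sum_le_sum
            intro n _
            exact mul_le_mul_of_nonneg_left (hbound n) (pow_nonneg hr0 n)
        _ = (2 * Real.pi) * (1 - (1 - c) / d) * ∑ n ∈ range N, (l * r) ^ n
            + ∫ t in (0 : ℝ)..2 * Real.pi, ∑ n ∈ range N,
              r ^ n * (U t / d * ‖(l : ℂ) ^ n - d * kk l (cpt t)⁻¹ n‖) := by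
            rw [intervalIntegral.integral_finsetSum (fun n _ => (hcontn n).intervalIntegrable _ _),
              Finset.mul_sum, ← Finset.sum_add_distrib]
            apply Finset.sum_congr rfl
            intro n _
            rw [intervalIntegral.integral_const_mul, mul_pow]
            ring
        _ ≤ (2 * Real.pi) * (1 - (1 - c) / d) * T0 + ∫ t in (0 : ℝ)..2 * Real.pi, U t / d * T0 := by
            apply add_le_add
            · apply mul_le_mul_of_nonneg_left
              · have hlr0 : 0 ≤ l * r := mul_nonneg hl0 hr0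
                have hlr1 : l * r < 1 := by linarith
                rw [hT0, one_div, ← tsum_geometric_of_lt_one hlr0 hlr1]
                exact (summable_geometric_of_lt_one hlr0 hlr1).sum_le_tsum _
                  (fun n _ => pow_nonneg hlr0 n)
              · have : (1 - c) / d ≤ 1 := by
                  rw [div_le_one hd]; linarith
                have h4 : 0 ≤ 1 - (1 - c) / d := by linarith
                positivity
            · apply intervalIntegral.integral_mono_on h2pi.le
              · apply Continuous.intervalIntegrable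
                apply continuous_finsetSum
                intro n _
                exact hcontn n
              · apply Continuous.intervalIntegrable
                exact (hUc.div_const d).mul continuous_const
              · intro t _
                have hz : ‖(cpt t)⁻¹‖ = 1 := by rw [norm_inv, cpt_norm, inv_one]
                have h5 := hS _ hz N
                have h6 : 0 ≤ U t / d := div_nonneg (hU0 t) hd.le
                calc ∑ n ∈ range N, r ^ n * (U t / d * ‖(l : ℂ) ^ n - d * kk l (cpt t)⁻¹ n‖)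
                    = U t / d * ∑ n ∈ range N, r ^ n * ‖(l : ℂ) ^ n - d * kk l (cpt t)⁻¹ n‖ := by
                      rw [Finset.mul_sum]
                      apply Finset.sum_congr rfl
                      intro n _
                      ring
                  _ ≤ U t / d * T0 := mul_le_mul_of_nonneg_left h5 h6
        _ = (2 * Real.pi) * T0 := by
            rw [intervalIntegral.integral_mul_const]
            have e6 : ∀ t : ℝ, U t / d = (1 / d) * U t := by intro t; ring
            simp_rw [e6]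
            rw [intervalIntegral.integral_const_mul, hUint]
            field_simp
            ring
    exact le_of_mul_le_mul_left hfin h2pi
  -- let `ρ → 1`
  have hfinite : ∀ N : ℕ, ∑ n ∈ range N, ‖g n‖ * r ^ n ≤ T0 := by
    intro N
    have hcont : Tendsto (fun ρ : ℝ => ∑ n ∈ range N, r ^ n *
        ‖(l : ℂ) ^ n - cprod (mm l) (fun j => υ j * (ρ : ℂ) ^ j) n‖) (𝓝[<] 1)
        (𝓝 (∑ n ∈ range N, r ^ n *
        ‖(l : ℂ) ^ n - cprod (mm l) (fun j => υ j * ((1 : ℝ) : ℂ) ^ j) n‖)) := by
      apply tendsto_nhdsWithin_of_tendsto_nhds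
      apply Continuous.tendsto (f := fun ρ : ℝ => ∑ n ∈ range N, r ^ n *
        ‖(l : ℂ) ^ n - cprod (mm l) (fun j => υ j * (ρ : ℂ) ^ j) n‖)
      unfold cprod
      fun_prop
    have hev : ∀ᶠ t : ℝ in 𝓝[<] 1, t ∈ Set.Ioo (0 : ℝ) 1 := Ioo_mem_nhdsLT (by norm_num)
    have hle : ∑ n ∈ range N, r ^ n *
        ‖(l : ℂ) ^ n - cprod (mm l) (fun j => υ j * ((1 : ℝ) : ℂ) ^ j) n‖ ≤ T0 := by
      apply le_of_tendsto hcont
      filter_upwards [hev] with t ht
      exact main N t ht.1.le ht.2
    refine le_trans (le_of_eq ?_) hle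
    apply Finset.sum_congr rfl
    intro n _
    rw [hgid]
    simp [mul_comm]
  apply (hg.summable_norm_mul r hr0 hr1).tsum_le_of_sum_range_le
  exact hfinite

end Pool.Agent.Helper205.Bohr
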