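import Pool.Agent.Helper205.BohrF

set_option autoImplicit false
open Complex Filter Topology Metric MeasureTheory
open Finset (range)

namespace Pool.Agent.Helper205.Bohr

lemma energy {l : ℝ} (hl0 : 0 ≤ l) (hl1 : l < 1) {φ : ℂ → ℂ} (hφ : Schur φ)
    {g : ℕ → ℂ} (hg : PS (Gf l φ) g) (N : ℕ) :
    ∑ n ∈ range N, ‖g n‖ ^ 2 ≤ 1 / (1 - l ^ 2) := by
  have hF : PS (fun z => (1 - (l : ℂ) ^ 2) * (z * Gf l φ z) - l)
      (fun n => (1 - (l : ℂ) ^ 2) * shiftR g n - (if n = 0 then (l : ℂ) else 0)) :=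
    ((hg.zmul).const_mul (1 - (l : ℂ) ^ 2)).sub (ps_const (l : ℂ))
  have hb : ∀ z : ℂ, ‖z‖ < 1 → ‖(1 - (l : ℂ) ^ 2) * (z * Gf l φ z) - l‖ ≤ 1 := by
    intro z hz
    have hd := hφ.den_ne hl0 hl1.le hz
    have hw : ‖z * φ z‖ < 1 := by
      rw [mul_comm]
      exact norm_mul_lt (hφ.2 z hz) hz
    have h1 := moebius_lt hl0 hl1 hw
    have e : (1 - (l : ℂ) ^ 2) * (z * Gf l φ z) - l = -(((l : ℂ) - z * φ z) / (1 - l * (z * φ z))) := by
      simp only [Gf]
      rw [← mul_assoc (l : ℂ) z (φ z), mul_div_assoc', mul_div_assoc', eq_comm, ← neg_div,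
        div_eq_iff hd, sub_mul, div_mul_cancel₀ _ hd]
      ring
    rw [e, norm_neg]
    exact h1.le
  have h2 := bessel hF hb (N + 1)
  rw [Finset.sum_range_succ'] at h2
  simp only [shiftR, Nat.add_eq_zero_iff, one_ne_zero, and_false, if_false, sub_zero, mul_zero,
    if_true, zero_sub, norm_neg, norm_mul, mul_pow] at h2
  have h4 : (1 - (l : ℂ) ^ 2) = ((1 - l ^ 2 : ℝ) : ℂ) := by push_cast; ring
  have hl2 : 0 < 1 - l ^ 2 := by nlinarith
  rw [h4, Complex.norm_real, Complex.norm_real, Real.norm_of_nonneg hl2.le, Real.norm_of_nonneg hl0,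
    ← Finset.mul_sum] at h2
  rw [le_div_iff₀ hl2]
  have h5 : (1 - l ^ 2) * (∑ n ∈ range N, ‖g n‖ ^ 2 * (1 - l ^ 2)) ≤ (1 - l ^ 2) * 1 := by
    rw [← Finset.sum_mul]
    nlinarith
  have h6 := le_of_mul_le_mul_left h5 hl2
  rwa [← Finset.sum_mul] at h6

lemma partA {l r c1 : ℝ} (hl0 : 0 ≤ l) (hl1 : l < 1) (hr0 : 0 < r) (hr1 : r < 1)
    (hc1 : (1 + r ^ 2 / (1 - r ^ 2)) * c1 ≤ 1 / (1 - l * r))
    (hq : r ^ 2 / (1 - r ^ 2) * (1 / (1 - l ^ 2) - c1 ^ 2) ≤ (1 / (1 - l * r) - c1) ^ 2)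
    {φ : ℂ → ℂ} (hφ : Schur φ) (hφ0 : ‖φ 0‖ ≤ c1)
    {g : ℕ → ℂ} (hg : PS (Gf l φ) g) : ∑' n, ‖g n‖ * r ^ n ≤ 1 / (1 - l * r) := by
  set T0 : ℝ := 1 / (1 - l * r) with hT0
  set K2 : ℝ := r ^ 2 / (1 - r ^ 2) with hK2
  set E : ℝ := 1 / (1 - l ^ 2) with hE
  have hr2 : 0 < 1 - r ^ 2 := by nlinarith
  have hK2pos : 0 < K2 := by rw [hK2]; positivity
  have hg0 : g 0 = φ 0 := by
    rw [hg.zero]; simp [Gf]
  set c : ℝ := ‖φ 0‖ with hc
  have hcnn : 0 ≤ c := norm_nonneg _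
  have hcT : c < T0 := by
    have h1 : c1 < T0 := by
      by_cases h : 0 < c1
      · nlinarith
      · have : 0 < T0 := by
          rw [hT0]
          have : 0 < 1 - l * r := by nlinarith
          positivity
        linarith
    linarith
  set t : ℝ := (T0 - c) / K2 with ht
  have htpos : 0 < t := div_pos (by linarith) hK2pos
  have hqc : K2 * (E - c ^ 2) ≤ (T0 - c) ^ 2 := by
    have h1 : 0 ≤ (c1 - c) * (2 * T0 - (1 + K2) * (c + c1)) := by
      apply mul_nonneg (by linarith)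
      nlinarith
    nlinarith
  apply (hg.summable_norm_mul r hr0.le hr1).tsum_le_of_sum_range_le
  intro N
  have hstep : ∑ n ∈ range (N + 1), ‖g n‖ * r ^ n ≤ T0 := by
    rw [Finset.sum_range_succ', pow_zero, mul_one, hg0]
    have hen := energy hl0 hl1 hφ hg (N + 1)
    rw [Finset.sum_range_succ', hg0] at hen
    have h1 : ∑ n ∈ range N, ‖g (n + 1)‖ * r ^ (n + 1)
        ≤ ∑ n ∈ range N, (‖g (n + 1)‖ ^ 2 / (2 * t) + t / 2 * (r ^ 2) ^ (n + 1)) := by
      apply Finset.sum_le_sum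
      intro n _
      have e : ‖g (n + 1)‖ ^ 2 / (2 * t) + t / 2 * (r ^ 2) ^ (n + 1) - ‖g (n + 1)‖ * r ^ (n + 1)
          = (‖g (n + 1)‖ - t * r ^ (n + 1)) ^ 2 / (2 * t) := by
        rw [← pow_mul, mul_comm 2 (n + 1), pow_mul]
        field_simp
        ring
      have h2 : 0 ≤ (‖g (n + 1)‖ - t * r ^ (n + 1)) ^ 2 / (2 * t) := by positivity
      linarith
    have h2 : ∑ n ∈ range N, (‖g (n + 1)‖ ^ 2 / (2 * t) + t / 2 * (r ^ 2) ^ (n + 1))
        ≤ (E - c ^ 2) / (2 * t) + t / 2 * K2 := by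
      rw [Finset.sum_add_distrib, ← Finset.sum_div, ← Finset.mul_sum]
      apply add_le_add
      · apply div_le_div_of_nonneg_right _ (by positivity)
        linarith
      · apply mul_le_mul_of_nonneg_left _ (by positivity)
        have hs := summable_geometric_of_lt_one (sq_nonneg r) (by nlinarith : r ^ 2 < 1)
        have hs2 : HasSum (fun n : ℕ => (r ^ 2) ^ (n + 1)) K2 := by
          have h3 := (hasSum_geometric_of_lt_one (sq_nonneg r) (by nlinarith : r ^ 2 < 1)).mul_left (r ^ 2)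
          have e2 : (fun n : ℕ => (r ^ 2) ^ (n + 1)) = fun n : ℕ => r ^ 2 * (r ^ 2) ^ n := by
            funext n; ring
          rw [e2, hK2, div_eq_mul_inv]
          exact h3
        exact sum_le_hasSum _ (fun n _ => by positivity) hs2
    have h3 : (E - c ^ 2) / (2 * t) + t / 2 * K2 ≤ T0 - c := by
      have e3 : t * K2 = T0 - c := by
        rw [ht]; field_simp
      have h4 : (E - c ^ 2) / (2 * t) ≤ (T0 - c) / 2 := by
        rw [div_le_div_iff₀ (by positivity) (by norm_num)]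
        have h5 : K2 * (E - c ^ 2) ≤ K2 * ((T0 - c) * t) := by
          calc K2 * (E - c ^ 2) ≤ (T0 - c) ^ 2 := hqc
            _ = K2 * ((T0 - c) * t) := by rw [← e3]; ring
        have h6 := le_of_mul_le_mul_left h5 hK2pos
        linarith
      linarith
    linarith
  refine le_trans ?_ hstep
  rw [Finset.sum_range_succ]
  have : 0 ≤ ‖g N‖ * r ^ N := by positivity
  linarith

lemma P_of_star {l r d : ℝ} (hl0 : 0 ≤ l) (hl1 : l < 1) (hr0 : 0 < r) (hr1 : r < 1) (hd : 0 < d)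
    (hc1 : (1 + r ^ 2 / (1 - r ^ 2)) * (1 - d) ≤ 1 / (1 - l * r))
    (hq : r ^ 2 / (1 - r ^ 2) * (1 / (1 - l ^ 2) - (1 - d) ^ 2) ≤ (1 / (1 - l * r) - (1 - d)) ^ 2)
    (hS : Star l r d) : P l r := by
  intro φ hφ g hg
  by_cases hcase : ‖φ 0‖ ≤ 1 - d
  · exact partA hl0 hl1 hr0 hr1 hc1 hq hφ hcase hg
  · push Not at hcase
    -- rotate
    obtain ⟨η, hη, hηφ⟩ : ∃ η : ℂ, ‖η‖ = 1 ∧ η * φ 0 = (‖φ 0‖ : ℂ) := by
      by_cases h0 : φ 0 = 0
      · exact ⟨1, by simp, by simp [h0]⟩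
      · refine ⟨(starRingEnd ℂ) (φ 0) / (‖φ 0‖ : ℂ), ?_, ?_⟩
        · rw [norm_div, Complex.norm_conj, Complex.norm_real, norm_norm, div_self]
          exact norm_ne_zero_iff.mpr h0
        · have h1 : (‖φ 0‖ : ℂ) ≠ 0 := by exact_mod_cast norm_ne_zero_iff.mpr h0
          rw [div_mul_eq_mul_div, div_eq_iff h1, Complex.conj_mul', sq]
    set ψ : ℂ → ℂ := fun z => η * φ (η * z) with hψ
    have hψS : Schur ψ := by
      refine ⟨?_, ?_⟩
      · have h1 : DifferentiableOn ℂ (fun z : ℂ => η * z) (ball 0 1) := by fun_prop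
        have h2 : DifferentiableOn ℂ (fun z : ℂ => φ (η * z)) (ball 0 1) := by
          apply hφ.1.comp h1
          intro z hz
          have := norm_mul_lt hη.le (by simpa using hz : ‖z‖ < 1)
          simpa using this
        exact h2.const_mul η
      · intro z hz
        rw [hψ]
        simp only
        rw [norm_mul, hη, one_mul]
        exact hφ.2 _ (norm_mul_lt hη.le hz)
    have hψ0 : ψ 0 = ((‖φ 0‖ : ℝ) : ℂ) := by
      rw [hψ]; simp [hηφ]
    have hψg : PS (Gf l ψ) (fun n => η * (g n * η ^ n)) := by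
      refine ((hg.scale η hη.le).const_mul η).congr ?_
      intro z hz
      simp only [Gf, hψ]
      rw [mul_div_assoc']
      congr 1
      ring
    have h3 := partB hS hl0 hl1 hr0.le hr1 hd hψS hψ0
      (hφ.2 0 (by simp)) hcase.le hψg
    simpa [norm_mul, hη] using h3

end Pool.Agent.Helper205.Bohr
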