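import Pool.Agent.Helper205.BohrG

set_option autoImplicit false
open Complex Filter Topology Metric MeasureTheory
open Finset (range)

namespace Pool.Agent.Helper205.Bohr


/-- the mixture bound between two masses -/
lemma mix {l c d1 d2 V : ℝ} {N : ℕ} {a : ℕ → ℝ} (ha : ∀ n, n < N → 0 ≤ a n)
    (hS1 : ∀ ζ : ℂ, ‖ζ‖ = 1 → ∑ n ∈ range N, a n * ‖(l : ℂ) ^ n - d1 * kk l ζ n‖ ≤ V)
    (hS2 : ∀ ζ : ℂ, ‖ζ‖ = 1 → ∑ n ∈ range N, a n * ‖(l : ℂ) ^ n - d2 * kk l ζ n‖ ≤ V)
    (hl0 : 0 ≤ l) (hl1 : l < 1) (hd1 : 0 < d1) (hd12 : d1 < d2)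
    {φ : ℂ → ℂ} (hφ : Schur φ) (hc : φ 0 = (c : ℂ)) (hc1 : c ≤ 1 - d1) (hc2 : 1 - d2 ≤ c)
    {g : ℕ → ℂ} (hg : PS (Gf l φ) g) : ∑ n ∈ range N, a n * ‖g n‖ ≤ V := by
  have hln : ‖(l : ℂ)‖ ≤ 1 := by
    rw [Complex.norm_real, Real.norm_of_nonneg hl0]; exact hl1.le
  set Υ : ℂ → ℂ := fun z => (1 - l * z) * (1 - φ z) / (1 - l * z * φ z) with hΥ
  have hΥd : DifferentiableOn ℂ Υ (ball 0 1) := by
    have h1 := hφ.1
    apply DifferentiableOn.div
    · fun_prop
    · fun_prop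
    · intro z hz
      exact hφ.den_ne hl0 hl1.le (by simpa using hz)
  have hυ := ps_coeff hΥd
  set υ := coeff Υ with hυdef
  have hυ0 : υ 0 = ((1 - c : ℝ) : ℂ) := by
    rw [hυ.zero, hΥ]
    simp [hc]
  have hΥre : ∀ z : ℂ, ‖z‖ < 1 → 0 ≤ (Υ z).re := by
    intro z hz
    exact ups_re (norm_mul_lt hln hz) (hφ.2 z hz)
  have hgid : g = fun n => (l : ℂ) ^ n - cprod (mm l) υ n := by
    apply hg.unique
    refine ((ps_geom (l : ℂ) hln).sub ((ps_mm hl0 hl1.le).mul hυ)).congr ?_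
    intro z hz
    have hd0 := hφ.den_ne hl0 hl1.le hz
    have hd1 : (1 : ℂ) - l * z ≠ 0 := one_sub_ne (norm_mul_lt hln hz)
    simp only [Gf, hΥ]
    rw [div_mul_div_comm, div_mul_div_comm, div_sub_div _ _ hd1 (mul_ne_zero (mul_ne_zero hd1 hd1) hd0),
      div_eq_div_iff (mul_ne_zero hd1 (mul_ne_zero (mul_ne_zero hd1 hd1) hd0)) hd0]
    ring
  have h2pi : (0 : ℝ) < 2 * Real.pi := by positivity
  set δ : ℝ := 1 - c with hδ
  have hδ0 : 0 < δ := by rw [hδ]; linarith
  have hdd : 0 < d2 - d1 := by linarith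
  set A : ℝ := (d2 - δ) / (δ * (d2 - d1)) with hA
  set B' : ℝ := (δ - d1) / (δ * (d2 - d1)) with hB
  have hA0 : 0 ≤ A := by
    apply div_nonneg _ (by positivity)
    rw [hδ]; linarith
  have hB0 : 0 ≤ B' := by
    apply div_nonneg _ (by positivity)
    rw [hδ]; linarith
  have hAB : (A + B') * δ = 1 := by
    rw [hA, hB]; field_simp; ring
  have hABd : A * d1 + B' * d2 = 1 := by
    rw [hA, hB]; field_simp; ring
  -- the main inequality for each `ρ < 1`
  have main : ∀ ρ : ℝ, 0 ≤ ρ → ρ < 1 →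
      ∑ n ∈ range N, a n * ‖(l : ℂ) ^ n - cprod (mm l) (fun j => υ j * (ρ : ℂ) ^ j) n‖ ≤ V := by
    intro ρ h0 h1
    set U : ℝ → ℝ := fun t => (Υ (ρ * cpt t)).re with hU
    have hΥc := circ_cont hυ h0 h1
    have hUc : Continuous U := Complex.continuous_re.comp hΥc
    have hU0 : ∀ t, 0 ≤ U t := by
      intro t
      apply hΥre
      rw [norm_mul, cpt_norm, Complex.norm_real, Real.norm_of_nonneg h0, mul_one]
      exact h1
    have hH : ∀ j : ℕ, ∫ t in (0 : ℝ)..2 * Real.pi, (U t : ℂ) * cc (cpt t)⁻¹ j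
        = υ j * (ρ : ℂ) ^ j * ((2 * Real.pi : ℝ) : ℂ) := by
      intro j
      exact herglotz hυ (by rw [hυ0]; exact Complex.ofReal_im _) h0 h1 j
    have hcinv : Continuous fun t : ℝ => (cpt t)⁻¹ := by
      apply Continuous.inv₀ cpt_cont
      intro t h
      have := cpt_norm t
      rw [h] at this
      simp at this
    have hccc : ∀ j : ℕ, Continuous fun t : ℝ => cc (cpt t)⁻¹ j := by
      intro j
      unfold cc
      split_ifs
      · exact continuous_const
      · exact continuous_const.mul (hcinv.pow j)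
    have hkkc : ∀ n : ℕ, Continuous fun t : ℝ => kk l (cpt t)⁻¹ n := by
      intro n
      unfold kk cprod
      apply continuous_finsetSum
      intro kl _
      exact continuous_const.mul (hccc kl.2)
    have hUint : ∫ t in (0 : ℝ)..2 * Real.pi, U t = δ * (2 * Real.pi) := by
      have h2 := hH 0
      have e1 : ∀ t : ℝ, (U t : ℂ) * cc (cpt t)⁻¹ 0 = (U t : ℂ) := by
        intro t; simp [cc]
      simp_rw [e1] at h2
      rw [intervalIntegral.integral_ofReal, hυ0, pow_zero, mul_one, ← Complex.ofReal_mul] at h2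
      exact_mod_cast h2
    have hk : ∀ n : ℕ, ∫ t in (0 : ℝ)..2 * Real.pi, (U t : ℂ) * kk l (cpt t)⁻¹ n
        = cprod (mm l) (fun j => υ j * (ρ : ℂ) ^ j) n * ((2 * Real.pi : ℝ) : ℂ) := by
      intro n
      unfold kk cprod
      simp_rw [Finset.mul_sum]
      rw [intervalIntegral.integral_finsetSum]
      · rw [Finset.sum_mul]
        apply Finset.sum_congr rfl
        intro kl _
        have e2 : ∀ t : ℝ, (U t : ℂ) * (mm l kl.1 * cc (cpt t)⁻¹ kl.2)
            = mm l kl.1 * ((U t : ℂ) * cc (cpt t)⁻¹ kl.2) := by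
          intro t; ring
        simp_rw [e2]
        rw [intervalIntegral.integral_const_mul, hH]
        ring
      · intro kl _
        apply Continuous.intervalIntegrable
        exact (Complex.continuous_ofReal.comp hUc).mul (continuous_const.mul (hccc kl.2))
    have hUcC : Continuous fun t : ℝ => (U t : ℂ) := Complex.continuous_ofReal.comp hUc
    have hbound : ∀ n : ℕ, (2 * Real.pi) * ‖(l : ℂ) ^ n - cprod (mm l) (fun j => υ j * (ρ : ℂ) ^ j) n‖
        ≤ ∫ t in (0 : ℝ)..2 * Real.pi, U t * (A * ‖(l : ℂ) ^ n - d1 * kk l (cpt t)⁻¹ n‖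
            + B' * ‖(l : ℂ) ^ n - d2 * kk l (cpt t)⁻¹ n‖) := by
      intro n
      have e3 : ((2 * Real.pi : ℝ) : ℂ) * ((l : ℂ) ^ n - cprod (mm l) (fun j => υ j * (ρ : ℂ) ^ j) n)
          = ∫ t in (0 : ℝ)..2 * Real.pi, (U t : ℂ) * (A * ((l : ℂ) ^ n - d1 * kk l (cpt t)⁻¹ n)
            + B' * ((l : ℂ) ^ n - d2 * kk l (cpt t)⁻¹ n)) := by
        have hABc : ((A : ℂ) + B') * δ = 1 := by exact_mod_cast hAB
        have hABdc : (A : ℂ) * d1 + B' * d2 = 1 := by exact_mod_cast hABd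
        have e4 : ∀ t : ℝ, (U t : ℂ) * (A * ((l : ℂ) ^ n - d1 * kk l (cpt t)⁻¹ n)
            + B' * ((l : ℂ) ^ n - d2 * kk l (cpt t)⁻¹ n))
            = (((A : ℂ) + B') * (l : ℂ) ^ n) * (U t : ℂ) - (U t : ℂ) * kk l (cpt t)⁻¹ n := by
          intro t
          linear_combination (-(U t : ℂ) * kk l (cpt t)⁻¹ n) * hABdc
        simp_rw [e4]
        rw [intervalIntegral.integral_sub, hk, intervalIntegral.integral_const_mul,
          intervalIntegral.integral_ofReal, hUint]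
        · push_cast
          linear_combination (-(2 * (Real.pi : ℂ)) * (l : ℂ) ^ n) * hABc
        · exact (continuous_const.mul hUcC).intervalIntegrable _ _
        · exact (hUcC.mul (hkkc n)).intervalIntegrable _ _
      have e5 : (2 * Real.pi) * ‖(l : ℂ) ^ n - cprod (mm l) (fun j => υ j * (ρ : ℂ) ^ j) n‖
          = ‖((2 * Real.pi : ℝ) : ℂ) * ((l : ℂ) ^ n - cprod (mm l) (fun j => υ j * (ρ : ℂ) ^ j) n)‖ := by
        rw [norm_mul, Complex.norm_real, Real.norm_of_nonneg h2pi.le]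
      rw [e5, e3]
      refine (intervalIntegral.norm_integral_le_integral_norm h2pi.le).trans ?_
      apply intervalIntegral.integral_mono_on h2pi.le
      · apply Continuous.intervalIntegrable
        apply Continuous.norm
        apply hUcC.mul
        exact (continuous_const.mul (continuous_const.sub (continuous_const.mul (hkkc n)))).add
          (continuous_const.mul (continuous_const.sub (continuous_const.mul (hkkc n))))
      · apply Continuous.intervalIntegrable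
        apply hUc.mul
        exact (continuous_const.mul (continuous_const.sub (continuous_const.mul (hkkc n))).norm).add
          (continuous_const.mul (continuous_const.sub (continuous_const.mul (hkkc n))).norm)
      · intro t _
        rw [norm_mul, Complex.norm_real, Real.norm_of_nonneg (hU0 t)]
        apply mul_le_mul_of_nonneg_left _ (hU0 t)
        refine (norm_add_le _ _).trans ?_
        rw [norm_mul, norm_mul, Complex.norm_real, Complex.norm_real, Real.norm_of_nonneg hA0,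
          Real.norm_of_nonneg hB0]
    have hfin : (2 * Real.pi) * ∑ n ∈ range N, a n *
          ‖(l : ℂ) ^ n - cprod (mm l) (fun j => υ j * (ρ : ℂ) ^ j) n‖ ≤ (2 * Real.pi) * V := by
      have hcontn : ∀ n : ℕ, Continuous fun t : ℝ =>
          a n * (U t * (A * ‖(l : ℂ) ^ n - d1 * kk l (cpt t)⁻¹ n‖
            + B' * ‖(l : ℂ) ^ n - d2 * kk l (cpt t)⁻¹ n‖)) := by
        intro n
        apply Continuous.mul continuous_const
        apply hUc.mul
        exact (continuous_const.mul (continuous_const.sub (continuous_const.mul (hkkc n))).norm).add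
          (continuous_const.mul (continuous_const.sub (continuous_const.mul (hkkc n))).norm)
      calc (2 * Real.pi) * ∑ n ∈ range N, a n *
            ‖(l : ℂ) ^ n - cprod (mm l) (fun j => υ j * (ρ : ℂ) ^ j) n‖
          = ∑ n ∈ range N, a n * ((2 * Real.pi) *
            ‖(l : ℂ) ^ n - cprod (mm l) (fun j => υ j * (ρ : ℂ) ^ j) n‖) := by
            rw [Finset.mul_sum]
            apply Finset.sum_congr rfl
            intro n _
            ring
        _ ≤ ∑ n ∈ range N, a n * (∫ t in (0 : ℝ)..2 * Real.pi, U t *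
            (A * ‖(l : ℂ) ^ n - d1 * kk l (cpt t)⁻¹ n‖
            + B' * ‖(l : ℂ) ^ n - d2 * kk l (cpt t)⁻¹ n‖)) := by
            apply Finset.sum_le_sum
            intro n hn
            exact mul_le_mul_of_nonneg_left (hbound n) (ha n (Finset.mem_range.mp hn))
        _ = ∫ t in (0 : ℝ)..2 * Real.pi, ∑ n ∈ range N,
              a n * (U t * (A * ‖(l : ℂ) ^ n - d1 * kk l (cpt t)⁻¹ n‖
            + B' * ‖(l : ℂ) ^ n - d2 * kk l (cpt t)⁻¹ n‖)) := by
            rw [intervalIntegral.integral_finsetSum (fun n _ => (hcontn n).intervalIntegrable _ _)]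
            apply Finset.sum_congr rfl
            intro n _
            rw [intervalIntegral.integral_const_mul]
        _ ≤ ∫ t in (0 : ℝ)..2 * Real.pi, U t * ((A + B') * V) := by
            apply intervalIntegral.integral_mono_on h2pi.le
            · apply Continuous.intervalIntegrable
              apply continuous_finsetSum
              intro n _
              exact hcontn n
            · apply Continuous.intervalIntegrable
              exact hUc.mul continuous_const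
            · intro t _
              have hz : ‖(cpt t)⁻¹‖ = 1 := by rw [norm_inv, cpt_norm, inv_one]
              have h5 := hS1 _ hz
              have h6 := hS2 _ hz
              calc ∑ n ∈ range N, a n * (U t * (A * ‖(l : ℂ) ^ n - d1 * kk l (cpt t)⁻¹ n‖
                    + B' * ‖(l : ℂ) ^ n - d2 * kk l (cpt t)⁻¹ n‖))
                  = U t * (A * ∑ n ∈ range N, a n * ‖(l : ℂ) ^ n - d1 * kk l (cpt t)⁻¹ n‖
                    + B' * ∑ n ∈ range N, a n * ‖(l : ℂ) ^ n - d2 * kk l (cpt t)⁻¹ n‖) := by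
                    rw [Finset.mul_sum, Finset.mul_sum, ← Finset.sum_add_distrib, Finset.mul_sum]
                    apply Finset.sum_congr rfl
                    intro n _
                    ring
                _ ≤ U t * ((A + B') * V) := by
                    apply mul_le_mul_of_nonneg_left _ (hU0 t)
                    have h7 := mul_le_mul_of_nonneg_left h5 hA0
                    have h8 := mul_le_mul_of_nonneg_left h6 hB0
                    linarith
        _ = (2 * Real.pi) * V := by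
            rw [intervalIntegral.integral_mul_const, hUint]
            linear_combination (2 * Real.pi * V) * hAB
    exact le_of_mul_le_mul_left hfin h2pi
  -- let `ρ → 1`
  have hcont : Tendsto (fun ρ : ℝ => ∑ n ∈ range N, a n *
      ‖(l : ℂ) ^ n - cprod (mm l) (fun j => υ j * (ρ : ℂ) ^ j) n‖) (𝓝[<] 1)
      (𝓝 (∑ n ∈ range N, a n *
      ‖(l : ℂ) ^ n - cprod (mm l) (fun j => υ j * ((1 : ℝ) : ℂ) ^ j) n‖)) := by
    apply tendsto_nhdsWithin_of_tendsto_nhds
    apply Continuous.tendsto (f := fun ρ : ℝ => ∑ n ∈ range N, a n *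
      ‖(l : ℂ) ^ n - cprod (mm l) (fun j => υ j * (ρ : ℂ) ^ j) n‖)
    unfold cprod
    fun_prop
  have hev : ∀ᶠ t : ℝ in 𝓝[<] 1, t ∈ Set.Ioo (0 : ℝ) 1 := Ioo_mem_nhdsLT (by norm_num)
  have hle : ∑ n ∈ range N, a n *
      ‖(l : ℂ) ^ n - cprod (mm l) (fun j => υ j * ((1 : ℝ) : ℂ) ^ j) n‖ ≤ V := by
    apply le_of_tendsto hcont
    filter_upwards [hev] with t ht
    exact main t ht.1.le ht.2
  refine le_trans (le_of_eq ?_) hle
  apply Finset.sum_congr rfl
  intro n _
  rw [hgid]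
  simp

/-- the mixture bound combined with the energy bound -/
lemma partM {l r c d1 d2 τ : ℝ} {N : ℕ} {x : ℕ → ℝ} (hτ : 0 < τ)
    (hx : ∀ n, n < N → τ * x n ≤ r ^ n)
    (hS1 : ∀ ζ : ℂ, ‖ζ‖ = 1 → ∑ n ∈ range N, (r ^ n - τ * x n) * ‖(l : ℂ) ^ n - d1 * kk l ζ n‖
      + (τ / 2 * ∑ n ∈ range N, x n ^ 2 + (r ^ 2) ^ N / (1 - r ^ 2) / (2 * τ) + τ / 2 / (1 - l ^ 2))
      ≤ 1 / (1 - l * r))
    (hS2 : ∀ ζ : ℂ, ‖ζ‖ = 1 → ∑ n ∈ range N, (r ^ n - τ * x n) * ‖(l : ℂ) ^ n - d2 * kk l ζ n‖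
      + (τ / 2 * ∑ n ∈ range N, x n ^ 2 + (r ^ 2) ^ N / (1 - r ^ 2) / (2 * τ) + τ / 2 / (1 - l ^ 2))
      ≤ 1 / (1 - l * r))
    (hl0 : 0 ≤ l) (hl1 : l < 1) (hr0 : 0 < r) (hr1 : r < 1) (hd1 : 0 < d1) (hd12 : d1 < d2)
    {φ : ℂ → ℂ} (hφ : Schur φ) (hc : φ 0 = (c : ℂ)) (hc1 : c ≤ 1 - d1) (hc2 : 1 - d2 ≤ c)
    {g : ℕ → ℂ} (hg : PS (Gf l φ) g) : ∑' n, ‖g n‖ * r ^ n ≤ 1 / (1 - l * r) := by
  set T0 : ℝ := 1 / (1 - l * r) with hT0
  set K : ℝ := τ / 2 * ∑ n ∈ range N, x n ^ 2 + (r ^ 2) ^ N / (1 - r ^ 2) / (2 * τ) + τ / 2 / (1 - l ^ 2)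
    with hK
  have hmix := mix (l := l) (c := c) (d1 := d1) (d2 := d2) (V := T0 - K) (N := N)
    (a := fun n => r ^ n - τ * x n) (fun n hn => sub_nonneg.mpr (hx n hn))
    (fun ζ hζ => by have := hS1 ζ hζ; linarith)
    (fun ζ hζ => by have := hS2 ζ hζ; linarith) hl0 hl1 hd1 hd12 hφ hc hc1 hc2 hg
  have hr2 : 0 < 1 - r ^ 2 := by nlinarith
  apply (hg.summable_norm_mul r hr0.le hr1).tsum_le_of_sum_range_le
  intro M
  have hmono : ∑ n ∈ range M, ‖g n‖ * r ^ n ≤ ∑ n ∈ range (N + M), ‖g n‖ * r ^ n := by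
    apply Finset.sum_le_sum_of_subset_of_nonneg
    · intro i hi
      rw [Finset.mem_range] at hi ⊢
      omega
    · intro i _ _
      positivity
  refine hmono.trans ?_
  rw [Finset.sum_range_add]
  have hen := energy hl0 hl1 hφ hg (N + M)
  rw [Finset.sum_range_add] at hen
  -- the first block
  have hA : ∑ n ∈ range N, ‖g n‖ * r ^ n
      ≤ ∑ n ∈ range N, (r ^ n - τ * x n) * ‖g n‖ + τ / 2 * ∑ n ∈ range N, ‖g n‖ ^ 2
        + τ / 2 * ∑ n ∈ range N, x n ^ 2 := by
    rw [Finset.mul_sum, Finset.mul_sum, ← Finset.sum_add_distrib, ← Finset.sum_add_distrib]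
    apply Finset.sum_le_sum
    intro n _
    nlinarith [mul_nonneg hτ.le (sq_nonneg (‖g n‖ - x n))]
  -- the tail block
  have hB : ∑ n ∈ range M, ‖g (N + n)‖ * r ^ (N + n)
      ≤ τ / 2 * ∑ n ∈ range M, ‖g (N + n)‖ ^ 2 + (r ^ 2) ^ N / (1 - r ^ 2) / (2 * τ) := by
    have h1 : ∑ n ∈ range M, ‖g (N + n)‖ * r ^ (N + n)
        ≤ ∑ n ∈ range M, (τ / 2 * ‖g (N + n)‖ ^ 2 + (r ^ 2) ^ N / (2 * τ) * (r ^ 2) ^ n) := by
      apply Finset.sum_le_sum
      intro n _
      have e : τ / 2 * ‖g (N + n)‖ ^ 2 + (r ^ 2) ^ N / (2 * τ) * (r ^ 2) ^ n - ‖g (N + n)‖ * r ^ (N + n)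
          = (τ * ‖g (N + n)‖ - r ^ (N + n)) ^ 2 / (2 * τ) := by
        have e' : (r ^ 2) ^ N * (r ^ 2) ^ n = (r ^ (N + n)) ^ 2 := by
          rw [← pow_add, ← pow_mul, ← pow_mul, mul_comm]
        have e'' : (r ^ 2) ^ N / (2 * τ) * (r ^ 2) ^ n = (r ^ (N + n)) ^ 2 / (2 * τ) := by
          rw [← e']; ring
        rw [e'']
        field_simp
        ring
      have h2 : 0 ≤ (τ * ‖g (N + n)‖ - r ^ (N + n)) ^ 2 / (2 * τ) := by positivity
      linarith
    refine h1.trans ?_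
    rw [Finset.sum_add_distrib, ← Finset.mul_sum, ← Finset.mul_sum]
    have h3 : ∑ n ∈ range M, (r ^ 2) ^ n ≤ (1 - r ^ 2)⁻¹ :=
      sum_le_hasSum _ (fun n _ => by positivity)
        (hasSum_geometric_of_lt_one (sq_nonneg r) (by nlinarith : r ^ 2 < 1))
    have h4 : (r ^ 2) ^ N / (2 * τ) * ∑ n ∈ range M, (r ^ 2) ^ n
        ≤ (r ^ 2) ^ N / (2 * τ) * (1 - r ^ 2)⁻¹ := mul_le_mul_of_nonneg_left h3 (by positivity)
    have h5 : (r ^ 2) ^ N / (2 * τ) * (1 - r ^ 2)⁻¹ = (r ^ 2) ^ N / (1 - r ^ 2) / (2 * τ) := by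
      field_simp
    linarith
  have hC : τ / 2 * (∑ n ∈ range N, ‖g n‖ ^ 2 + ∑ n ∈ range M, ‖g (N + n)‖ ^ 2) ≤ τ / 2 / (1 - l ^ 2) := by
    have := mul_le_mul_of_nonneg_left hen (by positivity : 0 ≤ τ / 2)
    calc _ ≤ τ / 2 * (1 / (1 - l ^ 2)) := this
      _ = _ := by ring
  rw [mul_add] at hC
  linarith

end Pool.Agent.Helper205.Bohr
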