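import Pool.Agent.Helper205.BohrH

set_option autoImplicit false
open Complex Filter Topology Metric MeasureTheory
open Finset (range)

namespace Pool.Agent.Helper205.Bohr

/-- state of the recursion: `ζ^n = T + i y U`, `∑ l^i c_j = la + i y lb`, `kk = ka + i y kb` -/
structure St where
  T : ℝ
  U : ℝ
  la : ℝ
  lb : ℝ
  ka : ℝ
  kb : ℝ

noncomputable def stp (l x : ℝ) : ℕ → St
  | 0 => ⟨1, 0, 1, 0, 1, 0⟩
  | n + 1 =>
    let s := stp l x n
    let T' := x * s.T - (1 - x ^ 2) * s.U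
    let U' := s.T + x * s.U
    let la' := l * s.la + 2 * T'
    let lb' := l * s.lb + 2 * U'
    ⟨T', U', la', lb', l * s.ka + la', l * s.kb + lb'⟩

noncomputable def ll (l : ℝ) (ζ : ℂ) (n : ℕ) : ℂ := cprod (fun i => (l : ℂ) ^ i) (cc ζ) n

lemma ll_succ (l : ℝ) (ζ : ℂ) (n : ℕ) : ll l ζ (n + 1) = l * ll l ζ n + 2 * ζ ^ (n + 1) := by
  unfold ll cprod
  rw [Finset.Nat.sum_antidiagonal_succ, Finset.mul_sum, add_comm]
  congr 1
  · apply Finset.sum_congr rfl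
    intro kl _
    ring
  · simp [cc]

lemma kk_succ (l : ℝ) (ζ : ℂ) (n : ℕ) : kk l ζ (n + 1) = l * kk l ζ n + ll l ζ (n + 1) := by
  unfold kk ll cprod
  rw [Finset.Nat.sum_antidiagonal_succ, Finset.Nat.sum_antidiagonal_succ, Finset.mul_sum,
    add_left_comm, ← Finset.sum_add_distrib]
  congr 1
  · simp [mm]
  · apply Finset.sum_congr rfl
    intro kl _
    simp only [mm]
    push_cast
    ring

lemma ll_zero (l : ℝ) (ζ : ℂ) : ll l ζ 0 = 1 := by simp [ll, cprod, cc]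

lemma kk_zero (l : ℝ) (ζ : ℂ) : kk l ζ 0 = 1 := by simp [kk, cprod, cc, mm]

lemma stp_spec (l : ℝ) (ζ : ℂ) (hζ : ‖ζ‖ = 1) (n : ℕ) :
    ζ ^ n = ((stp l ζ.re n).T : ℂ) + ζ.im * ((stp l ζ.re n).U : ℂ) * I ∧
    ll l ζ n = ((stp l ζ.re n).la : ℂ) + ζ.im * ((stp l ζ.re n).lb : ℂ) * I ∧
    kk l ζ n = ((stp l ζ.re n).ka : ℂ) + ζ.im * ((stp l ζ.re n).kb : ℂ) * I := by
  have hxy : ζ.im ^ 2 = 1 - ζ.re ^ 2 := by
    have := Complex.normSq_eq_norm_sq ζ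
    rw [hζ, Complex.normSq_apply] at this
    linarith
  have hζ' : ζ = (ζ.re : ℂ) + ζ.im * I := (Complex.re_add_im ζ).symm
  have hI : (I : ℂ) ^ 2 = -1 := Complex.I_sq
  have hxyc : (ζ.im : ℂ) ^ 2 = 1 - (ζ.re : ℂ) ^ 2 := by exact_mod_cast hxy
  induction n with
  | zero => simp [stp, ll_zero, kk_zero]
  | succ n ih =>
    obtain ⟨h1, h2, h3⟩ := ih
    have e1 : ζ ^ (n + 1) = ((stp l ζ.re (n + 1)).T : ℂ) + ζ.im * ((stp l ζ.re (n + 1)).U : ℂ) * I := by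
      rw [pow_succ, h1]
      simp only [stp]
      push_cast
      generalize (stp l ζ.re n).T = T
      generalize (stp l ζ.re n).U = U
      calc ((T : ℂ) + ζ.im * U * I) * ζ = ((T : ℂ) + ζ.im * U * I) * ((ζ.re : ℂ) + ζ.im * I) := by
            rw [← hζ']
        _ = _ := by linear_combination ((ζ.im : ℂ) ^ 2 * U) * hI - (U : ℂ) * hxyc
    have e2 : ll l ζ (n + 1) = ((stp l ζ.re (n + 1)).la : ℂ) + ζ.im * ((stp l ζ.re (n + 1)).lb : ℂ) * I := by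
      rw [ll_succ, h2, e1]
      simp only [stp]
      push_cast
      ring
    refine ⟨e1, e2, ?_⟩
    rw [kk_succ, h3, e2]
    simp only [stp]
    push_cast
    ring

lemma w_normsq (l d : ℝ) (ζ : ℂ) (hζ : ‖ζ‖ = 1) (n : ℕ) :
    ‖(l : ℂ) ^ n - d * kk l ζ n‖ ^ 2
      = (l ^ n - d * (stp l ζ.re n).ka) ^ 2 + (1 - ζ.re ^ 2) * (d * (stp l ζ.re n).kb) ^ 2 := by
  have hxy : ζ.im ^ 2 = 1 - ζ.re ^ 2 := by
    have := Complex.normSq_eq_norm_sq ζ
    rw [hζ, Complex.normSq_apply] at this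
    linarith
  rw [← hxy]
  have h3 := (stp_spec l ζ hζ n).2.2
  rw [h3]
  generalize (stp l ζ.re n).ka = a
  generalize (stp l ζ.re n).kb = b
  have e : (l : ℂ) ^ n - d * ((a : ℂ) + ζ.im * b * I) = ((l ^ n - d * a : ℝ) : ℂ) + ((-(ζ.im * (d * b)) : ℝ) : ℂ) * I := by
    push_cast
    ring
  rw [e, ← Complex.normSq_eq_norm_sq, Complex.normSq_add_mul_I]
  ring

lemma re_bd {ζ : ℂ} (hζ : ‖ζ‖ = 1) : -1 ≤ ζ.re ∧ ζ.re ≤ 1 := by
  have := Complex.abs_re_le_norm ζ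
  rw [hζ] at this
  exact abs_le.mp this

lemma tb {s Q : ℝ} (t : ℝ) (ht : 0 < t) (h : s ^ 2 = Q) : s ≤ (Q / t + t) / 2 := by
  rw [← h]
  have : (s ^ 2 / t + t) / 2 - s = (s - t) ^ 2 / (2 * t) := by field_simp; ring
  have h2 : 0 ≤ (s - t) ^ 2 / (2 * t) := by positivity
  linarith

lemma kk_bound {l : ℝ} (hl0 : 0 ≤ l) (hl1 : l < 1) {ζ : ℂ} (hζ : ‖ζ‖ = 1) (n : ℕ) :
    ‖kk l ζ n‖ ≤ 2 / (1 - l) ^ 2 := by
  have hl : 0 < 1 - l := by linarith
  have hll : ∀ n, ‖ll l ζ n‖ ≤ 2 / (1 - l) := by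
    intro n
    induction n with
    | zero =>
      rw [ll_zero, norm_one, le_div_iff₀ hl]
      linarith
    | succ n ih =>
      rw [ll_succ]
      calc ‖(l : ℂ) * ll l ζ n + 2 * ζ ^ (n + 1)‖ ≤ ‖(l : ℂ) * ll l ζ n‖ + ‖2 * ζ ^ (n + 1)‖ := norm_add_le _ _
        _ = l * ‖ll l ζ n‖ + 2 := by
            rw [norm_mul, norm_mul, norm_pow, hζ, Complex.norm_real, Real.norm_of_nonneg hl0]
            simp
        _ ≤ l * (2 / (1 - l)) + 2 := by
            have := mul_le_mul_of_nonneg_left ih hl0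
            linarith
        _ = 2 / (1 - l) := by field_simp; ring
  induction n with
  | zero =>
    rw [kk_zero, norm_one, le_div_iff₀ (by positivity)]
    nlinarith
  | succ n ih =>
    rw [kk_succ]
    calc ‖(l : ℂ) * kk l ζ n + ll l ζ (n + 1)‖ ≤ ‖(l : ℂ) * kk l ζ n‖ + ‖ll l ζ (n + 1)‖ := norm_add_le _ _
      _ = l * ‖kk l ζ n‖ + ‖ll l ζ (n + 1)‖ := by
          rw [norm_mul, Complex.norm_real, Real.norm_of_nonneg hl0]
      _ ≤ l * (2 / (1 - l) ^ 2) + 2 / (1 - l) := by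
          have := mul_le_mul_of_nonneg_left ih hl0
          have := hll (n + 1)
          linarith
      _ = 2 / (1 - l) ^ 2 := by field_simp; ring

/-- reduction of `Star` to finitely many terms -/
lemma star_of_fin {l r d : ℝ} (N0 : ℕ) (hl0 : 0 ≤ l) (hl1 : l < 1) (hr0 : 0 ≤ r) (hr1 : r < 1)
    (hd : 0 ≤ d)
    (h : ∀ ζ : ℂ, ‖ζ‖ = 1 → ∑ n ∈ range N0, r ^ n * ‖(l : ℂ) ^ n - d * kk l ζ n‖
      + ((l * r) ^ N0 / (1 - l * r) + d * (2 / (1 - l) ^ 2) * (r ^ N0 / (1 - r))) ≤ 1 / (1 - l * r)) :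
    Star l r d := by
  intro ζ hζ N
  have hmono : ∑ n ∈ range N, r ^ n * ‖(l : ℂ) ^ n - d * kk l ζ n‖
      ≤ ∑ n ∈ range (N0 + N), r ^ n * ‖(l : ℂ) ^ n - d * kk l ζ n‖ := by
    apply Finset.sum_le_sum_of_subset_of_nonneg
    · intro i hi
      rw [Finset.mem_range] at hi ⊢
      omega
    · intro i _ _
      positivity
  refine hmono.trans ?_
  rw [Finset.sum_range_add]
  refine le_trans ?_ (h ζ hζ)
  have hlr1 : l * r < 1 := by nlinarith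
  have hlr0 : 0 ≤ l * r := mul_nonneg hl0 hr0
  have ht : ∑ n ∈ range N, r ^ (N0 + n) * ‖(l : ℂ) ^ (N0 + n) - d * kk l ζ (N0 + n)‖
      ≤ ∑ n ∈ range N, ((l * r) ^ N0 * (l * r) ^ n + d * (2 / (1 - l) ^ 2) * r ^ N0 * r ^ n) := by
    apply Finset.sum_le_sum
    intro n _
    have h1 : ‖(l : ℂ) ^ (N0 + n) - d * kk l ζ (N0 + n)‖ ≤ l ^ (N0 + n) + d * (2 / (1 - l) ^ 2) := by
      refine (norm_sub_le _ _).trans ?_
      rw [norm_pow, norm_mul, Complex.norm_real, Complex.norm_real, Real.norm_of_nonneg hl0,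
        Real.norm_of_nonneg hd]
      have := mul_le_mul_of_nonneg_left (kk_bound hl0 hl1 hζ (N0 + n)) hd
      linarith
    have h2 := mul_le_mul_of_nonneg_left h1 (pow_nonneg hr0 (N0 + n))
    refine h2.trans (le_of_eq ?_)
    rw [mul_add, ← mul_pow, mul_comm r l, pow_add, pow_add]
    ring
  rw [Finset.sum_add_distrib, ← Finset.mul_sum, ← Finset.mul_sum] at ht
  have g1 : ∑ n ∈ range N, (l * r) ^ n ≤ (1 - l * r)⁻¹ :=
    sum_le_hasSum _ (fun n _ => by positivity) (hasSum_geometric_of_lt_one hlr0 hlr1)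
  have g2 : ∑ n ∈ range N, r ^ n ≤ (1 - r)⁻¹ :=
    sum_le_hasSum _ (fun n _ => by positivity) (hasSum_geometric_of_lt_one hr0 hr1)
  have g3 := mul_le_mul_of_nonneg_left g1 (pow_nonneg hlr0 N0)
  have hl : 0 < 1 - l := by linarith
  have g4 := mul_le_mul_of_nonneg_left g2
    (by positivity : 0 ≤ d * (2 / (1 - l) ^ 2) * r ^ N0)
  rw [← div_eq_mul_inv] at g3
  have g5 : d * (2 / (1 - l) ^ 2) * r ^ N0 * (1 - r)⁻¹ = d * (2 / (1 - l) ^ 2) * (r ^ N0 / (1 - r)) := by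
    rw [div_eq_mul_inv (r ^ N0)]; ring
  linarith

end Pool.Agent.Helper205.Bohr
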