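import Pool.Agent.Helper205.BohrI

set_option autoImplicit false
open Complex Filter Topology Metric MeasureTheory
open Finset (range)

namespace Pool.Agent.Helper205.Bohr

lemma st0 (x : ℝ) : stp (7 / 17 : ℝ) x 0 = ⟨1, 0, 1, 0, 1, 0⟩ := rfl

lemma st1 (x : ℝ) : stp (7 / 17 : ℝ) x 1 = ⟨(1)*x, (1), (7/17) + (2)*x, (2), (14/17) + (2)*x, (2)⟩ := by
  rw [stp, st0]
  simp only [St.mk.injEq]
  refine ⟨?_, ?_, ?_, ?_, ?_, ?_⟩ <;> ring

lemma st2 (x : ℝ) : stp (7 / 17 : ℝ) x 2 = ⟨((-1)) + (2)*x^2, (2)*x, ((-529/289)) + (14/17)*x + (4)*x^2, (14/17) + (4)*x, ((-431/289)) + (28/17)*x + (4)*x^2, (28/17) + (4)*x⟩ := by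
  rw [stp, st1]
  simp only [St.mk.injEq]
  refine ⟨?_, ?_, ?_, ?_, ?_, ?_⟩ <;> ring

lemma st3 (x : ℝ) : stp (7 / 17 : ℝ) x 3 = ⟨((-3))*x + (4)*x^3, ((-1)) + (4)*x^2, ((-3703/4913)) + ((-1636/289))*x + (28/17)*x^2 + (8)*x^3, ((-480/289)) + (28/17)*x + (8)*x^2, ((-6720/4913)) + ((-1440/289))*x + (56/17)*x^2 + (8)*x^3, ((-284/289)) + (56/17)*x + (8)*x^2⟩ := by
  rw [stp, st2]
  simp only [St.mk.injEq]
  refine ⟨?_, ?_, ?_, ?_, ?_, ?_⟩ <;> ring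

lemma st4 (x : ℝ) : stp (7 / 17 : ℝ) x 4 = ⟨(1) + ((-8))*x^2 + (8)*x^4, ((-4))*x + (8)*x^3, (141121/83521) + ((-11452/4913))*x + ((-4428/289))*x^2 + (56/17)*x^3 + (16)*x^4, ((-3360/4913)) + ((-2116/289))*x + (56/17)*x^2 + (16)*x^3, (94081/83521) + ((-21532/4913))*x + ((-4036/289))*x^2 + (112/17)*x^3 + (16)*x^4, ((-5348/4913)) + ((-1724/289))*x + (112/17)*x^2 + (16)*x^3⟩ := by
  rw [stp, st3]
  simp only [St.mk.injEq]
  refine ⟨?_, ?_, ?_, ?_, ?_, ?_⟩ <;> ring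

lemma st5 (x : ℝ) : stp (7 / 17 : ℝ) x 5 = ⟨(5)*x + ((-20))*x^3 + (16)*x^5, (1) + ((-12))*x^2 + (16)*x^4, (987847/1419857) + (755046/83521)*x + ((-30996/4913))*x^2 + ((-11168/289))*x^3 + (112/17)*x^4 + (32)*x^5, (143522/83521) + ((-14812/4913))*x + ((-6544/289))*x^2 + (112/17)*x^3 + (32)*x^4, (1646414/1419857) + (604322/83521)*x + ((-59248/4913))*x^2 + ((-10384/289))*x^3 + (224/17)*x^4 + (32)*x^5, (106086/83521) + ((-26880/4913))*x + ((-5760/289))*x^2 + (224/17)*x^3 + (32)*x^4⟩ := by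
  rw [stp, st4]
  simp only [St.mk.injEq]
  refine ⟨?_, ?_, ?_, ?_, ?_, ?_⟩ <;> ring

lemma st6 (x : ℝ) : stp (7 / 17 : ℝ) x 6 = ⟨((-1)) + (18)*x^2 + ((-48))*x^4 + (32)*x^6, (6)*x + ((-32))*x^3 + (32)*x^5, ((-41360209/24137569)) + (5285322/1419857)*x + (2789784/83521)*x^2 + ((-78176/4913))*x^3 + ((-26960/289))*x^4 + (224/17)*x^5 + (64)*x^6, (1004654/1419857) + (898568/83521)*x + ((-45808/4913))*x^2 + ((-17712/289))*x^3 + (224/17)*x^4 + (64)*x^5, ((-29835311/24137569)) + (9515576/1419857)*x + (2375048/83521)*x^2 + ((-150864/4913))*x^3 + ((-25392/289))*x^4 + (448/17)*x^5 + (64)*x^6, (1747256/1419857) + (710408/83521)*x + ((-86128/4913))*x^2 + ((-16144/289))*x^3 + (448/17)*x^4 + (64)*x^5⟩ := by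
  rw [stp, st5]
  simp only [St.mk.injEq]
  refine ⟨?_, ?_, ?_, ?_, ?_, ?_⟩ <;> ring

lemma st7 (x : ℝ) : stp (7 / 17 : ℝ) x 7 = ⟨((-7))*x + (56)*x^3 + ((-112))*x^5 + (64)*x^7, ((-1)) + (24)*x^2 + ((-80))*x^4 + (64)*x^6, ((-289521463/410338673)) + ((-300928712/24137569))*x + (19528488/1419857)*x^2 + (8807120/83521)*x^3 + ((-188720/4913))*x^4 + ((-63168/289))*x^5 + (448/17)*x^6 + (128)*x^7, ((-41242560/24137569)) + (6289976/1419857)*x + (3688352/83521)*x^2 + ((-123984/4913))*x^3 + ((-44672/289))*x^4 + (448/17)*x^5 + (128)*x^6, ((-498368640/410338673)) + ((-234319680/24137569))*x + (36153824/1419857)*x^2 + (7751072/83521)*x^3 + ((-366464/4913))*x^4 + ((-60032/289))*x^5 + (896/17)*x^6 + (128)*x^7, ((-29011768/24137569)) + (11262832/1419857)*x + (3085456/83521)*x^2 + ((-236992/4913))*x^3 + ((-41536/289))*x^4 + (896/17)*x^5 + (128)*x^6⟩ := by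
  rw [stp, st6]
  simp only [St.mk.injEq]
  refine ⟨?_, ?_, ?_, ?_, ?_, ?_⟩ <;> ring

lemma st8 (x : ℝ) : stp (7 / 17 : ℝ) x 8 = ⟨(1) + ((-32))*x^2 + (160)*x^4 + ((-256))*x^6 + (128)*x^8, ((-8))*x + (80)*x^3 + ((-192))*x^5 + (128)*x^7, (11924864641/6975757441) + ((-2106500984/410338673))*x + ((-1408105000/24137569))*x^2 + (61649840/1419857)*x^3 + (25405680/83521)*x^4 + ((-442176/4913))*x^5 + ((-144832/289))*x^6 + (896/17)*x^7 + (256)*x^8, ((-288697920/410338673)) + ((-342171272/24137569))*x + (25818464/1419857)*x^2 + (12495472/83521)*x^3 + ((-312704/4913))*x^4 + ((-107840/289))*x^5 + (896/17)*x^6 + (256)*x^7, (8436284161/6975757441) + ((-3746738744/410338673))*x + ((-1155028232/24137569))*x^2 + (115907344/1419857)*x^3 + (22840432/83521)*x^4 + ((-862400/4913))*x^5 + ((-138560/289))*x^6 + (1792/17)*x^7 + (256)*x^8, ((-491780296/410338673)) + ((-263331448/24137569))*x + (47416656/1419857)*x^2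 + (10836528/83521)*x^3 + ((-603456/4913))*x^4 + ((-101568/289))*x^5 + (1792/17)*x^6 + (256)*x^7⟩ := by
  rw [stp, st7]
  simp only [St.mk.injEq]
  refine ⟨?_, ?_, ?_, ?_, ?_, ?_⟩ <;> ring

lemma st9 (x : ℝ) : stp (7 / 17 : ℝ) x 9 = ⟨(9)*x + ((-120))*x^3 + (432)*x^5 + ((-576))*x^7 + (256)*x^9, (1) + ((-40))*x^2 + (240)*x^4 + ((-448))*x^6 + (256)*x^8, (83474052487/118587876497) + (110818127050/6975757441)*x + ((-9856735000/410338673))*x^2 + ((-5361467680/24137569))*x^3 + (177839760/1419857)*x^4 + (69066912/83521)*x^5 + ((-1013824/4913))*x^6 + ((-326656/289))*x^7 + (1792/17)*x^8 + (512)*x^9, (11930629442/6975757441) + ((-2395198904/410338673))*x + ((-1750276272/24137569))*x^2 + (87468304/1419857)*x^3 + (37901152/83521)*x^4 + ((-754880/4913))*x^5 + ((-252672/289))*x^6 + (1792/17)*x^7 + (512)*x^8, (142528041614/118587876497) + (84590955842/6975757441)*x + ((-17941932624/410338673))*x^2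 + ((-4550116272/24137569))*x^3 + (337722784/1419857)*x^4 + (63030112/83521)*x^5 + ((-1983744/4913))*x^6 + ((-314112/289))*x^7 + (3584/17)*x^8 + (512)*x^9, (8488167370/6975757441) + ((-4238519040/410338673))*x + ((-1418359680/24137569))*x^2 + (163324000/1419857)*x^3 + (33676960/83521)*x^4 + ((-1465856/4913))*x^5 + ((-240128/289))*x^6 + (3584/17)*x^7 + (512)*x^8⟩ := by
  rw [stp, st8]
  simp only [St.mk.injEq]
  refine ⟨?_, ?_, ?_, ?_, ?_, ?_⟩ <;> ring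


end Pool.Agent.Helper205.Bohr
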