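import Pool.Agent.Helper205.BohrJ

set_option autoImplicit false
open Complex Filter Topology Metric MeasureTheory
open Finset (range)

namespace Pool.Agent.Helper205.Bohr

lemma qD0_1 {ζ : ℂ} (hζ : ‖ζ‖ = 1) : ‖((7 / 17 : ℝ) : ℂ) ^ 1 - ((9/100 : ℝ) : ℂ) * kk (7 / 17) ζ 1‖ ^ 2
    = (52889/361250) + ((-2583/21250))*ζ.re := by
  rw [w_normsq _ _ _ hζ, st1]
  ring

lemma qD0_2 {ζ : ℂ} (hζ : ‖ζ‖ = 1) : ‖((7 / 17 : ℝ) : ℂ) ^ 2 - ((9/100 : ℝ) : ℂ) * kk (7 / 17) ζ 2‖ ^ 2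
    = (95423497/835210000) + (819/49130)*ζ.re + ((-32193/361250))*ζ.re^2 := by
  rw [w_normsq _ _ _ hζ, st2]
  ring

lemma qD0_3 {ζ : ℂ} (hζ : ‖ζ‖ = 1) : ‖((7 / 17 : ℝ) : ℂ) ^ 3 - ((9/100 : ℝ) : ℂ) * kk (7 / 17) ζ 3‖ ^ 2
    = (679457794/15085980625) + (107006508/887410625)*ζ.re + (2058147/52200625)*ζ.re^2 + ((-197568/3070625))*ζ.re^3 := by
  rw [w_normsq _ _ _ hζ, st3]
  ring

lemma qD0_4 {ζ : ℂ} (hζ : ‖ζ‖ = 1) : ‖((7 / 17 : ℝ) : ℂ) ^ 4 - ((9/100 : ℝ) : ℂ) * kk (7 / 17) ζ 4‖ ^ 2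
    = (1037521987177/69757574410000) + (24568108929/512923341250)*ζ.re + (4087440693/30171961250)*ζ.re^2 + (47595366/887410625)*ζ.re^3 + ((-475398/10440125))*ζ.re^4 := by
  rw [w_normsq _ _ _ hζ, st4]
  ring

lemma qD1_1 {ζ : ℂ} (hζ : ‖ζ‖ = 1) : ‖((7 / 17 : ℝ) : ℂ) ^ 1 - ((29/200 : ℝ) : ℂ) * kk (7 / 17) ζ 1‖ ^ 2
    = (245029/1445000) + ((-14413/85000))*ζ.re := by
  rw [w_normsq _ _ _ hζ, st1]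
  ring

lemma qD1_2 {ζ : ℂ} (hζ : ‖ζ‖ = 1) : ‖((7 / 17 : ℝ) : ℂ) ^ 2 - ((29/200 : ℝ) : ℂ) * kk (7 / 17) ζ 2‖ ^ 2
    = (687795817/3340840000) + (91147/982600)*ζ.re + ((-160573/1445000))*ζ.re^2 := by
  rw [w_normsq _ _ _ hζ, st2]
  ring

lemma qD1_3 {ζ : ℂ} (hζ : ‖ζ‖ = 1) : ‖((7 / 17 : ℝ) : ℂ) ^ 3 - ((29/200 : ℝ) : ℂ) * kk (7 / 17) ζ 3‖ ^ 2
    = (5564066909/60343922500) + (223046047/887410625)*ζ.re + (29879367/208802500)*ζ.re^2 + ((-208887/3070625))*ζ.re^3 := by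
  rw [w_normsq _ _ _ hζ, st3]
  ring

lemma qD1_4 {ζ : ℂ} (hζ : ‖ζ‖ = 1) : ‖((7 / 17 : ℝ) : ℂ) ^ 4 - ((29/200 : ℝ) : ℂ) * kk (7 / 17) ζ 4‖ ^ 2
    = (12005643652297/279030297640000) + (209273232469/2051693365000)*ζ.re + (33851933073/120687845000)*ζ.re^2 + (306656063/1774821250)*ζ.re^3 + ((-765919/20880250))*ζ.re^4 := by
  rw [w_normsq _ _ _ hζ, st4]
  ring

lemma qD2_1 {ζ : ℂ} (hζ : ‖ζ‖ = 1) : ‖((7 / 17 : ℝ) : ℂ) ^ 1 - ((4/25 : ℝ) : ℂ) * kk (7 / 17) ζ 1‖ ^ 2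
    = (113/625) + ((-112/625))*ζ.re := by
  rw [w_normsq _ _ _ hζ, st1]
  ring

lemma qD2_2 {ζ : ℂ} (hζ : ‖ζ‖ = 1) : ‖((7 / 17 : ℝ) : ℂ) ^ 2 - ((4/25 : ℝ) : ℂ) * kk (7 / 17) ζ 2‖ ^ 2
    = (12321817/52200625) + (15008/122825)*ζ.re + ((-20384/180625))*ζ.re^2 := by
  rw [w_normsq _ _ _ hζ, st2]
  ring

lemma qD2_3 {ζ : ℂ} (hζ : ‖ζ‖ = 1) : ‖((7 / 17 : ℝ) : ℂ) ^ 3 - ((4/25 : ℝ) : ℂ) * kk (7 / 17) ζ 3‖ ^ 2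
    = (1630010369/15085980625) + (261361408/887410625)*ζ.re + (9492672/52200625)*ζ.re^2 + ((-197568/3070625))*ζ.re^3 := by
  rw [w_normsq _ _ _ hζ, st3]
  ring

lemma qD2_4 {ζ : ℂ} (hζ : ‖ζ‖ = 1) : ‖((7 / 17 : ℝ) : ℂ) ^ 4 - ((4/25 : ℝ) : ℂ) * kk (7 / 17) ζ 4‖ ^ 2
    = (232296562297/4359848400625) + (30781715552/256461670625)*ζ.re + (4951764384/15085980625)*ζ.re^2 + (192255616/887410625)*ζ.re^3 + ((-307328/10440125))*ζ.re^4 := by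
  rw [w_normsq _ _ _ hζ, st4]
  ring

lemma qD3_1 {ζ : ℂ} (hζ : ‖ζ‖ = 1) : ‖((7 / 17 : ℝ) : ℂ) ^ 1 - ((9/50 : ℝ) : ℂ) * kk (7 / 17) ζ 1‖ ^ 2
    = (35953/180625) + ((-2016/10625))*ζ.re := by
  rw [w_normsq _ _ _ hζ, st1]
  ring

lemma qD3_2 {ζ : ℂ} (hζ : ‖ζ‖ = 1) : ‖((7 / 17 : ℝ) : ℂ) ^ 2 - ((9/50 : ℝ) : ℂ) * kk (7 / 17) ζ 2‖ ^ 2
    = (58408897/208802500) + (20538/122825)*ζ.re + ((-20286/180625))*ζ.re^2 := by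
  rw [w_normsq _ _ _ hζ, st2]
  ring

lemma qD3_3 {ζ : ℂ} (hζ : ‖ζ‖ = 1) : ‖((7 / 17 : ℝ) : ℂ) ^ 3 - ((9/50 : ℝ) : ℂ) * kk (7 / 17) ζ 3‖ ^ 2
    = (1978623301/15085980625) + (316894032/887410625)*ζ.re + (12554388/52200625)*ζ.re^2 + ((-172872/3070625))*ζ.re^3 := by
  rw [w_normsq _ _ _ hζ, st3]
  ring

lemma qD3_4 {ζ : ℂ} (hζ : ‖ζ‖ = 1) : ‖((7 / 17 : ℝ) : ℂ) ^ 4 - ((9/50 : ℝ) : ℂ) * kk (7 / 17) ζ 4‖ ^ 2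
    = (1197585612577/17439393602500) + (37504093158/256461670625)*ζ.re + (5994533286/15085980625)*ζ.re^2 + (250886664/887410625)*ζ.re^3 + ((-172872/10440125))*ζ.re^4 := by
  rw [w_normsq _ _ _ hζ, st4]
  ring

lemma qD4_1 {ζ : ℂ} (hζ : ‖ζ‖ = 1) : ‖((7 / 17 : ℝ) : ℂ) ^ 1 - ((203/1000 : ℝ) : ℂ) * kk (7 / 17) ζ 1‖ ^ 2
    = (8115821/36125000) + ((-422037/2125000))*ζ.re := by
  rw [w_normsq _ _ _ hζ, st1]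
  ring

lemma qD4_2 {ζ : ℂ} (hζ : ‖ζ‖ = 1) : ‖((7 / 17 : ℝ) : ℂ) ^ 2 - ((203/1000 : ℝ) : ℂ) * kk (7 / 17) ζ 2‖ ^ 2
    = (96772697/289000000) + (328251/1445000)*ζ.re + ((-228781/2125000))*ζ.re^2 := by
  rw [w_normsq _ _ _ hζ, st2]
  ring

lemma qD4_3 {ζ : ℂ} (hζ : ‖ζ‖ = 1) : ‖((7 / 17 : ℝ) : ℂ) ^ 3 - ((203/1000 : ℝ) : ℂ) * kk (7 / 17) ζ 3‖ ^ 2
    = (242184994541/1508598062500) + (9675934303/22185265625)*ζ.re + (1659050183/5220062500)*ζ.re^2 + ((-3272563/76765625))*ζ.re^3 := by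
  rw [w_normsq _ _ _ hζ, st3]
  ring

lemma qD4_4 {ζ : ℂ} (hζ : ‖ζ‖ = 1) : ‖((7 / 17 : ℝ) : ℂ) ^ 4 - ((203/1000 : ℝ) : ℂ) * kk (7 / 17) ζ 4‖ ^ 2
    = (619426619316953/6975757441000000) + (9204912251381/51292334125000)*ζ.re + (1462028869777/3017196125000)*ζ.re^2 + (16390875487/44370531250)*ζ.re^3 + (1462209/522006250)*ζ.re^4 := by
  rw [w_normsq _ _ _ hζ, st4]
  ring


end Pool.Agent.Helper205.Bohr
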