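import Pool.Agent.Helper205.BohrK
import Pool.Agent.Helper205.BohrM0
import Pool.Agent.Helper205.BohrM1
import Pool.Agent.Helper205.BohrM2
import Pool.Agent.Helper205.BohrM3

set_option autoImplicit false
open Complex Filter Topology Metric MeasureTheory
open Finset (range)

namespace Pool.Agent.Helper205.Bohr

lemma P17 : P (7 / 17) (17 / 31) := by
  intro φ hφ g hg
  by_cases hcase : ‖φ 0‖ ≤ 797 / 1000
  · refine partA (c1 := 797 / 1000) (by norm_num) (by norm_num) (by norm_num) (by norm_num)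
      (by norm_num) (by norm_num) hφ hcase hg
  · push Not at hcase
    -- rotate
    obtain ⟨η, hη, hηφ⟩ : ∃ η : ℂ, ‖η‖ = 1 ∧ η * φ 0 = (‖φ 0‖ : ℂ) := by
      by_cases h0 : φ 0 = 0
      · exact ⟨1, by simp, by simp [h0]⟩
      · refine ⟨(starRingEnd ℂ) (φ 0) / (‖φ 0‖ : ℂ), ?_, ?_⟩
        · rw [norm_div, Complex.norm_conj, Complex.norm_real, norm_norm, div_self]
          exact norm_ne_zero_iff.mpr h0
        · have h1 : (‖φ 0‖ : ℂ) ≠ 0 := by exact_mod_cast norm_ne_zero_iff.mpr h0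
          rw [div_mul_eq_mul_div, div_eq_iff h1, Complex.conj_mul', sq]
    set ψ : ℂ → ℂ := fun z => η * φ (η * z) with hψ
    have hψS : Schur ψ := by
      refine ⟨?_, ?_⟩
      · have h1 : DifferentiableOn ℂ (fun z : ℂ => η * z) (ball 0 1) := by fun_prop
        have h2 : DifferentiableOn ℂ (fun z : ℂ => φ (η * z)) (ball 0 1) := by
          apply hφ.1.comp h1
          intro z hz
          have := norm_mul_lt hη.le (by simpa using hz : ‖z‖ < 1)
          simpa using this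
        exact h2.const_mul η
      · intro z hz
        rw [hψ]
        simp only
        rw [norm_mul, hη, one_mul]
        exact hφ.2 _ (norm_mul_lt hη.le hz)
    have hψ0 : ψ 0 = ((‖φ 0‖ : ℝ) : ℂ) := by
      rw [hψ]; simp [hηφ]
    have hψg : PS (Gf (7 / 17) ψ) (fun n => η * (g n * η ^ n)) := by
      refine ((hg.scale η hη.le).const_mul η).congr ?_
      intro z hz
      simp only [Gf, hψ]
      rw [mul_div_assoc']
      congr 1
      ring
    have hle1 : ‖φ 0‖ ≤ 1 := hφ.2 0 (by simp)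
    have h3 : ∑' n, ‖η * (g n * η ^ n)‖ * (17 / 31 : ℝ) ^ n ≤ 1 / (1 - 7 / 17 * (17 / 31)) := by
      rcases le_total (‖φ 0‖) (1 - 9 / 100) with h | h
      · rcases le_total (‖φ 0‖) (1 - 29 / 200) with h' | h'
        · rcases le_total (‖φ 0‖) (1 - 4 / 25) with h'' | h''
          · rcases le_total (‖φ 0‖) (1 - 9 / 50) with h4 | h4
            · exact piece3 hψS hψ0 h4 (by linarith) hψg
            · exact piece2 hψS hψ0 h'' h4 hψg
          · exact piece1 hψS hψ0 h' h'' hψg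
        · exact piece0 hψS hψ0 h h' hψg
      · exact partB starS (by norm_num) (by norm_num) (by norm_num) (by norm_num) (by norm_num)
          hψS hψ0 hle1 h hψg
    simpa [norm_mul, hη] using h3

lemma B_eq17 {l : ℝ} (h : 7 / 17 ≤ l) (h1 : l < 1) : B l = 1 / (1 + 2 * l) :=
  B_eq P17 (by norm_num) (by norm_num) (by norm_num) h h1 (by norm_num)

/-! ### Two-sided bounds for all `l` -/

/-- the function of the class attached to a Schur function -/
noncomputable def ff (l : ℝ) (φ : ℂ → ℂ) (z : ℂ) : ℂ := ((l : ℂ) - z * φ z) / (1 - l * (z * φ z))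

lemma ff_mem {l : ℝ} (hl0 : 0 ≤ l) (hl1 : l < 1) {φ : ℂ → ℂ} (hφ : Schur φ) : ff l φ ∈ Fam l := by
  have hw : ∀ z : ℂ, ‖z‖ < 1 → ‖z * φ z‖ < 1 := fun z hz => by
    rw [mul_comm]; exact norm_mul_lt (hφ.2 z hz) hz
  refine ⟨?_, ?_, ?_⟩
  · have hφd := hφ.1
    apply DifferentiableOn.div
    · fun_prop
    · fun_prop
    · intro z hz
      have := hφ.den_ne hl0 hl1.le (by simpa using hz : ‖z‖ < 1)
      rwa [mul_assoc] at this
  · intro z hz
    exact moebius_lt hl0 hl1 (hw z (by simpa using hz))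
  · simp [ff]

lemma ff_maj {l r : ℝ} (hl0 : 0 ≤ l) (hl1 : l < 1) {φ : ℂ → ℂ} (hφ : Schur φ)
    {g : ℕ → ℂ} (hg : PS (Gf l φ) g) :
    maj l (ff l φ) r = l + (1 - l ^ 2) * r * ∑' n, ‖g n‖ * r ^ n := by
  have hps : PS (ff l φ)
      (fun n => (if n = 0 then (l : ℂ) else 0) - (1 - (l : ℂ) ^ 2) * shiftR g n) := by
    refine ((ps_const (l : ℂ)).sub ((hg.zmul).const_mul (1 - (l : ℂ) ^ 2))).congr ?_
    intro z hz
    have hd := hφ.den_ne hl0 hl1.le hz
    simp only [ff, Gf]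
    rw [← mul_assoc (l : ℂ) z (φ z), mul_div_assoc', mul_div_assoc', eq_comm, div_eq_iff hd, sub_mul,
      div_mul_cancel₀ _ hd]
    ring
  have hco : coeff (ff l φ) = _ := (ps_coeff (ff_mem hl0 hl1 hφ).1).unique hps
  rw [maj]
  congr 1
  rw [← tsum_mul_left]
  apply tsum_congr
  intro n
  rw [hco]
  simp only [shiftR, Nat.add_eq_zero_iff, one_ne_zero, and_false, if_false, zero_sub, norm_neg,
    norm_mul]
  have h4 : (1 - (l : ℂ) ^ 2) = ((1 - l ^ 2 : ℝ) : ℂ) := by push_cast; ring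
  rw [h4, Complex.norm_real, Real.norm_of_nonneg (by nlinarith : 0 ≤ 1 - l ^ 2)]
  ring

lemma maj_general {l r : ℝ} (hl0 : 0 ≤ l) (hl1 : l < 1) {f : ℂ → ℂ} (hf : f ∈ Fam l) :
    ∃ φ : ℂ → ℂ, Schur φ ∧ maj l f r = l + (1 - l ^ 2) * r * ∑' n, ‖coeff (Gf l φ) n‖ * r ^ n := by
  obtain ⟨φ, hφ, hφf⟩ := exists_phi hl0 hl1 hf
  refine ⟨φ, hφ, ?_⟩
  rw [← ff_maj hl0 hl1 hφ (Gf_ps hφ hl0 hl1.le)]
  have hps : PS f (coeff (ff l φ)) := by
    refine (ps_coeff (ff_mem hl0 hl1 hφ).1).congr ?_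
    intro z hz
    rw [hφf z hz]
    have hd := hφ.den_ne hl0 hl1.le hz
    simp only [ff]
    rw [← mul_assoc (l : ℂ) z (φ z), mul_div_assoc', mul_div_assoc', div_eq_iff hd, sub_mul,
      div_mul_cancel₀ _ hd]
    ring
  have hco : coeff f = coeff (ff l φ) := (ps_coeff hf.1).unique hps
  rw [maj, maj, hco]

lemma B_set_bdd (l : ℝ) : BddAbove {r : ℝ | 0 ≤ r ∧ r < 1 ∧ ∀ f ∈ Fam l, maj l f r ≤ 1} :=
  ⟨1, fun _ hr => hr.2.1.le⟩

/-- Bombieri's lower bound -/
lemma B_lower {l : ℝ} (hl0 : 0 ≤ l) (hl1 : l < 1) : (1 - l) / 2 ≤ B l ^ 2 := by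
  set r : ℝ := Real.sqrt ((1 - l) / 2) with hr
  have hr2 : r ^ 2 = (1 - l) / 2 := Real.sq_sqrt (by linarith)
  have hr0 : 0 < r := Real.sqrt_pos.mpr (by linarith)
  have hr1 : r < 1 := by nlinarith
  have hmem : r ∈ {r : ℝ | 0 ≤ r ∧ r < 1 ∧ ∀ f ∈ Fam l, maj l f r ≤ 1} := by
    refine ⟨hr0.le, hr1, ?_⟩
    intro f hf
    obtain ⟨φ, hφ, hm⟩ := maj_general (r := r) hl0 hl1 hf
    rw [hm]
    have hG := Gf_ps hφ hl0 hl1.le
    -- `∑ |g_n| r^n ≤ 1 / ((1 + l) r)`
    have hb : ∑' n, ‖coeff (Gf l φ) n‖ * r ^ n ≤ 1 / ((1 + l) * r) := by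
      apply (hG.summable_norm_mul r hr0.le hr1).tsum_le_of_sum_range_le
      intro N
      have hen := energy hl0 hl1 hφ hG N
      set t : ℝ := (1 - l) / r with ht
      have htp : 0 < t := div_pos (by linarith) hr0
      have h1 : ∑ n ∈ range N, ‖coeff (Gf l φ) n‖ * r ^ n
          ≤ ∑ n ∈ range N, (t / 2 * ‖coeff (Gf l φ) n‖ ^ 2 + 1 / (2 * t) * (r ^ 2) ^ n) := by
        apply Finset.sum_le_sum
        intro n _
        have e : t / 2 * ‖coeff (Gf l φ) n‖ ^ 2 + 1 / (2 * t) * (r ^ 2) ^ n - ‖coeff (Gf l φ) n‖ * r ^ n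
            = (t * ‖coeff (Gf l φ) n‖ - r ^ n) ^ 2 / (2 * t) := by
          rw [← pow_mul, mul_comm 2 n, pow_mul]
          field_simp
          ring
        have h2 : 0 ≤ (t * ‖coeff (Gf l φ) n‖ - r ^ n) ^ 2 / (2 * t) := by positivity
        linarith
      refine h1.trans ?_
      rw [Finset.sum_add_distrib, ← Finset.mul_sum, ← Finset.mul_sum]
      have h3 : ∑ n ∈ range N, (r ^ 2) ^ n ≤ (1 - r ^ 2)⁻¹ :=
        sum_le_hasSum _ (fun n _ => by positivity)
          (hasSum_geometric_of_lt_one (sq_nonneg r) (by nlinarith : r ^ 2 < 1))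
      have h4 := mul_le_mul_of_nonneg_left h3 (by positivity : 0 ≤ 1 / (2 * t))
      have h5 := mul_le_mul_of_nonneg_left hen (by positivity : 0 ≤ t / 2)
      have h6 : t / 2 * (1 / (1 - l ^ 2)) + 1 / (2 * t) * (1 - r ^ 2)⁻¹ = 1 / ((1 + l) * r) := by
        have hl2 : (1 - l) ≠ 0 := by linarith
        have hl3 : (1 + l) ≠ 0 := by linarith
        have e1 : t / 2 * (1 / (1 - l ^ 2)) = 1 / (2 * ((1 + l) * r)) := by
          rw [ht, show (1 - l ^ 2) = (1 - l) * (1 + l) by ring]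
          field_simp
        have e2 : 1 / (2 * t) * (1 - r ^ 2)⁻¹ = 1 / (2 * ((1 + l) * r)) := by
          rw [hr2, ht, show (1 - (1 - l) / 2) = (1 + l) / 2 by ring]
          have : r * r = (1 - l) / 2 := by rw [← hr2]; ring
          field_simp
          nlinarith
        rw [e1, e2]
        field_simp
        ring
      linarith
    have h7 : 0 ≤ (1 - l ^ 2) * r := mul_nonneg (by nlinarith) hr0.le
    have h8 := mul_le_mul_of_nonneg_left hb h7
    have h9 : (1 - l ^ 2) * r * (1 / ((1 + l) * r)) = 1 - l := by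
      have hl3 : (1 + l) ≠ 0 := by linarith
      field_simp
      ring
    linarith
  have hle : r ≤ B l := le_csSup (B_set_bdd l) hmem
  rw [← hr2]
  exact pow_le_pow_left₀ hr0.le hle 2

lemma disc_schur {b : ℝ} (hb0 : 0 ≤ b) (hb1 : b < 1) : Schur (fun z => ((b : ℂ) - z) / (1 - b * z)) := by
  refine ⟨?_, ?_⟩
  · apply DifferentiableOn.div
    · fun_prop
    · fun_prop
    · intro z hz
      apply one_sub_ne
      apply norm_mul_lt _ (by simpa using hz)
      rw [Complex.norm_real, Real.norm_of_nonneg hb0]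
      exact hb1.le
  · intro z hz
    exact (moebius_lt hb0 hb1 hz).le

/-- the new upper bound -/
lemma B_upper {l : ℝ} (hl0 : 0 ≤ l) (hl1 : l < 1) : B l ^ 2 ≤ 1 / (2 * (1 + l)) := by
  have hne : (0 : ℝ) ∈ {r : ℝ | 0 ≤ r ∧ r < 1 ∧ ∀ f ∈ Fam l, maj l f r ≤ 1} := by
    refine ⟨le_rfl, one_pos, fun f _ => ?_⟩
    simp [maj, hl1.le]
  have hB0 : 0 ≤ B l := le_csSup (B_set_bdd l) hne
  have hall : ∀ r ∈ {r : ℝ | 0 ≤ r ∧ r < 1 ∧ ∀ f ∈ Fam l, maj l f r ≤ 1},
      r ≤ Real.sqrt (1 / (2 * (1 + l))) := by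
    rintro r ⟨hr0, hr1, hf⟩
    apply Real.le_sqrt_of_sq_le
    set φ : ℂ → ℂ := fun z => ((r : ℂ) - z) / (1 - r * z) with hφdef
    have hφ : Schur φ := disc_schur hr0 hr1
    have hG := Gf_ps hφ hl0 hl1.le
    have h1 := hf _ (ff_mem hl0 hl1 hφ)
    rw [ff_maj hl0 hl1 hφ hG] at h1
    set g := coeff (Gf l φ) with hg
    have hg0 : g 0 = (r : ℂ) := by
      rw [hG.zero]; simp [Gf, hφdef]
    have hs := hG.summable_norm_mul r hr0 hr1
    have hsum : HasSum (fun n => g n * (r : ℂ) ^ n) 0 := by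
      have h2 := hG (r : ℂ) (by rw [Complex.norm_real, Real.norm_of_nonneg hr0]; exact hr1)
      have h3 : Gf l φ (r : ℂ) = 0 := by simp [Gf, hφdef]
      rwa [h3] at h2
    have h2r : 2 * r ≤ ∑' n, ‖g n‖ * r ^ n := by
      have h4 : HasSum (fun n => g (n + 1) * (r : ℂ) ^ (n + 1)) (-(r : ℂ)) := by
        rw [hasSum_nat_add_iff (f := fun n => g n * (r : ℂ) ^ n) 1]
        simpa [hg0] using hsum
      have h5 : r ≤ ∑' n, ‖g (n + 1)‖ * r ^ (n + 1) := by
        have h6 : ‖(-(r : ℂ))‖ ≤ ∑' n, ‖g (n + 1) * (r : ℂ) ^ (n + 1)‖ := by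
          rw [← h4.tsum_eq]
          exact norm_tsum_le_tsum_norm h4.summable.norm
        rw [norm_neg, Complex.norm_real, Real.norm_of_nonneg hr0] at h6
        refine h6.trans (le_of_eq (tsum_congr fun n => ?_))
        rw [norm_mul, norm_pow, Complex.norm_real, Real.norm_of_nonneg hr0]
      rw [hs.tsum_eq_zero_add, pow_zero, mul_one, hg0, Complex.norm_real, Real.norm_of_nonneg hr0]
      linarith
    have h7 : 0 ≤ (1 - l ^ 2) * r := mul_nonneg (by nlinarith) hr0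
    have h8 := mul_le_mul_of_nonneg_left h2r h7
    have h9 : (1 - l) * (2 * (1 + l) * r ^ 2) ≤ (1 - l) * 1 := by nlinarith
    have h10 := le_of_mul_le_mul_left h9 (by linarith)
    rw [le_div_iff₀ (by linarith)]
    linarith
  have h11 : B l ≤ Real.sqrt (1 / (2 * (1 + l))) := csSup_le ⟨0, hne⟩ hall
  calc B l ^ 2 ≤ Real.sqrt (1 / (2 * (1 + l))) ^ 2 := pow_le_pow_left₀ hB0 h11 2
    _ = 1 / (2 * (1 + l)) := Real.sq_sqrt (by positivity)

end Pool.Agent.Helper205.Bohr
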