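import Mathlib

set_option autoImplicit false

namespace Pool.Agent.Helper205.Hoch

universe u

/-- A locally convex bimodule `X` over a (non-unital) topological algebra `A`: bilinear left and
right actions `l a x = a · x` and `r x a = x · a`, associative, commuting, jointly continuous. -/
structure Bimod (A : Type) (X : Type u) [NonUnitalRing A] [Module ℂ A] [TopologicalSpace A]
    [AddCommGroup X] [Module ℂ X] [TopologicalSpace X] where
  l : A →ₗ[ℂ] X →ₗ[ℂ] X
  r : X →ₗ[ℂ] A →ₗ[ℂ] X
  l_mul : ∀ (a b : A) (x : X), l (a * b) x = l a (l b x)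
  r_mul : ∀ (x : X) (a b : A), r x (a * b) = r (r x a) b
  l_r : ∀ (a : A) (x : X) (b : A), r (l a x) b = l a (r x b)
  l_cont : Continuous fun q : A × X => l q.1 q.2
  r_cont : Continuous fun q : X × A => r q.1 q.2

/-- `(C, τ)` is the completed projective tensor product of `X` with `n` copies of `A`:
`τ (x; a₁, …, aₙ) = x ⊗ a₁ ⊗ ⋯ ⊗ aₙ` is a jointly continuous `(n+1)`-linear map into the complete
Hausdorff locally convex space `C`, universal among all such maps into complete Hausdorff
locally convex spaces. -/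
structure IsProjTensor (A : Type) (X : Type u) [NonUnitalRing A] [Module ℂ A] [TopologicalSpace A]
    [AddCommGroup X] [Module ℂ X] [TopologicalSpace X] (n : ℕ)
    (C : Type u) [AddCommGroup C] [Module ℂ C] [TopologicalSpace C]
    (τ : X →ₗ[ℂ] MultilinearMap ℂ (fun _ : Fin n => A) C) : Prop where
  cont : Continuous fun q : X × (Fin n → A) => τ q.1 q.2
  univ : ∀ (F : Type u) [AddCommGroup F] [Module ℂ F] [UniformSpace F] [IsUniformAddGroup F]
    [PolynormableSpace ℂ F] [T2Space F] [CompleteSpace F]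
    (φ : X →ₗ[ℂ] MultilinearMap ℂ (fun _ : Fin n => A) F),
    Continuous (fun q : X × (Fin n → A) => φ q.1 q.2) →
      ∃! g : C →L[ℂ] F, ∀ (x : X) (a : Fin n → A), g (τ x a) = φ x a

/-- The Hochschild chain complex of the bimodule `M` over `A`: spaces
`C n = X ⊗̂ A ⊗̂ ⋯ ⊗̂ A` (`n` copies of `A`) and the differentials `d n : C (n+1) → C n`. -/
structure HochschildComplex {A : Type} {X : Type u} [NonUnitalRing A] [Module ℂ A] [TopologicalSpace A]
    [AddCommGroup X] [Module ℂ X] [TopologicalSpace X] (M : Bimod A X) where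
  C : ℕ → Type u
  acg : ∀ n, AddCommGroup (C n)
  mod : ∀ n, Module ℂ (C n)
  unif : ∀ n, UniformSpace (C n)
  uag : ∀ n, IsUniformAddGroup (C n)
  lc : ∀ n, PolynormableSpace ℂ (C n)
  t2 : ∀ n, T2Space (C n)
  complete : ∀ n, CompleteSpace (C n)
  τ : ∀ n, X →ₗ[ℂ] MultilinearMap ℂ (fun _ : Fin n => A) (C n)
  isTensor : ∀ n, IsProjTensor A X n (C n) (τ n)
  d : ∀ n, C (n + 1) →L[ℂ] C n
  d_apply : ∀ (n : ℕ) (x : X) (a : Fin (n + 1) → A),
    d n (τ (n + 1) x a) =
      τ n (M.r x (a 0)) (Fin.tail a)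
      + ∑ i : Fin n, (-1 : ℂ) ^ ((i : ℕ) + 1) • τ n x (Fin.contractNth i.castSucc (· * ·) a)
      + (-1 : ℂ) ^ (n + 1) • τ n (M.l (a (Fin.last n)) x) (Fin.init a)

attribute [instance] HochschildComplex.acg HochschildComplex.mod HochschildComplex.unif
  HochschildComplex.uag HochschildComplex.lc HochschildComplex.t2 HochschildComplex.complete

/-- `H_k(A, X) = 0` for `k = j + 1`, that is `Ker (d j) = Im (d (j+1))`: an element of `C (j+1)` is
killed by `d j` exactly when it is in the image of `d (j+1)`. -/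
def HomologyVanishes {A : Type} {X : Type u} [NonUnitalRing A] [Module ℂ A] [TopologicalSpace A]
    [AddCommGroup X] [Module ℂ X] [TopologicalSpace X] {M : Bimod A X}
    (H : HochschildComplex M) (j : ℕ) : Prop :=
  ∀ z : H.C (j + 1), H.d j z = 0 ↔ ∃ w : H.C (j + 2), H.d (j + 1) w = z

/-- Amenability: for every complete Hausdorff locally convex bimodule `X`, `H_1(A, X) = 0` and
`H_0(A, X) = C 0 / Im (d 0)` is Hausdorff, i.e. `Im (d 0)` is closed. -/
def Amenable (A : Type) [NonUnitalRing A] [Module ℂ A] [TopologicalSpace A] : Prop :=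
  ∀ (X : Type u) [AddCommGroup X] [Module ℂ X] [UniformSpace X] [IsUniformAddGroup X]
    [PolynormableSpace ℂ X] [T2Space X] [CompleteSpace X] (M : Bimod A X)
    (H : HochschildComplex M),
    HomologyVanishes H 0 ∧ IsClosed (Set.range (H.d 0))

end Pool.Agent.Helper205.Hoch
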