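import Mathlib
import Pool.Agent.Helper205.HochDefs

set_option autoImplicit false

namespace Pool.Agent.Helper205.Hoch

universe u v

open Filter Topology Set
open scoped NNReal

section K

variable (ι : Type) (X : Type u) [AddCommGroup X] [Module ℂ X] [TopologicalSpace X]

/-- functions `ι → X` which are finitely supported modulo every continuous seminorm -/
def Ksub : Submodule ℂ (ι → X) where
  carrier := {f | ∀ p : Seminorm ℂ X, Continuous p → {i | p (f i) ≠ 0}.Finite}
  add_mem' := by
    intro f g hf hg p hp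
    refine ((hf p hp).union (hg p hp)).subset ?_
    intro i hi
    by_contra h
    simp only [mem_union, mem_ofPred_eq, not_or, not_not] at h
    have : p (f i + g i) ≤ 0 := (map_add_le_add p _ _).trans (by rw [h.1, h.2, add_zero])
    exact hi (le_antisymm this (apply_nonneg p _))
  zero_mem' := by
    intro p _
    simp
  smul_mem' := by
    intro c f hf p hp
    refine (hf p hp).subset ?_
    intro i hi h
    apply hi
    simp only [Pi.smul_apply, map_smul_eq_mul, h, mul_zero]

/-- the space of these functions -/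
def K : Type u := ↥(Ksub ι X)

noncomputable instance : AddCommGroup (K ι X) := inferInstanceAs (AddCommGroup ↥(Ksub ι X))
noncomputable instance : Module ℂ (K ι X) := inferInstanceAs (Module ℂ ↥(Ksub ι X))

variable {ι X}

namespace K

/-- coordinates -/
def co (f : K ι X) : ι → X := f.1

/-- constructor -/
def mk (f : ι → X) (h : ∀ p : Seminorm ℂ X, Continuous p → {i | p (f i) ≠ 0}.Finite) : K ι X :=
  ⟨f, h⟩

@[simp] theorem co_mk (f : ι → X) (h : ∀ p : Seminorm ℂ X, Continuous p → {i | p (f i) ≠ 0}.Finite) :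
    (mk f h).co = f := rfl

@[ext] theorem ext {f g : K ι X} (h : ∀ i, f.co i = g.co i) : f = g :=
  Subtype.ext (funext h)

@[simp] theorem co_add (f g : K ι X) (i : ι) : (f + g).co i = f.co i + g.co i := rfl
@[simp] theorem co_sub (f g : K ι X) (i : ι) : (f - g).co i = f.co i - g.co i := rfl
@[simp] theorem co_neg (f : K ι X) (i : ι) : (-f).co i = -f.co i := rfl
@[simp] theorem co_zero (i : ι) : (0 : K ι X).co i = 0 := rfl
@[simp] theorem co_smul (a : ℂ) (f : K ι X) (i : ι) : (a • f).co i = a • f.co i := rfl

theorem fin (f : K ι X) {p : Seminorm ℂ X} (hp : Continuous p) : {i | p (f.co i) ≠ 0}.Finite :=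
  f.2 p hp

theorem summable (f : K ι X) {p : Seminorm ℂ X} (hp : Continuous p) (c : ι → ℝ≥0) :
    Summable fun i => (c i : ℝ) * p (f.co i) := by
  apply summable_of_hasFiniteSupport
  refine (f.fin hp).subset ?_
  intro i hi h
  apply hi
  simp only [h, mul_zero]

end K

/-- index type for the seminorms -/
abbrev Idx (ι : Type) (X : Type u) [AddCommGroup X] [Module ℂ X] [TopologicalSpace X] : Type u :=
  {p : Seminorm ℂ X // Continuous p} × (ι → ℝ≥0)

/-- the seminorms -/
noncomputable def nK (j : Idx ι X) : Seminorm ℂ (K ι X) :=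
  Seminorm.of (fun f => ∑' i, (j.2 i : ℝ) * j.1.1 (f.co i))
    (by
      intro f g
      rw [← Summable.tsum_add (f.summable j.1.2 j.2) (g.summable j.1.2 j.2)]
      refine Summable.tsum_le_tsum ?_ ((f + g).summable j.1.2 j.2)
        ((f.summable j.1.2 j.2).add (g.summable j.1.2 j.2))
      intro i
      rw [← mul_add]
      exact mul_le_mul_of_nonneg_left (map_add_le_add _ _ _) (j.2 i).2)
    (by
      intro a f
      rw [← tsum_mul_left]
      congr 1
      ext i
      simp only [K.co_smul, map_smul_eq_mul]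
      ring)

theorem nK_apply (j : Idx ι X) (f : K ι X) :
    nK j f = ∑' i, (j.2 i : ℝ) * j.1.1 (f.co i) := rfl

theorem le_nK (j : Idx ι X) (f : K ι X) (i : ι) : (j.2 i : ℝ) * j.1.1 (f.co i) ≤ nK j f := by
  rw [nK_apply]
  exact (f.summable j.1.2 j.2).le_tsum i
    fun k _ => mul_nonneg (j.2 k).2 (apply_nonneg _ _)

theorem sum_le_nK (j : Idx ι X) (f : K ι X) (s : Finset ι) :
    ∑ i ∈ s, (j.2 i : ℝ) * j.1.1 (f.co i) ≤ nK j f := by
  rw [nK_apply]
  exact (f.summable j.1.2 j.2).sum_le_tsum s
    fun k _ => mul_nonneg (j.2 k).2 (apply_nonneg _ _)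

theorem nK_le_of_sum_le (j : Idx ι X) (f : K ι X) (b : ℝ)
    (h : ∀ s : Finset ι, ∑ i ∈ s, (j.2 i : ℝ) * j.1.1 (f.co i) ≤ b) : nK j f ≤ b := by
  rw [nK_apply]
  exact (f.summable j.1.2 j.2).tsum_le_of_sum_le h

noncomputable instance : UniformSpace (K ι X) :=
  ⨅ j : Idx ι X, (nK j).toSeminormedAddCommGroup.toUniformSpace

instance : IsUniformAddGroup (K ι X) :=
  isUniformAddGroup_iInf fun j => @SeminormedAddCommGroup.to_isUniformAddGroup _
    (nK j).toSeminormedAddCommGroup

theorem withSem : WithSeminorms (nK (ι := ι) (X := X)) := by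
  rw [SeminormFamily.withSeminorms_iff_uniformSpace_eq_iInf]
  rfl

instance : PolynormableSpace ℂ (K ι X) := withSem.toPolynormableSpace

instance : ContinuousSMul ℂ (K ι X) := withSem.continuousSMul

theorem continuous_nK (j : Idx ι X) : Continuous (nK j) := withSem.continuous_seminorm j

/-- domination of finitely many of the seminorms by one -/
theorem exists_dom (s : Finset (Idx ι X)) : ∃ j : Idx ι X, ∀ f, s.sup nK f ≤ nK j f := by
  classical
  induction s using Finset.induction_on with
  | empty =>
    refine ⟨(⟨0, ?_⟩, 0), fun f => ?_⟩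
    · exact continuous_const
    · rw [Finset.sup_empty]
      exact apply_nonneg _ _
  | insert a s _ ih =>
    obtain ⟨j, hj⟩ := ih
    refine ⟨(⟨a.1.1 + j.1.1, a.1.2.add j.1.2⟩, a.2 + j.2), fun f => ?_⟩
    rw [Finset.sup_insert, Seminorm.sup_apply]
    have hb : ∀ i, (((a.2 + j.2) i : ℝ≥0) : ℝ) = a.2 i + j.2 i := fun i => by simp
    apply max_le
    · refine nK_le_of_sum_le _ _ _ fun t => ?_
      refine le_trans ?_ (sum_le_nK _ f t)
      refine Finset.sum_le_sum fun i _ => ?_
      rw [hb]
      have h1 := (a.2 i).2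
      have h2 := (j.2 i).2
      have h3 := apply_nonneg a.1.1 (f.co i)
      have h4 := apply_nonneg j.1.1 (f.co i)
      have h5 : (a.1.1 + j.1.1) (f.co i) = a.1.1 (f.co i) + j.1.1 (f.co i) := rfl
      rw [h5]
      have h6 : (0:ℝ) ≤ (a.2 i : ℝ) := h1
      have h7 : (0:ℝ) ≤ (j.2 i : ℝ) := h2
      nlinarith [mul_nonneg h6 h4, mul_nonneg h7 h3, mul_nonneg h7 h4]
    · refine (hj f).trans ?_
      refine nK_le_of_sum_le _ _ _ fun t => ?_
      refine le_trans ?_ (sum_le_nK _ f t)
      refine Finset.sum_le_sum fun i _ => ?_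
      rw [hb]
      have h1 := (a.2 i).2
      have h2 := (j.2 i).2
      have h3 := apply_nonneg a.1.1 (f.co i)
      have h4 := apply_nonneg j.1.1 (f.co i)
      have h5 : (a.1.1 + j.1.1) (f.co i) = a.1.1 (f.co i) + j.1.1 (f.co i) := rfl
      rw [h5]
      have h6 : (0:ℝ) ≤ (a.2 i : ℝ) := h1
      have h7 : (0:ℝ) ≤ (j.2 i : ℝ) := h2
      nlinarith [mul_nonneg h6 h4, mul_nonneg h6 h3, mul_nonneg h7 h3]

/-- coordinate maps are continuous -/
noncomputable def coL [PolynormableSpace ℂ X] (i : ι) : K ι X →L[ℂ] X where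
  toFun f := f.co i
  map_add' _ _ := rfl
  map_smul' _ _ := rfl
  cont := by
    classical
    have h := (PolynormableSpace.withSeminorms ℂ X)
    let L : K ι X →ₗ[ℂ] X := { toFun := fun f => f.co i, map_add' := fun _ _ => rfl, map_smul' := fun _ _ => rfl }
    show Continuous L
    refine h.continuous_of_continuous_comp L ?_
    intro p
    refine Seminorm.continuous_of_le (continuous_nK (p, fun _ => 1)) ?_
    intro f
    have := le_nK (p, fun _ => 1) f i
    show p.1 (f.co i) ≤ _
    simpa using this

@[simp] theorem coL_apply [PolynormableSpace ℂ X] (i : ι) (f : K ι X) : coL i f = f.co i := rfl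

theorem exists_seminorm_ne [PolynormableSpace ℂ X] [T2Space X] {x : X} (hx : x ≠ 0) :
    ∃ p : Seminorm ℂ X, Continuous p ∧ p x ≠ 0 := by
  obtain ⟨p, hp⟩ := (PolynormableSpace.withSeminorms ℂ X).separating_of_T1 x hx
  exact ⟨p.1, p.2, hp⟩

instance [PolynormableSpace ℂ X] [T2Space X] : T2Space (K ι X) := by
  have h1 : T1Space (K ι X) := by
    apply withSem.T1_of_separating
    intro f hf
    have : ∃ i, f.co i ≠ 0 := by
      by_contra h
      push Not at h
      exact hf (K.ext h)
    obtain ⟨i, hi⟩ := this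
    obtain ⟨p, hp, hpx⟩ := exists_seminorm_ne hi
    refine ⟨(⟨p, hp⟩, fun _ => 1), ?_⟩
    intro h0
    have := le_nK (⟨p, hp⟩, fun _ => 1) f i
    rw [h0] at this
    apply hpx
    refine le_antisymm ?_ (apply_nonneg _ _)
    simpa using this
  have : IsTopologicalAddGroup (K ι X) := withSem.topologicalAddGroup
  infer_instance

/-- single -/
noncomputable def K.single [DecidableEq ι] (i : ι) (x : X) : K ι X :=
  K.mk (Pi.single i x) (by
    intro p _
    refine (Set.finite_singleton i).subset ?_
    intro k hk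
    by_contra h
    apply hk
    rw [Pi.single_eq_of_ne h]
    exact map_zero p)

theorem K.single_co [DecidableEq ι] (i k : ι) (x : X) : (K.single i x).co k = if k = i then x else 0 := by
  show (Pi.single i x : ι → X) k = _
  rw [Pi.single_apply]

theorem nK_single [DecidableEq ι] (j : Idx ι X) (i : ι) (x : X) :
    nK j (K.single i x) = j.2 i * j.1.1 x := by
  rw [nK_apply, tsum_eq_single i]
  · rw [K.single_co, if_pos rfl]
  · intro k hk
    rw [K.single_co, if_neg hk, map_zero, mul_zero]

/-- single as a continuous linear map -/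
noncomputable def singleL [DecidableEq ι] [IsTopologicalAddGroup X] (i : ι) : X →L[ℂ] K ι X where
  toFun x := K.single i x
  map_add' x y := by
    ext k
    simp only [K.single_co, K.co_add]
    split_ifs <;> simp
  map_smul' a x := by
    ext k
    simp only [K.single_co, K.co_smul, RingHom.id_apply]
    split_ifs <;> simp
  cont := by
    let L : X →ₗ[ℂ] K ι X := { toFun := fun x => K.single i x, map_add' := by
                                intro x y
                                ext k
                                simp only [K.single_co, K.co_add]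
                                split_ifs <;> simp, map_smul' := by
                                intro a x
                                ext k
                                simp only [K.single_co, K.co_smul, RingHom.id_apply]
                                split_ifs <;> simp }
    show Continuous L
    refine withSem.continuous_of_continuous_comp L ?_
    intro j
    have : ((nK j).comp L : X → ℝ) = fun x => (j.2 i : ℝ) * j.1.1 x := by
      ext x
      exact nK_single j i x
    rw [this]
    exact continuous_const.mul j.1.2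

@[simp] theorem singleL_apply [DecidableEq ι] [IsTopologicalAddGroup X] (i : ι) (x : X) :
    singleL (ι := ι) i x = K.single i x := rfl

theorem sum_single_co [DecidableEq ι] (f : K ι X) (s : Finset ι) (k : ι) :
    (∑ i ∈ s, K.single i (f.co i)).co k = if k ∈ s then f.co k else 0 := by
  induction s using Finset.induction_on with
  | empty => simp
  | insert a s ha ih =>
    rw [Finset.sum_insert ha, K.co_add, ih, K.single_co]
    by_cases hka : k = a
    · subst hka
      simp [ha]
    · simp [hka]

theorem hasSum_single [DecidableEq ι] (f : K ι X) :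
    HasSum (fun i => K.single i (f.co i)) f := by
  have hT : IsTopologicalAddGroup (K ι X) := withSem.topologicalAddGroup
  rw [HasSum]
  simp only [SummationFilter.unconditional_filter]
  rw [withSem.tendsto_nhds]
  intro j ε hε
  rw [Filter.eventually_atTop]
  refine ⟨(f.fin j.1.2).toFinset, fun s hs => ?_⟩
  have : nK j (∑ i ∈ s, K.single i (f.co i) - f) = 0 := by
    have h0 : ∀ k, (j.2 k : ℝ) * j.1.1 ((∑ i ∈ s, K.single i (f.co i) - f).co k) = 0 := by
      intro k
      rw [K.co_sub, sum_single_co]
      by_cases hk : k ∈ s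
      · rw [if_pos hk, sub_self, map_zero, mul_zero]
      · rw [if_neg hk, zero_sub, map_neg_eq_map]
        have : j.1.1 (f.co k) = 0 := by
          by_contra h
          exact hk (hs ((f.fin j.1.2).mem_toFinset.2 h))
        rw [this, mul_zero]
    rw [nK_apply]
    simp only [h0, tsum_zero]
  rw [this]
  exact hε

end K

theorem sn_sum_le {E : Type u} {κ : Type v} [AddCommGroup E] [Module ℂ E] (q : Seminorm ℂ E) (s : Finset κ)
    (f : κ → E) : q (∑ i ∈ s, f i) ≤ ∑ i ∈ s, q (f i) := by
  classical
  induction s using Finset.induction_on with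
  | empty => simp
  | insert a s ha ih =>
    rw [Finset.sum_insert ha, Finset.sum_insert ha]
    exact (map_add_le_add _ _ _).trans (add_le_add le_rfl ih)

section Lift

variable {ι : Type} {X : Type u} {F : Type v} [AddCommGroup X] [Module ℂ X] [TopologicalSpace X]
  [AddCommGroup F] [Module ℂ F]

/-- equi-domination of a family of linear maps -/
def Adm [TopologicalSpace F] (φ : ι → X →ₗ[ℂ] F) : Prop :=
  ∀ q : Seminorm ℂ F, Continuous q → ∃ p : Seminorm ℂ X, Continuous p ∧ ∃ c : ι → ℝ≥0,
    ∀ i x, q (φ i x) ≤ c i * p x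

variable [UniformSpace F] [IsUniformAddGroup F] [PolynormableSpace ℂ F] [T2Space F]
  [CompleteSpace F]

theorem Adm.summable {φ : ι → X →ₗ[ℂ] F} (h : Adm φ) (f : K ι X) :
    Summable fun i => φ i (f.co i) := by
  rw [summable_iff_vanishing]
  intro e he
  obtain ⟨s, r, hr, hs⟩ := ((PolynormableSpace.withSeminorms ℂ F).mem_nhds_iff 0 e).1 he
  obtain ⟨Q, hQ⟩ : ∃ Q : Seminorm ℂ F,
      Q = s.sup (fun p : {p : Seminorm ℂ F // Continuous p} => p.1) := ⟨_, rfl⟩
  have hq : Continuous Q := by
    rw [hQ]
    exact Seminorm.continuous_finsetSup fun i _ => i.2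
  rw [← hQ] at hs
  obtain ⟨p, hp, c, hc⟩ := h _ hq
  refine ⟨(f.fin hp).toFinset, fun t ht => hs ?_⟩
  rw [Seminorm.mem_ball_zero]
  refine lt_of_le_of_lt ?_ hr
  refine (sn_sum_le _ _ _).trans ?_
  refine Finset.sum_nonpos fun i hi => ?_
  refine (hc i _).trans ?_
  have : p (f.co i) = 0 := by
    by_contra h
    exact (Finset.disjoint_left.1 ht hi) ((f.fin hp).mem_toFinset.2 h)
  rw [this, mul_zero]

/-- the value of the lift -/
noncomputable def liftFun (φ : ι → X →ₗ[ℂ] F) (f : K ι X) : F := ∑' i, φ i (f.co i)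

theorem liftFun_le {φ : ι → X →ₗ[ℂ] F} (h : Adm φ) {q : Seminorm ℂ F} (hq : Continuous q)
    {p : Seminorm ℂ X} (hp : Continuous p) {c : ι → ℝ≥0} (hc : ∀ i x, q (φ i x) ≤ c i * p x)
    (f : K ι X) : q (liftFun φ f) ≤ nK (⟨p, hp⟩, c) f := by
  have h1 : Tendsto (fun s : Finset ι => q (∑ i ∈ s, φ i (f.co i))) atTop (𝓝 (q (liftFun φ f))) := by
    have := (h.summable f).hasSum
    rw [HasSum] at this
    simp only [SummationFilter.unconditional_filter] at this
    exact (hq.tendsto _).comp this
  refine le_of_tendsto' h1 fun s => ?_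
  refine (sn_sum_le _ _ _).trans ?_
  refine le_trans (Finset.sum_le_sum fun i _ => hc i (f.co i)) ?_
  exact sum_le_nK (⟨p, hp⟩, c) f s

/-- the universal lift -/
noncomputable def lift (φ : ι → X →ₗ[ℂ] F) (h : Adm φ) : K ι X →L[ℂ] F where
  toFun := liftFun φ
  map_add' f g := by
    unfold liftFun
    rw [← Summable.tsum_add (h.summable f) (h.summable g)]
    congr 1
    ext i
    rw [K.co_add, map_add]
  map_smul' a f := by
    unfold liftFun
    have hcs : ContinuousSMul ℂ F := (PolynormableSpace.withSeminorms ℂ F).continuousSMul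
    rw [RingHom.id_apply, ← (h.summable f).tsum_const_smul a]
    congr 1
    ext i
    rw [K.co_smul, map_smul]
  cont := by
    let L : K ι X →ₗ[ℂ] F :=
      { toFun := liftFun φ
        map_add' := by
          intro f g
          unfold liftFun
          rw [← Summable.tsum_add (h.summable f) (h.summable g)]
          congr 1
          ext i
          rw [K.co_add, map_add]
        map_smul' := by
          intro a f
          unfold liftFun
          have hcs : ContinuousSMul ℂ F := (PolynormableSpace.withSeminorms ℂ F).continuousSMul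
          rw [RingHom.id_apply, ← (h.summable f).tsum_const_smul a]
          congr 1
          ext i
          rw [K.co_smul, map_smul] }
    have hT : IsTopologicalAddGroup (K ι X) := withSem.topologicalAddGroup
    show Continuous L
    refine (PolynormableSpace.withSeminorms ℂ F).continuous_of_continuous_comp L ?_
    intro q
    obtain ⟨p, hp, c, hc⟩ := h q.1 q.2
    refine Seminorm.continuous_of_le (continuous_nK (⟨p, hp⟩, c)) ?_
    intro f
    exact liftFun_le h q.2 hp hc f

theorem lift_apply (φ : ι → X →ₗ[ℂ] F) (h : Adm φ) (f : K ι X) :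
    lift φ h f = ∑' i, φ i (f.co i) := rfl

theorem lift_single [DecidableEq ι] (φ : ι → X →ₗ[ℂ] F) (h : Adm φ) (i : ι) (x : X) :
    lift φ h (K.single i x) = φ i x := by
  rw [lift_apply, tsum_eq_single i]
  · rw [K.single_co, if_pos rfl]
  · intro k hk
    rw [K.single_co, if_neg hk, map_zero]

/-- two continuous linear maps agreeing on singles are equal -/
theorem K.hom_ext [DecidableEq ι] {F' : Type v} [AddCommGroup F'] [Module ℂ F'] [TopologicalSpace F']
    [T2Space F'] {g g' : K ι X →L[ℂ] F'}
    (h : ∀ i x, g (K.single i x) = g' (K.single i x)) : g = g' := by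
  ext f
  have h1 := (hasSum_single f).mapL g
  have h2 := (hasSum_single f).mapL g'
  have h3 : (fun i => g (K.single i (f.co i))) = fun i => g' (K.single i (f.co i)) := by
    ext i
    exact h i _
  rw [h3] at h1
  exact h1.unique h2

end Lift

section Complete

variable {ι : Type} {X : Type u} [AddCommGroup X] [Module ℂ X] [UniformSpace X]

theorem cauchy_seminorm {𝓕 : Filter (K ι X)} (h𝓕 : Cauchy 𝓕) (j : Idx ι X) {ε : ℝ} (hε : 0 < ε) :
    ∃ S ∈ 𝓕, ∀ g ∈ S, ∀ h ∈ S, nK j (g - h) < ε := by
  have h1 : {q : K ι X × K ι X | nK j (q.1 - q.2) < ε} ∈ uniformity (K ι X) := by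
    rw [uniformity_eq_comap_nhds_zero_swapped]
    refine ⟨{f | nK j f < ε}, ?_, ?_⟩
    · have := (continuous_nK j).tendsto 0
      rw [map_zero] at this
      exact this (Iio_mem_nhds hε)
    · intro q hq
      exact hq
  obtain ⟨S, hS, hSS⟩ := Filter.mem_prod_same_iff.1 (h𝓕.2 h1)
  exact ⟨S, hS, fun g hg h hh => hSS (Set.mk_mem_prod hg hh)⟩

instance [IsUniformAddGroup X]
  [PolynormableSpace ℂ X] [T2Space X] [CompleteSpace X] : CompleteSpace (K ι X) := by
  constructor
  intro 𝓕 h𝓕
  have hne : 𝓕.NeBot := h𝓕.1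
  have hlim : ∀ i, ∃ x, Tendsto (fun f : K ι X => f.co i) 𝓕 (𝓝 x) := by
    intro i
    have hc : Cauchy (map (coL (ι := ι) (X := X) i) 𝓕) :=
      h𝓕.map (coL (ι := ι) (X := X) i).uniformContinuous
    exact CompleteSpace.complete hc
  choose f hf using hlim
  -- the key estimate
  have key : ∀ (j : Idx ι X) (ε : ℝ), 0 < ε → ∃ S ∈ 𝓕, ∀ g ∈ S, ∀ s : Finset ι,
      ∑ i ∈ s, (j.2 i : ℝ) * j.1.1 (f i - g.co i) ≤ ε := by
    intro j ε hε
    obtain ⟨S, hS, hSS⟩ := cauchy_seminorm h𝓕 j hε
    refine ⟨S, hS, fun g hg s => ?_⟩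
    have ht : Tendsto (fun h : K ι X => ∑ i ∈ s, (j.2 i : ℝ) * j.1.1 (h.co i - g.co i)) 𝓕
        (𝓝 (∑ i ∈ s, (j.2 i : ℝ) * j.1.1 (f i - g.co i))) := by
      refine tendsto_finsetSum _ fun i _ => ?_
      refine Tendsto.const_mul _ ?_
      exact (j.1.2.tendsto _).comp ((hf i).sub tendsto_const_nhds)
    refine le_of_tendsto ht ?_
    filter_upwards [hS] with h hh
    refine le_trans ?_ (hSS h hh g hg).le
    exact sum_le_nK j (h - g) s
  have hfin : ∀ p : Seminorm ℂ X, Continuous p → {i | p (f i) ≠ 0}.Finite := by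
    intro p hp
    classical
    obtain ⟨S, hS, hSS⟩ := key (⟨p, hp⟩, fun i => ⟨(p (f i))⁻¹, inv_nonneg.2 (apply_nonneg _ _)⟩)
      (1/2) (by norm_num)
    obtain ⟨g, hg⟩ := hne.nonempty_of_mem hS
    refine (g.fin hp).subset ?_
    intro i hi h0
    have h1 := hSS g hg {i}
    rw [Finset.sum_singleton] at h1
    have h2 : p (f i) ≤ p (f i - g.co i) := by
      have := map_add_le_add p (f i - g.co i) (g.co i)
      rw [sub_add_cancel, h0, add_zero] at this
      exact this
    have h3 : 0 < p (f i) := lt_of_le_of_ne (apply_nonneg _ _) (Ne.symm hi)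
    have h4 : (p (f i))⁻¹ * p (f i - g.co i) ≤ 1/2 := h1
    have h5 : (p (f i))⁻¹ * p (f i) ≤ 1/2 :=
      (mul_le_mul_of_nonneg_left h2 (inv_nonneg.2 h3.le)).trans h4
    rw [inv_mul_cancel₀ h3.ne'] at h5
    norm_num at h5
  refine ⟨K.mk f hfin, ?_⟩
  have hT : IsTopologicalAddGroup (K ι X) := withSem.topologicalAddGroup
  have ht : Tendsto id 𝓕 (𝓝 (K.mk f hfin)) := by
    rw [withSem.tendsto_nhds]
    intro j ε hε
    obtain ⟨S, hS, hSS⟩ := key j (ε / 2) (half_pos hε)
    filter_upwards [hS] with g hg
    refine lt_of_le_of_lt ?_ (half_lt_self hε)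
    refine nK_le_of_sum_le _ _ _ fun s => ?_
    refine le_trans (le_of_eq ?_) (hSS g hg s)
    refine Finset.sum_congr rfl fun i _ => ?_
    rw [K.co_sub, K.co_mk, id, ← map_neg_eq_map, neg_sub]
  exact ht

end Complete

end Pool.Agent.Helper205.Hoch
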