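import Mathlib
import Pool.Agent.Helper205.HochK

set_option autoImplicit false

namespace Pool.Agent.Helper205.Hoch

universe u v w t

open Filter Topology Set
open scoped NNReal

section Bilin

variable {E : Type u} {F : Type v} {G : Type w} [AddCommGroup E] [Module ℂ E] [TopologicalSpace E] [IsTopologicalAddGroup E]
  [AddCommGroup F] [Module ℂ F] [TopologicalSpace F] [IsTopologicalAddGroup F]
  [AddCommGroup G] [Module ℂ G] [TopologicalSpace G]

theorem bilin_continuous {κ : Type t} {Q : κ → Seminorm ℂ G} (hQ : WithSeminorms Q)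
    (b : E →ₗ[ℂ] F →ₗ[ℂ] G)
    (h : ∀ k, ∃ p : Seminorm ℂ E, Continuous p ∧ ∃ r : Seminorm ℂ F, Continuous r ∧
      ∀ x y, Q k (b x y) ≤ p x * r y) :
    Continuous fun z : E × F => b z.1 z.2 := by
  have hT : IsTopologicalAddGroup G := hQ.topologicalAddGroup
  rw [continuous_iff_continuousAt]
  rintro ⟨x0, y0⟩
  rw [ContinuousAt, hQ.tendsto_nhds]
  intro k ε hε
  obtain ⟨p, hp, r, hr, hpr⟩ := h k
  have hcont : Continuous fun z : E × F => p (z.1 - x0) * r z.2 + p x0 * r (z.2 - y0) := by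
    refine ((hp.comp (continuous_fst.sub continuous_const)).mul (hr.comp continuous_snd)).add ?_
    exact continuous_const.mul (hr.comp (continuous_snd.sub continuous_const))
  have ht := hcont.tendsto (x0, y0)
  simp only [sub_self, map_zero, zero_mul, mul_zero, add_zero] at ht
  filter_upwards [ht (Iio_mem_nhds hε)] with z hz
  refine lt_of_le_of_lt ?_ hz
  have : b z.1 z.2 - b x0 y0 = b (z.1 - x0) z.2 + b x0 (z.2 - y0) := by
    simp only [map_sub, LinearMap.sub_apply]
    abel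
  show Q k (b z.1 z.2 - b x0 y0) ≤ _
  rw [this]
  exact (map_add_le_add _ _ _).trans (add_le_add (hpr _ _) (hpr _ _))

/-- a seminorm ball inside a neighbourhood of zero -/
theorem exists_ball [PolynormableSpace ℂ E] {U : Set E} (hU : U ∈ 𝓝 (0 : E)) :
    ∃ p : Seminorm ℂ E, Continuous p ∧ ∃ r : ℝ, 0 < r ∧ ∀ x, p x < r → x ∈ U := by
  obtain ⟨s, r, hr, hs⟩ := ((PolynormableSpace.withSeminorms ℂ E).mem_nhds_iff 0 U).1 hU
  obtain ⟨Q, hQ⟩ : ∃ Q : Seminorm ℂ E,
      Q = s.sup (fun p : {p : Seminorm ℂ E // Continuous p} => p.1) := ⟨_, rfl⟩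
  have hq : Continuous Q := by
    rw [hQ]
    exact Seminorm.continuous_finsetSup fun i _ => i.2
  rw [← hQ] at hs
  exact ⟨Q, hq, r, hr, fun x hx => hs (by rwa [Seminorm.mem_ball_zero])⟩

/-- from scaling in one variable to a bound -/
theorem bound_of_scale (p : Seminorm ℂ E) {r C v : ℝ} (hr : 0 < r) (hC : 0 ≤ C) (hv : 0 ≤ v) (x : E)
    (h : ∀ s : ℝ, 0 < s → p x < s * r → v ≤ s * C) : v ≤ (2 * C / r) * p x := by
  rcases (apply_nonneg p x).eq_or_lt with h0 | h0
  · rw [← h0, mul_zero]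
    by_contra hlt
    rw [not_le] at hlt
    have := h (v / (2 * (C + 1))) (by positivity) (by rw [← h0]; positivity)
    have h2 : v / (2 * (C + 1)) * C < v := by
      rw [div_mul_eq_mul_div, div_lt_iff₀ (by positivity)]
      nlinarith
    linarith
  · have := h (2 * p x / r) (by positivity) (by
      rw [div_mul_cancel₀ _ hr.ne']
      linarith)
    calc v ≤ 2 * p x / r * C := this
      _ = (2 * C / r) * p x := by ring

end Bilin

section Mult

variable {A : Type u} {X : Type v} {F : Type w} [AddCommGroup A] [Module ℂ A] [TopologicalSpace A] [IsTopologicalAddGroup A]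
  [PolynormableSpace ℂ A]
  [AddCommGroup X] [Module ℂ X] [TopologicalSpace X] [IsTopologicalAddGroup X]
  [PolynormableSpace ℂ X]
  [AddCommGroup F] [Module ℂ F] [TopologicalSpace F]

theorem mult_bound {n : ℕ} (φ : X →ₗ[ℂ] MultilinearMap ℂ (fun _ : Fin n => A) F)
    (hφ : Continuous fun q : X × (Fin n → A) => φ q.1 q.2) (q : Seminorm ℂ F) (hq : Continuous q) :
    ∃ p : Seminorm ℂ X, Continuous p ∧ ∃ c : (Fin n → A) → ℝ≥0, ∀ a x, q (φ x a) ≤ c a * p x := by
  have h1 : {z : X × (Fin n → A) | q (φ z.1 z.2) < 1} ∈ 𝓝 ((0 : X), (0 : Fin n → A)) := by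
    have ht := (hq.comp hφ).tendsto ((0 : X), (0 : Fin n → A))
    simp only [Function.comp, map_zero, MultilinearMap.zero_apply] at ht
    exact ht (Iio_mem_nhds one_pos)
  rw [nhds_prod_eq, mem_prod_iff] at h1
  obtain ⟨V, hV, W, hW, hVW⟩ := h1
  obtain ⟨p, hp, r, hr, hpr⟩ := exists_ball hV
  rw [nhds_pi, Filter.mem_pi] at hW
  obtain ⟨I, hI, t, ht, htW⟩ := hW
  have hb : ∀ i, ∃ P : Seminorm ℂ A, Continuous P ∧ ∃ ρ : ℝ, 0 < ρ ∧ ∀ x, P x < ρ → x ∈ t i :=
    fun i => exists_ball (ht i)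
  choose P hP ρ hρ hPρ using hb
  -- scaling constants
  let T : (Fin n → A) → Fin n → ℝ := fun a i => (P i (a i) + 1) / ρ i
  have hT : ∀ a i, 0 < T a i := fun a i => by
    have := apply_nonneg (P i) (a i)
    have := hρ i
    positivity
  refine ⟨p, hp, fun a => ⟨2 * (∏ i, T a i) / r, ?_⟩, ?_⟩
  · have : 0 < ∏ i, T a i := Finset.prod_pos fun i _ => hT a i
    positivity
  · intro a x
    have hpos : 0 < ∏ i, T a i := Finset.prod_pos fun i _ => hT a i
    refine bound_of_scale p hr hpos.le (apply_nonneg _ _) x ?_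
    intro s hs hxs
    have hmem : (((s : ℂ)⁻¹ • x, fun i => ((T a i : ℝ) : ℂ)⁻¹ • a i) : X × (Fin n → A)) ∈ V ×ˢ W := by
      refine ⟨hpr _ ?_, htW ?_⟩
      · show p ((s : ℂ)⁻¹ • x) < r
        rw [map_smul_eq_mul, norm_inv, Complex.norm_real, Real.norm_eq_abs, abs_of_pos hs,
          inv_mul_lt_iff₀ hs]
        exact hxs
      · intro i _
        apply hPρ
        show P i (((T a i : ℝ) : ℂ)⁻¹ • a i) < ρ i
        rw [map_smul_eq_mul, norm_inv, Complex.norm_real, Real.norm_eq_abs, abs_of_pos (hT a i),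
          inv_mul_lt_iff₀ (hT a i)]
        show P i (a i) < (P i (a i) + 1) / ρ i * ρ i
        rw [div_mul_cancel₀ _ (hρ i).ne']
        linarith
    have hlt := hVW hmem
    have hlt' : q (φ ((s : ℂ)⁻¹ • x) fun i => ((T a i : ℝ) : ℂ)⁻¹ • a i) < 1 := hlt
    rw [map_smul, MultilinearMap.smul_apply, MultilinearMap.map_smul_univ, map_smul_eq_mul,
      map_smul_eq_mul, norm_inv, Complex.norm_real, Real.norm_eq_abs, abs_of_pos hs, norm_prod] at hlt'
    have hprod : (∏ i, ‖((T a i : ℝ) : ℂ)⁻¹‖) = (∏ i, T a i)⁻¹ := by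
      rw [← Finset.prod_inv_distrib]
      refine Finset.prod_congr rfl fun i _ => ?_
      rw [norm_inv, Complex.norm_real, Real.norm_eq_abs, abs_of_pos (hT a i)]
    rw [hprod, inv_mul_lt_iff₀ hs, mul_one, inv_mul_lt_iff₀ hpos] at hlt'
    linarith

/-- the same for bilinear maps, second variable fixed -/
theorem bilin_bound (b : X →ₗ[ℂ] A →ₗ[ℂ] F)
    (hb : Continuous fun q : X × A => b q.1 q.2) (q : Seminorm ℂ F) (hq : Continuous q) :
    ∃ p : Seminorm ℂ X, Continuous p ∧ ∃ c : A → ℝ≥0, ∀ a x, q (b x a) ≤ c a * p x := by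
  let φ : X →ₗ[ℂ] MultilinearMap ℂ (fun _ : Fin 1 => A) F :=
    { toFun := fun x => (b x).compMultilinearMap
        ((LinearMap.id : A →ₗ[ℂ] A).compMultilinearMap (MultilinearMap.ofSubsingleton ℂ A A (0 : Fin 1) LinearMap.id))
      map_add' := fun x y => by ext; simp
      map_smul' := fun c x => by ext; simp }
  have hφ : ∀ x a, φ x a = b x (a 0) := fun x a => rfl
  obtain ⟨p, hp, c, hc⟩ := mult_bound φ (by
    simp only [hφ]
    exact hb.comp (continuous_fst.prodMk ((continuous_apply 0).comp continuous_snd))) q hq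
  exact ⟨p, hp, fun a => c fun _ => a, fun a x => by simpa only [hφ] using hc (fun _ => a) x⟩

end Mult

end Pool.Agent.Helper205.Hoch
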