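import Mathlib
import Pool.Agent.Helper205.HochA

set_option autoImplicit false

namespace Pool.Agent.Helper205.Hoch

universe u v w t

open Filter Topology Set
open scoped NNReal

/-- the algebra: finitely supported sequences, as `K ℕ ℂ` -/
abbrev A0 : Type := K ℕ ℂ

/-- the norm as a seminorm on `ℂ` -/
noncomputable def nC : {p : Seminorm ℂ ℂ // Continuous p} := ⟨normSeminorm ℂ ℂ, continuous_norm⟩

theorem nC_apply (z : ℂ) : nC.1 z = ‖z‖ := rfl

theorem A0.finsupp (a : A0) : {i | a.co i ≠ 0}.Finite := by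
  refine (a.fin nC.2).subset ?_
  intro i hi h
  apply hi
  rw [nC_apply, norm_eq_zero] at h
  exact h

noncomputable instance : Mul A0 where
  mul a b := K.mk (fun i => a.co i * b.co i) (by
    intro p _
    refine (A0.finsupp a).subset ?_
    intro i hi h
    apply hi
    show p (a.co i * b.co i) = 0
    rw [h, zero_mul, map_zero])

@[simp] theorem A0.mul_co (a b : A0) (i : ℕ) : (a * b).co i = a.co i * b.co i := rfl

noncomputable instance : NonUnitalRing A0 where
  left_distrib a b c := by ext i; simp [mul_add]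
  right_distrib a b c := by ext i; simp [add_mul]
  zero_mul a := by ext i; simp
  mul_zero a := by ext i; simp
  mul_assoc a b c := by ext i; simp [mul_assoc]

instance : IsScalarTower ℂ A0 A0 where
  smul_assoc c a b := by
    ext i
    simp only [K.co_smul, A0.mul_co, smul_eq_mul]
    ring

instance : SMulCommClass ℂ A0 A0 where
  smul_comm c a b := by
    ext i
    simp only [K.co_smul, A0.mul_co, smul_eq_mul]
    ring

/-- multiplication as a bilinear map -/
noncomputable def mulB : A0 →ₗ[ℂ] A0 →ₗ[ℂ] A0 :=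
  LinearMap.mk₂ ℂ (fun a b => a * b) (fun a b c => add_mul a b c) (fun c a b => smul_mul_assoc c a b)
    (fun a b c => mul_add a b c) (fun c a b => mul_smul_comm c a b)


instance : ContinuousMul A0 where
  continuous_mul := by
    refine bilin_continuous (E := A0) (F := A0) (G := A0) withSem mulB ?_
    rintro j
    refine ⟨nK j, continuous_nK j, nK (nC, fun _ => 1), continuous_nK _, fun x y => ?_⟩
    refine nK_le_of_sum_le _ _ _ fun s => ?_
    have h1 : ∀ i ∈ s, (j.2 i : ℝ) * j.1.1 ((x * y).co i) ≤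
        ((j.2 i : ℝ) * j.1.1 (x.co i)) * nK (nC, fun _ => 1) y := by
      intro i _
      have h2 : j.1.1 ((x * y).co i) = ‖y.co i‖ * j.1.1 (x.co i) := by
        rw [A0.mul_co, mul_comm, ← smul_eq_mul, map_smul_eq_mul]
      have h3 := le_nK (nC, fun _ => 1) y i
      rw [h2]
      have h4 : ‖y.co i‖ ≤ nK (nC, fun _ => 1) y := by simpa [nC_apply] using h3
      have h5 : (0:ℝ) ≤ (j.2 i : ℝ) := (j.2 i).2
      have h6 := apply_nonneg j.1.1 (x.co i)
      calc (j.2 i : ℝ) * (‖y.co i‖ * j.1.1 (x.co i)) = ((j.2 i : ℝ) * j.1.1 (x.co i)) * ‖y.co i‖ := by ring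
        _ ≤ _ := mul_le_mul_of_nonneg_left h4 (mul_nonneg h5 h6)
    refine (Finset.sum_le_sum h1).trans ?_
    rw [← Finset.sum_mul]
    exact mul_le_mul_of_nonneg_right (sum_le_nK j x s) (apply_nonneg _ _)

/-- the idempotents -/
noncomputable def e (i : ℕ) : A0 := K.single i 1

theorem e_co (i k : ℕ) : (e i).co k = if k = i then 1 else 0 := K.single_co i k 1

theorem e_mul_self (i : ℕ) : e i * e i = e i := by
  ext k
  rw [A0.mul_co, e_co]
  split_ifs <;> simp

theorem e_mul_ne {i j : ℕ} (h : i ≠ j) : e i * e j = 0 := by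
  ext k
  rw [A0.mul_co, e_co, e_co, K.co_zero]
  by_cases h1 : k = i
  · by_cases h2 : k = j
    · exact absurd (h1.symm.trans h2) h
    · simp [h2]
  · simp [h1]

theorem A0.eq_sum (a : A0) : a = ∑ i ∈ (A0.finsupp a).toFinset, a.co i • e i := by
  have h : ∀ i, a.co i • e i = K.single i (a.co i) := by
    intro i
    ext k
    rw [K.co_smul, e_co, K.single_co]
    split_ifs <;> simp
  simp only [h]
  ext k
  rw [sum_single_co]
  split_ifs with hk
  · rfl
  · by_contra h0
    exact hk ((A0.finsupp a).mem_toFinset.2 h0)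

theorem A0.hom_ext {Y : Type u} [AddCommGroup Y] [Module ℂ Y] {f g : A0 →ₗ[ℂ] Y}
    (h : ∀ i, f (e i) = g (e i)) : f = g := by
  ext a
  rw [A0.eq_sum a, map_sum, map_sum]
  refine Finset.sum_congr rfl fun i _ => ?_
  rw [map_smul, map_smul, h]

/-- domination of a double family of weights by a product -/
theorem dom_exists {κ : Type} [Encodable κ] (c : ℕ → κ → ℝ≥0) :
    ∃ (m : ℕ → ℝ≥0) (m' : κ → ℝ≥0), ∀ i k, c i k ≤ m i * m' k := by
  let D : ℕ → ℕ → ℝ≥0 := fun i j => match (Encodable.decode (α := κ) j) with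
    | some k => c i k
    | none => 0
  have hD : ∀ i k, D i (Encodable.encode k) = c i k := by
    intro i k
    simp only [D, Encodable.encodek]
  let M : ℕ → ℝ≥0 := fun N => 1 + ∑ i ∈ Finset.range (N + 1), ∑ j ∈ Finset.range (N + 1), D i j
  have hM1 : ∀ N, 1 ≤ M N := fun N => le_self_add
  have hMD : ∀ i j N, i ≤ N → j ≤ N → D i j ≤ M N := by
    intro i j N hi hj
    have h1 : D i j ≤ ∑ j ∈ Finset.range (N + 1), D i j :=
      Finset.single_le_sum (f := fun j => D i j) (fun _ _ => zero_le) (Finset.mem_range.2 (by omega))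
    have h2 : (∑ j ∈ Finset.range (N + 1), D i j) ≤
        ∑ i ∈ Finset.range (N + 1), ∑ j ∈ Finset.range (N + 1), D i j :=
      Finset.single_le_sum (f := fun i => ∑ j ∈ Finset.range (N + 1), D i j) (fun _ _ => zero_le)
        (Finset.mem_range.2 (by omega))
    exact (h1.trans h2).trans le_add_self
  refine ⟨M, fun k => M (Encodable.encode k), fun i k => ?_⟩
  rw [← hD]
  rcases le_total i (Encodable.encode k) with h | h
  · exact (hMD _ _ _ h le_rfl).trans (le_mul_of_one_le_left zero_le (hM1 _))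
  · exact (hMD _ _ _ le_rfl h).trans (le_mul_of_one_le_right zero_le (hM1 _))

end Pool.Agent.Helper205.Hoch
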