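import Mathlib
import Pool.Agent.Helper205.HochB

set_option autoImplicit false

namespace Pool.Agent.Helper205.Hoch

universe u v w t

open Filter Topology Set
open scoped NNReal

/-- words of length `n` in the letters `ℕ` -/
abbrev W (n : ℕ) : Type := Fin n → ℕ

theorem W.cases {n : ℕ} (J : W (n + 1)) : ∃ (a : ℕ) (w : W n), J = Fin.cons a w :=
  ⟨J 0, Fin.tail J, (Fin.cons_self_tail J).symm⟩

section Ins

variable {X : Type u} [AddCommGroup X] [Module ℂ X] [TopologicalSpace X]

/-- prepend an algebra element -/
noncomputable def ins {n : ℕ} : A0 →ₗ[ℂ] K (W n) X →ₗ[ℂ] K (W (n + 1)) X :=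
  LinearMap.mk₂ ℂ (fun a f => K.mk (fun J => a.co (J 0) • f.co (Fin.tail J)) (by
    intro p hp
    refine (((A0.finsupp a).prod (f.fin hp)).image
      (fun q : ℕ × W n => (Fin.cons q.1 q.2 : W (n + 1)))).subset ?_
    intro J hJ
    refine ⟨(J 0, Fin.tail J), ⟨?_, ?_⟩, Fin.cons_self_tail J⟩
    · intro h0
      apply hJ
      show p (a.co (J 0) • f.co (Fin.tail J)) = 0
      rw [h0, zero_smul, map_zero]
    · intro h0
      apply hJ
      show p (a.co (J 0) • f.co (Fin.tail J)) = 0
      rw [map_smul_eq_mul, h0, mul_zero]))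
    (fun a b f => by
      ext J
      simp only [K.co_mk, K.co_add, add_smul])
    (fun c a f => by
      ext J
      simp only [K.co_mk, K.co_smul, smul_eq_mul, mul_smul])
    (fun a f g => by
      ext J
      simp only [K.co_mk, K.co_add, smul_add])
    (fun c a f => by
      ext J
      simp only [K.co_mk, K.co_smul]
      rw [smul_comm])

@[simp] theorem ins_co {n : ℕ} (a : A0) (f : K (W n) X) (J : W (n + 1)) :
    (ins a f).co J = a.co (J 0) • f.co (Fin.tail J) := rfl

theorem ins_single {n : ℕ} (a : ℕ) (w : W n) (x : X) :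
    ins (e a) (K.single w x) = K.single (Fin.cons a w : W (n + 1)) x := by
  ext J
  obtain ⟨b, v, rfl⟩ := J.cases
  rw [ins_co, K.single_co, K.single_co, e_co, Fin.cons_zero, Fin.tail_cons]
  simp only [Fin.cons_inj]
  by_cases h1 : b = a <;> by_cases h2 : v = w <;> simp [h1, h2]

theorem nK_ins_le {n : ℕ} (j : Idx (W (n + 1)) X) :
    ∃ (m : ℕ → ℝ≥0) (m' : W n → ℝ≥0), ∀ (a : A0) (f : K (W n) X),
      nK j (ins a f) ≤ nK (nC, m) a * nK (j.1, m') f := by
  classical
  obtain ⟨m, m', hm⟩ := dom_exists (fun (i : ℕ) (w : W n) => j.2 (Fin.cons i w))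
  refine ⟨m, m', fun a f => nK_le_of_sum_le _ _ _ fun s => ?_⟩
  let g : ℕ × W n → ℝ := fun q => ((m q.1 : ℝ) * ‖a.co q.1‖) * ((m' q.2 : ℝ) * j.1.1 (f.co q.2))
  have hg : ∀ q, 0 ≤ g q := fun q => by
    have h1 : (0:ℝ) ≤ m q.1 := (m q.1).2
    have h2 : (0:ℝ) ≤ m' q.2 := (m' q.2).2
    have h3 := apply_nonneg j.1.1 (f.co q.2)
    positivity
  let π : W (n + 1) → ℕ × W n := fun J => (J 0, Fin.tail J)
  have hπ : Function.Injective π := by
    intro J J' h
    have h1 : J 0 = J' 0 := congrArg Prod.fst h
    have h2 : Fin.tail J = Fin.tail J' := congrArg Prod.snd h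
    rw [← Fin.cons_self_tail J, ← Fin.cons_self_tail J', h1, h2]
  have hle : ∀ J ∈ s, (j.2 J : ℝ) * j.1.1 ((ins a f).co J) ≤ g (π J) := by
    intro J _
    have h1 : (j.2 J : ℝ) ≤ (m (J 0) : ℝ) * m' (Fin.tail J) := by
      have := hm (J 0) (Fin.tail J)
      rw [Fin.cons_self_tail] at this
      exact_mod_cast this
    rw [ins_co, map_smul_eq_mul]
    have h3 := apply_nonneg j.1.1 (f.co (Fin.tail J))
    have h4 := norm_nonneg (a.co (J 0))
    calc (j.2 J : ℝ) * (‖a.co (J 0)‖ * j.1.1 (f.co (Fin.tail J)))
        ≤ ((m (J 0) : ℝ) * m' (Fin.tail J)) * (‖a.co (J 0)‖ * j.1.1 (f.co (Fin.tail J))) :=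
          mul_le_mul_of_nonneg_right h1 (mul_nonneg h4 h3)
      _ = g (π J) := by
          simp only [g, π]
          ring
  refine (Finset.sum_le_sum hle).trans ?_
  have h5 : ∑ J ∈ s, g (π J) = ∑ q ∈ s.image π, g q :=
    (Finset.sum_image fun _ _ _ _ h => hπ h).symm
  rw [h5]
  have h6 : s.image π ⊆ (s.image fun J => J 0) ×ˢ (s.image fun J => (Fin.tail J : W n)) := by
    intro q hq
    obtain ⟨J, hJ, rfl⟩ := Finset.mem_image.1 hq
    exact Finset.mem_product.2 ⟨Finset.mem_image_of_mem (f := fun J : W (n+1) => J 0) hJ,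
      Finset.mem_image_of_mem (f := fun J : W (n+1) => (Fin.tail J : W n)) hJ⟩
  refine (Finset.sum_le_sum_of_subset_of_nonneg h6 fun q _ _ => hg q).trans ?_
  rw [Finset.sum_product]
  simp only [g]
  rw [← Finset.sum_mul_sum]
  have h7 := sum_le_nK (nC, m) a (s.image fun J => J 0)
  have h8 := sum_le_nK (j.1, m') f (s.image fun J => (Fin.tail J : W n))
  refine mul_le_mul h7 h8 ?_ (apply_nonneg _ _)
  exact Finset.sum_nonneg fun i _ => mul_nonneg (m' i).2 (apply_nonneg _ _)

theorem ins_cont {n : ℕ} : Continuous fun z : A0 × K (W n) X => ins z.1 z.2 := by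
  refine bilin_continuous (E := A0) (F := K (W n) X) (G := K (W (n + 1)) X) withSem ins ?_
  intro j
  obtain ⟨m, m', h⟩ := nK_ins_le j
  exact ⟨nK (nC, m), continuous_nK _, nK (j.1, m'), continuous_nK _, h⟩

end Ins

section Tau

variable {X : Type u} [AddCommGroup X] [Module ℂ X] [TopologicalSpace X] [IsTopologicalAddGroup X]

/-- the canonical multilinear map -/
noncomputable def tauK : (n : ℕ) → X →ₗ[ℂ] MultilinearMap ℂ (fun _ : Fin n => A0) (K (W n) X)
  | 0 =>
    { toFun := fun x => MultilinearMap.constOfIsEmpty ℂ _ (singleL (Fin.elim0 : W 0) x)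
      map_add' := fun x y => by
        refine MultilinearMap.ext fun a => ?_
        show singleL (Fin.elim0 : W 0) (x + y) = _
        rw [map_add]
        rfl
      map_smul' := fun c x => by
        refine MultilinearMap.ext fun a => ?_
        show singleL (Fin.elim0 : W 0) (c • x) = _
        rw [map_smul]
        rfl }
  | n + 1 =>
    { toFun := fun x => LinearMap.uncurryLeft
        { toFun := fun a0 => (ins a0).compMultilinearMap (tauK n x)
          map_add' := fun a b => by
            ext m
            simp only [map_add, LinearMap.compMultilinearMap_apply, add_apply]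
            rfl
          map_smul' := fun c a => by
            ext m
            simp only [map_smul, LinearMap.compMultilinearMap_apply, smul_apply, RingHom.id_apply]
            rfl }
      map_add' := fun x y => by
        ext m
        simp only [map_add, LinearMap.uncurryLeft_apply, LinearMap.coe_mk, AddHom.coe_mk,
          LinearMap.compMultilinearMap_apply, add_apply]
      map_smul' := fun c x => by
        ext m
        simp only [map_smul, LinearMap.uncurryLeft_apply, LinearMap.coe_mk, AddHom.coe_mk,
          LinearMap.compMultilinearMap_apply, smul_apply, RingHom.id_apply] }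

theorem tauK_zero (x : X) (a : Fin 0 → A0) : tauK 0 x a = K.single (Fin.elim0 : W 0) x := rfl

theorem tauK_succ {n : ℕ} (x : X) (a : Fin (n + 1) → A0) :
    tauK (n + 1) x a = ins (a 0) (tauK n x (Fin.tail a)) := rfl

theorem tauK_e {n : ℕ} (x : X) (J : W n) : tauK n x (fun i => e (J i)) = K.single J x := by
  induction n with
  | zero =>
    rw [tauK_zero]
    congr 1
    exact Subsingleton.elim _ _
  | succ n ih =>
    obtain ⟨a, w, rfl⟩ := J.cases
    rw [tauK_succ]
    have : (Fin.tail fun i => e ((Fin.cons a w : W (n + 1)) i)) = fun i => e (w i) := by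
      ext1 i
      simp [Fin.tail]
    rw [this, ih, Fin.cons_zero, ins_single]

theorem tauK_cont {n : ℕ} : Continuous fun q : X × (Fin n → A0) => tauK n q.1 q.2 := by
  induction n with
  | zero =>
    simp only [tauK_zero]
    exact (singleL (Fin.elim0 : W 0)).continuous.comp continuous_fst
  | succ n ih =>
    simp only [tauK_succ]
    have h1 : Continuous fun q : X × (Fin (n + 1) → A0) => (q.2 0, tauK n q.1 (Fin.tail q.2)) := by
      refine ((continuous_apply 0).comp continuous_snd).prodMk ?_
      have h2 : Continuous fun q : X × (Fin (n + 1) → A0) => (q.1, (Fin.tail q.2 : Fin n → A0)) := by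
        refine continuous_fst.prodMk ?_
        exact continuous_pi fun i => (continuous_apply i.succ).comp continuous_snd
      exact ih.comp h2
    exact ins_cont.comp h1

/-- the basis of `A0` -/
noncomputable def basisA : Module.Basis ℕ ℂ A0 := Module.Basis.ofRepr
  { toFun := fun a => Finsupp.ofSupportFinite a.co (A0.finsupp a)
    map_add' := fun a b => by ext i; rfl
    map_smul' := fun c a => by ext i; rfl
    invFun := fun f => K.mk f (fun p _ => by
      refine f.hasFiniteSupport.subset ?_
      intro i hi h0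
      apply hi
      show p (f i) = 0
      rw [h0, map_zero])
    left_inv := fun a => by ext i; rfl
    right_inv := fun f => by ext i; rfl }

theorem basisA_apply (i : ℕ) : basisA i = e i := by
  have : basisA.repr (e i) = Finsupp.single i 1 := by
    ext k
    show (e i).co k = _
    rw [e_co, Finsupp.single_apply]
    simp only [eq_comm]
  rw [← Module.Basis.repr_symm_single_one, ← this, LinearEquiv.symm_apply_apply]

theorem mult_ext {n : ℕ} {F : Type v} [AddCommGroup F] [Module ℂ F]
    {f g : MultilinearMap ℂ (fun _ : Fin n => A0) F}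
    (h : ∀ J : W n, f (fun i => e (J i)) = g (fun i => e (J i))) : f = g := by
  refine Module.Basis.ext_multilinear (fun _ => basisA) ?_
  intro J
  simp only [basisA_apply]
  exact h J

theorem isProjTensor_K [PolynormableSpace ℂ X] (n : ℕ) :
    IsProjTensor A0 X n (K (W n) X) (tauK n) where
  cont := tauK_cont
  univ := by
    intro F _ _ _ _ _ _ _ φ hφ
    let ψ : W n → X →ₗ[ℂ] F := fun J =>
      { toFun := fun x => φ x (fun i => e (J i))
        map_add' := fun x y => by rw [map_add]; rfl
        map_smul' := fun c x => by rw [map_smul]; rfl }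
    have hψ : Adm ψ := by
      intro q hq
      obtain ⟨p, hp, c, hc⟩ := mult_bound φ hφ q hq
      exact ⟨p, hp, fun J => c fun i => e (J i), fun J x => hc _ x⟩
    refine ⟨lift ψ hψ, ?_, ?_⟩
    · intro x a
      have : (lift ψ hψ).toLinearMap.compMultilinearMap (tauK n x) = φ x := by
        refine mult_ext fun J => ?_
        rw [LinearMap.compMultilinearMap_apply, tauK_e]
        exact lift_single ψ hψ J x
      exact congrArg (fun f => f a) this
    · intro g hg
      refine K.hom_ext fun J x => ?_
      rw [lift_single, ← tauK_e, hg]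
      rfl

end Tau

end Pool.Agent.Helper205.Hoch
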