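import Mathlib
import Pool.Agent.Helper205.HochC

set_option autoImplicit false

set_option linter.unusedSectionVars false

namespace Pool.Agent.Helper205.Hoch

universe u v w t

open Filter Topology Set
open scoped NNReal

section AdmCalc

variable {ι ι' : Type} {X : Type u} {F : Type v} [AddCommGroup X] [Module ℂ X] [TopologicalSpace X]
  [AddCommGroup F] [Module ℂ F] [TopologicalSpace F]

theorem bound_K {q : Seminorm ℂ (K ι X)} (hq : Continuous q) : ∃ p : Seminorm ℂ X, Continuous p ∧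
    ∃ c : ι → ℝ≥0, ∀ [DecidableEq ι] i x, q (K.single i x) ≤ c i * p x := by
  obtain ⟨s, C, _, hsC⟩ := Seminorm.bound_of_continuous withSem q hq
  obtain ⟨j, hj⟩ := exists_dom s
  refine ⟨j.1.1, j.1.2, fun i => C * j.2 i, fun {_} i x => ?_⟩
  have h1 : q (K.single i x) ≤ C * s.sup nK (K.single i x) := hsC _
  have h2 := hj (K.single i x)
  rw [nK_single] at h2
  refine h1.trans ?_
  push_cast
  rw [mul_assoc]
  exact mul_le_mul_of_nonneg_left h2 C.2

theorem Adm.of_clm [DecidableEq ι] [IsTopologicalAddGroup X] (T : K ι X →L[ℂ] F) :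
    Adm (fun i => (T.comp (singleL i)).toLinearMap) := by
  intro q hq
  obtain ⟨p, hp, c, hc⟩ := bound_K (q := q.comp T.toLinearMap) (hq.comp T.continuous)
  exact ⟨p, hp, c, fun i x => hc i x⟩

theorem Adm.add {φ ψ : ι → X →ₗ[ℂ] F} (h : Adm φ) (h' : Adm ψ) : Adm (fun i => φ i + ψ i) := by
  intro q hq
  obtain ⟨p, hp, c, hc⟩ := h q hq
  obtain ⟨p', hp', c', hc'⟩ := h' q hq
  refine ⟨p + p', hp.add hp', fun i => c i + c' i, fun i x => ?_⟩
  refine (map_add_le_add q _ _).trans ((add_le_add (hc i x) (hc' i x)).trans ?_)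
  have h1 : (p + p') x = p x + p' x := rfl
  rw [h1]
  push_cast
  have h2 := apply_nonneg p x
  have h3 := apply_nonneg p' x
  have h4 : (0:ℝ) ≤ c i := (c i).2
  have h5 : (0:ℝ) ≤ c' i := (c' i).2
  nlinarith [mul_nonneg h4 h3, mul_nonneg h5 h2]

theorem Adm.neg {φ : ι → X →ₗ[ℂ] F} (h : Adm φ) : Adm (fun i => - φ i) := by
  intro q hq
  obtain ⟨p, hp, c, hc⟩ := h q hq
  refine ⟨p, hp, c, fun i x => ?_⟩
  show q (-(φ i x)) ≤ _
  rw [map_neg_eq_map]
  exact hc i x

theorem Adm.sub {φ ψ : ι → X →ₗ[ℂ] F} (h : Adm φ) (h' : Adm ψ) : Adm (fun i => φ i - ψ i) := by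
  simp only [sub_eq_add_neg]
  exact h.add h'.neg

theorem Adm.const_smul {φ : ι → X →ₗ[ℂ] F} (h : Adm φ) (a : ℂ) : Adm (fun i => a • φ i) := by
  intro q hq
  obtain ⟨p, hp, c, hc⟩ := h q hq
  refine ⟨p, hp, fun i => ‖a‖₊ * c i, fun i x => ?_⟩
  show q (a • (φ i x)) ≤ _
  rw [map_smul_eq_mul]
  push_cast
  rw [mul_assoc]
  exact mul_le_mul_of_nonneg_left (hc i x) (norm_nonneg _)

theorem Adm.ite {φ : ι → X →ₗ[ℂ] F} (h : Adm φ) (P : ι → Prop) [DecidablePred P] :
    Adm (fun i => if P i then φ i else 0) := by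
  intro q hq
  obtain ⟨p, hp, c, hc⟩ := h q hq
  refine ⟨p, hp, c, fun i x => ?_⟩
  show q ((if P i then φ i else 0) x) ≤ _
  split_ifs with hP
  · exact hc i x
  · show q (0 : F) ≤ _
    rw [map_zero]
    exact mul_nonneg (c i).2 (apply_nonneg _ _)

theorem Adm.reindex {φ : ι → X →ₗ[ℂ] F} (h : Adm φ) (g : ι' → ι) : Adm (fun i => φ (g i)) := by
  intro q hq
  obtain ⟨p, hp, c, hc⟩ := h q hq
  exact ⟨p, hp, fun i => c (g i), fun i x => hc _ x⟩

theorem Adm.precomp {φ : ι → X →ₗ[ℂ] F} (h : Adm φ) {ρ : ι → X →ₗ[ℂ] X} (hρ : Adm ρ) :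
    Adm (fun i => φ i ∘ₗ ρ i) := by
  intro q hq
  obtain ⟨p, hp, c, hc⟩ := h q hq
  obtain ⟨p', hp', c', hc'⟩ := hρ p hp
  refine ⟨p', hp', fun i => c i * c' i, fun i x => ?_⟩
  refine (hc i (ρ i x)).trans ?_
  push_cast
  rw [mul_assoc]
  exact mul_le_mul_of_nonneg_left (hc' i x) (c i).2

theorem Adm.sum {φ : ι × ℕ → X →ₗ[ℂ] F} (h : Adm φ) (N : ι → ℕ) :
    Adm (fun i => ∑ k ∈ Finset.range (N i), φ (i, k)) := by
  intro q hq
  obtain ⟨p, hp, c, hc⟩ := h q hq
  refine ⟨p, hp, fun i => ∑ k ∈ Finset.range (N i), c (i, k), fun i x => ?_⟩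
  show q ((∑ k ∈ Finset.range (N i), φ (i, k)) x) ≤ _
  rw [LinearMap.sum_apply]
  refine (sn_sum_le _ _ _).trans ?_
  push_cast
  rw [Finset.sum_mul]
  exact Finset.sum_le_sum fun k _ => hc (i, k) x

theorem adm_single [DecidableEq ι] [IsTopologicalAddGroup X] (g : ι' → ι) :
    Adm (fun i : ι' => (singleL (X := X) (g i)).toLinearMap) := by
  have := (Adm.of_clm (ContinuousLinearMap.id ℂ (K ι X))).reindex g
  exact this

theorem Adm.ins [IsTopologicalAddGroup X] [PolynormableSpace ℂ X] {n : ℕ}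
    {φ : ι → X →ₗ[ℂ] K (W n) X} (h : Adm φ) (g : ι → ℕ) :
    Adm (fun i => (ins (e (g i))) ∘ₗ φ i) := by
  intro q hq
  obtain ⟨p', hp', c', hc'⟩ := bilin_bound (A := A0) (X := K (W n) X) (F := K (W (n + 1)) X)
    (Hoch.ins.flip) (ins_cont.comp continuous_swap) q hq
  obtain ⟨p, hp, c, hc⟩ := h p' hp'
  refine ⟨p, hp, fun i => c' (e (g i)) * c i, fun i x => ?_⟩
  refine (hc' (e (g i)) (φ i x)).trans ?_
  push_cast
  rw [mul_assoc]
  exact mul_le_mul_of_nonneg_left (hc i x) (c' _).2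

end AdmCalc

section Diff

variable {X : Type u} [AddCommGroup X] [Module ℂ X] [UniformSpace X] [IsUniformAddGroup X]
  [PolynormableSpace ℂ X] [T2Space X] [CompleteSpace X] (M : Bimod A0 X)

/-- right multiplication by `e a` -/
noncomputable def Rr (a : ℕ) : X →ₗ[ℂ] X := M.r.flip (e a)

/-- left multiplication by `e a` -/
noncomputable def Ll (a : ℕ) : X →ₗ[ℂ] X := M.l (e a)

theorem Rr_apply (a : ℕ) (x : X) : Rr M a x = M.r x (e a) := rfl
theorem Ll_apply (a : ℕ) (x : X) : Ll M a x = M.l (e a) x := rfl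

theorem Rr_Rr_self (a : ℕ) (x : X) : Rr M a (Rr M a x) = Rr M a x := by
  rw [Rr_apply, Rr_apply, ← M.r_mul, e_mul_self]

theorem Rr_Rr_ne {a b : ℕ} (h : a ≠ b) (x : X) : Rr M b (Rr M a x) = 0 := by
  rw [Rr_apply, Rr_apply, ← M.r_mul, e_mul_ne h, map_zero]

theorem Ll_Ll_self (a : ℕ) (x : X) : Ll M a (Ll M a x) = Ll M a x := by
  rw [Ll_apply, Ll_apply, ← M.l_mul, e_mul_self]

theorem Ll_Ll_ne {a b : ℕ} (h : a ≠ b) (x : X) : Ll M a (Ll M b x) = 0 := by
  rw [Ll_apply, Ll_apply, ← M.l_mul, e_mul_ne h, map_zero, LinearMap.zero_apply]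

theorem Rr_Ll (a b : ℕ) (x : X) : Rr M b (Ll M a x) = Ll M a (Rr M b x) := by
  rw [Rr_apply, Rr_apply, Ll_apply, Ll_apply, M.l_r]

theorem adm_Rr {ι : Type} (g : ι → ℕ) : Adm (fun i => Rr M (g i)) := by
  intro q hq
  obtain ⟨p, hp, c, hc⟩ := bilin_bound M.r M.r_cont q hq
  exact ⟨p, hp, fun i => c (e (g i)), fun i x => hc _ x⟩

theorem adm_Ll {ι : Type} (g : ι → ℕ) : Adm (fun i => Ll M (g i)) := by
  intro q hq
  obtain ⟨p, hp, c, hc⟩ := bilin_bound M.l.flip (M.l_cont.comp continuous_swap) q hq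
  exact ⟨p, hp, fun i => c (e (g i)), fun i x => hc _ x⟩

/-- the first face -/
noncomputable def D0 (n : ℕ) : K (W (n + 1)) X →L[ℂ] K (W n) X :=
  lift (fun J => (singleL (Fin.tail J : W n)).toLinearMap ∘ₗ Rr M (J 0))
    ((adm_single _).precomp (adm_Rr M _))

/-- the other faces -/
noncomputable def G : (n : ℕ) → K (W (n + 1)) X →L[ℂ] K (W n) X
  | 0 => lift (fun J => -((singleL (Fin.elim0 : W 0)).toLinearMap ∘ₗ Ll M (J 0)))
      ((adm_single _).precomp (adm_Ll M _)).neg
  | n + 1 => lift (fun J => -(if J 0 = J 1 then (singleL (Fin.tail J : W (n + 1))).toLinearMap else 0)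
        - ins (e (J 0)) ∘ₗ ((G n).comp (singleL (Fin.tail J))).toLinearMap)
      (((adm_single _).ite _).neg.sub (((Adm.of_clm (G n)).reindex _).ins _))

theorem D0_single {n : ℕ} (a : ℕ) (w : W n) (x : X) :
    D0 M n (K.single (Fin.cons a w : W (n + 1)) x) = K.single w (Rr M a x) := by
  rw [D0, lift_single, LinearMap.comp_apply, Fin.cons_zero, Fin.tail_cons]
  rfl

theorem G_zero_single (a : ℕ) (w : W 0) (x : X) :
    G M 0 (K.single (Fin.cons a w : W 1) x) = -K.single w (Ll M a x) := by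
  obtain rfl : w = Fin.elim0 := Subsingleton.elim _ _
  rw [G, lift_single, LinearMap.neg_apply, LinearMap.comp_apply, Fin.cons_zero]
  rfl

theorem G_succ_single {n : ℕ} (a b : ℕ) (w : W n) (x : X) :
    G M (n + 1) (K.single (Fin.cons a (Fin.cons b w) : W (n + 2)) x) =
      -(if a = b then K.single (Fin.cons b w) x else 0)
        - ins (e a) (G M n (K.single (Fin.cons b w : W (n + 1)) x)) := by
  rw [G, lift_single, LinearMap.sub_apply, LinearMap.neg_apply, LinearMap.comp_apply, Fin.cons_zero,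
    Fin.tail_cons]
  have h1 : (Fin.cons a (Fin.cons b w) : W (n + 2)) 1 = b := by
    rw [show (1 : Fin (n + 2)) = (0 : Fin (n + 1)).succ from rfl, Fin.cons_succ, Fin.cons_zero]
  rw [h1]
  congr 2
  by_cases h : a = b
  · rw [if_pos h, if_pos h]
    rfl
  · rw [if_neg h, if_neg h]
    rfl

/-- the differential -/
noncomputable def dK (n : ℕ) : K (W (n + 1)) X →L[ℂ] K (W n) X := D0 M n + G M n

theorem dK_eq (n : ℕ) (f : K (W (n + 1)) X) : dK M n f = D0 M n f + G M n f := rfl

theorem D0_tau {n : ℕ} (x : X) (a : Fin (n + 1) → A0) :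
    D0 M n (tauK (n + 1) x a) = tauK n (M.r x (a 0)) (Fin.tail a) := by
  have : (D0 M n).toLinearMap.compMultilinearMap (tauK (n + 1) x) =
      LinearMap.uncurryLeft ((tauK n) ∘ₗ (M.r x)) := by
    refine mult_ext fun J => ?_
    obtain ⟨b, w, rfl⟩ := J.cases
    rw [LinearMap.compMultilinearMap_apply, tauK_e, LinearMap.uncurryLeft_apply]
    have h1 : (Fin.tail fun i => e ((Fin.cons b w : W (n + 1)) i)) = fun i => e (w i) := by
      ext1 i
      simp [Fin.tail]
    rw [h1, Fin.cons_zero]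
    show D0 M n _ = tauK n (M.r x (e b)) (fun i => e (w i))
    rw [tauK_e]
    exact D0_single M b w x
  exact congrArg (fun f => f a) this

theorem G_zero_ins (b : A0) (x : X) :
    G M 0 (ins b (K.single (Fin.elim0 : W 0) x)) = -K.single (Fin.elim0 : W 0) (M.l b x) := by
  have : (G M 0).toLinearMap ∘ₗ (ins.flip (K.single (Fin.elim0 : W 0) x)) =
      -((singleL (Fin.elim0 : W 0)).toLinearMap ∘ₗ (M.l.flip x)) := by
    refine A0.hom_ext fun i => ?_
    show G M 0 (ins (e i) (K.single (Fin.elim0 : W 0) x)) = _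
    rw [ins_single, G_zero_single]
    rfl
  exact congrArg (fun f => f b) this

/-- insertion as a continuous linear map -/
noncomputable def insL {n : ℕ} (b : A0) : K (W n) X →L[ℂ] K (W (n + 1)) X :=
  { toLinearMap := ins b
    cont := ins_cont.comp (continuous_const.prodMk continuous_id) }

theorem G_ins_ins {n : ℕ} (b c : A0) (f : K (W n) X) :
    G M (n + 1) (ins b (ins c f)) = -ins (b * c) f - ins b (G M n (ins c f)) := by
  -- first for letters
  have h1 : ∀ (i j : ℕ) (f : K (W n) X), G M (n + 1) (ins (e i) (ins (e j) f)) =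
      -ins (e i * e j) f - ins (e i) (G M n (ins (e j) f)) := by
    intro i j f
    have : (G M (n + 1)).comp ((insL (e i)).comp (insL (e j))) =
        -(insL (n := n) (e i * e j)) - (insL (e i)).comp ((G M n).comp (insL (e j))) := by
      refine K.hom_ext fun w x => ?_
      show G M (n + 1) (ins (e i) (ins (e j) (K.single w x))) =
        -ins (e i * e j) (K.single w x) - ins (e i) (G M n (ins (e j) (K.single w x)))
      rw [ins_single, ins_single, G_succ_single]
      congr 2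
      by_cases h : i = j
      · subst h
        rw [if_pos rfl, e_mul_self, ins_single]
      · rw [if_neg h, e_mul_ne h, map_zero]
        rfl
    exact congrArg (fun g => g f) this
  have h2 : ∀ (i : ℕ) (c : A0), G M (n + 1) (ins (e i) (ins c f)) =
      -ins (e i * c) f - ins (e i) (G M n (ins c f)) := by
    intro i c
    have : (G M (n + 1)).toLinearMap ∘ₗ (ins (e i)) ∘ₗ (ins.flip f) =
        -((ins.flip f) ∘ₗ (mulB (e i))) - (ins (e i)) ∘ₗ (G M n).toLinearMap ∘ₗ (ins.flip f) := by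
      refine A0.hom_ext fun j => ?_
      exact h1 i j f
    exact congrArg (fun g => g c) this
  have : (G M (n + 1)).toLinearMap ∘ₗ (ins.flip (ins c f)) =
      -((ins.flip f) ∘ₗ (mulB.flip c)) - (ins.flip (G M n (ins c f))) := by
    refine A0.hom_ext fun i => ?_
    exact h2 i c
  exact congrArg (fun g => g b) this

theorem contractNth_zero {n : ℕ} (a : Fin (n + 2) → A0) :
    Fin.contractNth 0 (· * ·) a = Fin.cons (a 0 * a 1) (Fin.tail (Fin.tail a)) := by
  ext1 k
  refine Fin.cases ?_ (fun k => ?_) k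
  · rw [Fin.contractNth_apply_of_eq _ _ _ _ (by simp), Fin.cons_zero]
    rfl
  · rw [Fin.contractNth_apply_of_gt _ _ _ _ (by simp), Fin.cons_succ]
    rfl

theorem contractNth_succ {n : ℕ} (j : Fin (n + 1)) (a : Fin (n + 2) → A0) :
    Fin.contractNth j.succ (· * ·) a = Fin.cons (a 0) (Fin.contractNth j (· * ·) (Fin.tail a)) := by
  ext1 k
  refine Fin.cases ?_ (fun k => ?_) k
  · rw [Fin.contractNth_apply_of_lt _ _ _ _ (by simp), Fin.cons_zero]
    rfl
  · rw [Fin.cons_succ]
    rcases lt_trichotomy (k : ℕ) (j : ℕ) with h | h | h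
    · rw [Fin.contractNth_apply_of_lt _ _ _ _ (by simpa using h),
        Fin.contractNth_apply_of_lt _ _ _ _ h]
      rfl
    · rw [Fin.contractNth_apply_of_eq _ _ _ _ (by simpa using h),
        Fin.contractNth_apply_of_eq _ _ _ _ h]
      rfl
    · rw [Fin.contractNth_apply_of_gt _ _ _ _ (by simpa using h),
        Fin.contractNth_apply_of_gt _ _ _ _ h]
      rfl

theorem G_tau {n : ℕ} (x : X) (a : Fin (n + 1) → A0) :
    G M n (tauK (n + 1) x a) =
      ∑ i : Fin n, (-1 : ℂ) ^ ((i : ℕ) + 1) • tauK n x (Fin.contractNth i.castSucc (· * ·) a)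
      + (-1 : ℂ) ^ (n + 1) • tauK n (M.l (a (Fin.last n)) x) (Fin.init a) := by
  induction n with
  | zero =>
    have h1 : tauK (0 + 1) x a = ins (a 0) (K.single (Fin.elim0 : W 0) x) := rfl
    have h2 : tauK 0 ((M.l (a (Fin.last 0))) x) (Fin.init a) =
      K.single (Fin.elim0 : W 0) (M.l (a 0) x) := rfl
    rw [h1, h2, G_zero_ins]
    simp
  | succ n ih =>
    rw [tauK_succ, tauK_succ, G_ins_ins, ← tauK_succ, ih, Fin.sum_univ_succ]
    have h0 : (-1 : ℂ) ^ (((0 : Fin (n + 1)) : ℕ) + 1) •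
        tauK (n + 1) x (Fin.contractNth (Fin.castSucc 0) (· * ·) a) =
        -ins (a 0 * Fin.tail a 0) (tauK n x (Fin.tail (Fin.tail a))) := by
      rw [Fin.castSucc_zero, contractNth_zero, tauK_succ, Fin.cons_zero, Fin.tail_cons]
      simp [Fin.tail]
    rw [h0, map_add, map_sum]
    have h1 : ∀ i : Fin n, (-1 : ℂ) ^ ((i.succ : ℕ) + 1) •
        tauK (n + 1) x (Fin.contractNth (Fin.castSucc i.succ) (· * ·) a) =
        -ins (a 0) ((-1 : ℂ) ^ ((i : ℕ) + 1) •
          tauK n x (Fin.contractNth i.castSucc (· * ·) (Fin.tail a))) := by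
      intro i
      rw [Fin.castSucc_succ, contractNth_succ, tauK_succ, Fin.cons_zero, Fin.tail_cons, map_smul,
        Fin.val_succ, pow_succ, mul_neg_one, neg_smul]
    rw [Finset.sum_congr rfl fun i _ => h1 i]
    have h2 : (-1 : ℂ) ^ (n + 1 + 1) • tauK (n + 1) (M.l (a (Fin.last (n + 1))) x) (Fin.init a) =
        -ins (a 0) ((-1 : ℂ) ^ (n + 1) •
          tauK n (M.l (Fin.tail a (Fin.last n)) x) (Fin.init (Fin.tail a))) := by
      rw [tauK_succ, map_smul, pow_succ, mul_neg_one, neg_smul]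
      rfl
    rw [h2, Finset.sum_neg_distrib]
    abel

/-- the concrete Hochschild complex -/
noncomputable def concrete : HochschildComplex M where
  C n := K (W n) X
  acg _ := inferInstance
  mod _ := inferInstance
  unif _ := inferInstance
  uag _ := inferInstance
  lc _ := inferInstance
  t2 _ := inferInstance
  complete _ := inferInstance
  τ n := tauK n
  isTensor n := isProjTensor_K n
  d n := dK M n
  d_apply n x a := by
    rw [dK_eq, D0_tau, G_tau]
    abel

end Diff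

end Pool.Agent.Helper205.Hoch
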