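import Mathlib
import Pool.Agent.Helper205.HochD

set_option autoImplicit false
set_option linter.unusedSectionVars false

namespace Pool.Agent.Helper205.Hoch

universe u v w t

open Filter Topology Set
open scoped NNReal

section

variable {X : Type u} [AddCommGroup X] [Module ℂ X] [UniformSpace X] [IsUniformAddGroup X]
  [PolynormableSpace ℂ X] [T2Space X] [CompleteSpace X] (M : Bimod A0 X)

theorem single_add {n : ℕ} (J : W n) (x y : X) : K.single J (x + y) = K.single J x + K.single J y :=
  (singleL J).map_add x y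

theorem single_sub {n : ℕ} (J : W n) (x y : X) : K.single J (x - y) = K.single J x - K.single J y :=
  (singleL J).map_sub x y

theorem single_neg {n : ℕ} (J : W n) (x : X) : K.single J (-x) = -K.single J x :=
  (singleL J).map_neg x

theorem single_zero {n : ℕ} (J : W n) : K.single J (0 : X) = 0 :=
  (singleL J).map_zero

/-- right multiplication on coefficients -/
noncomputable def RR {n : ℕ} (a : ℕ) : K (W n) X →L[ℂ] K (W n) X :=
  lift (fun J => (singleL J).toLinearMap ∘ₗ Rr M a) ((adm_single _).precomp (adm_Rr M fun _ => a))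

theorem RR_single {n : ℕ} (a : ℕ) (J : W n) (x : X) :
    RR M a (K.single J x) = K.single J (Rr M a x) := lift_single _ _ _ _

/-- duplicate the first letter -/
noncomputable def dup {n : ℕ} : K (W (n + 1)) X →L[ℂ] K (W (n + 2)) X :=
  lift (fun J => (singleL (Fin.cons (J 0) J : W (n + 2))).toLinearMap) (adm_single _)

theorem dup_single {n : ℕ} (a : ℕ) (w : W n) (x : X) :
    dup (K.single (Fin.cons a w : W (n + 1)) x) =
      K.single (Fin.cons a (Fin.cons a w) : W (n + 2)) x := by
  rw [dup, lift_single, Fin.cons_zero]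
  rfl

theorem dup_ins {n : ℕ} (a : ℕ) (f : K (W n) X) : dup (ins (e a) f) = ins (e a) (ins (e a) f) := by
  have : (dup (X := X)).comp (insL (n := n) (e a)) = (insL (e a)).comp (insL (e a)) := by
    refine K.hom_ext fun w x => ?_
    show dup (ins (e a) (K.single w x)) = ins (e a) (ins (e a) (K.single w x))
    rw [ins_single, dup_single, ins_single]
  exact congrArg (fun g => g f) this

theorem RR_ins {n : ℕ} (a b : ℕ) (f : K (W n) X) : RR M a (ins (e b) f) = ins (e b) (RR M a f) := by
  have : (RR M a).comp (insL (n := n) (e b)) = (insL (e b)).comp (RR M a) := by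
    refine K.hom_ext fun w x => ?_
    show RR M a (ins (e b) (K.single w x)) = ins (e b) (RR M a (K.single w x))
    rw [ins_single, RR_single, RR_single, ins_single]
  exact congrArg (fun g => g f) this

theorem RR_G {n : ℕ} (a : ℕ) (b : ℕ) (w : W n) (x : X) :
    RR M a (G M n (K.single (Fin.cons b w : W (n + 1)) x)) =
      G M n (K.single (Fin.cons b w : W (n + 1)) (Rr M a x)) := by
  induction n generalizing b with
  | zero =>
    rw [G_zero_single, G_zero_single, map_neg, RR_single, Rr_Ll]
  | succ n ih =>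
    obtain ⟨c, w, rfl⟩ := w.cases
    rw [G_succ_single, G_succ_single, map_sub, map_neg, RR_ins, ih]
    congr 2
    split_ifs
    · rw [RR_single]
    · rw [map_zero]

theorem dup_G {n : ℕ} (b c : ℕ) (w : W n) (x : X) :
    dup (G M (n + 1) (K.single (Fin.cons b (Fin.cons c w) : W (n + 2)) x)) =
      ins (e b) (G M (n + 1) (K.single (Fin.cons b (Fin.cons c w) : W (n + 2)) x)) := by
  rw [G_succ_single, map_sub, map_neg, dup_ins, map_sub, map_neg]
  congr 2
  split_ifs with h
  · subst h
    rw [dup_single, ins_single]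
  · rw [map_zero, map_zero]

/-- the homotopy -/
noncomputable def S (n : ℕ) : K (W (n + 2)) X →L[ℂ] K (W (n + 3)) X :=
  lift (fun J => (singleL (Fin.cons (J 0) J : W (n + 3))).toLinearMap ∘ₗ Rr M (J 0)
      - (singleL (Fin.cons (J 0) J : W (n + 3))).toLinearMap
      + (singleL (Fin.cons (J 0) (Fin.cons (J 1) (Fin.tail J)) : W (n + 3))).toLinearMap
        ∘ₗ Rr M (J 0))
    ((((adm_single _).precomp (adm_Rr M _)).sub (adm_single _)).add
      ((adm_single _).precomp (adm_Rr M _)))

theorem S_single {n : ℕ} (a b : ℕ) (w : W n) (x : X) :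
    S M n (K.single (Fin.cons a (Fin.cons b w) : W (n + 2)) x) =
      K.single (Fin.cons a (Fin.cons a (Fin.cons b w)) : W (n + 3)) (Rr M a x)
      - K.single (Fin.cons a (Fin.cons a (Fin.cons b w)) : W (n + 3)) x
      + K.single (Fin.cons a (Fin.cons b (Fin.cons b w)) : W (n + 3)) (Rr M a x) := by
  have h1 : (Fin.cons a (Fin.cons b w) : W (n + 2)) 1 = b := by
    rw [show (1 : Fin (n + 2)) = (0 : Fin (n + 1)).succ from rfl, Fin.cons_succ, Fin.cons_zero]
  rw [S, lift_single, Fin.cons_zero, h1, Fin.tail_cons]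
  rfl

theorem S_ins {n : ℕ} (a : ℕ) (f : K (W (n + 1)) X) :
    S M n (ins (e a) f) = ins (e a) (ins (e a) (RR M a f)) - ins (e a) (ins (e a) f)
      + ins (e a) (dup (RR M a f)) := by
  have : (S M n).comp (insL (e a)) = (insL (e a)).comp ((insL (e a)).comp (RR M a))
      - (insL (e a)).comp (insL (e a)) + (insL (e a)).comp (dup.comp (RR M a)) := by
    refine K.hom_ext fun w x => ?_
    obtain ⟨b, w, rfl⟩ := w.cases
    show S M n (ins (e a) (K.single (Fin.cons b w : W (n + 1)) x)) =
      ins (e a) (ins (e a) (RR M a (K.single (Fin.cons b w : W (n + 1)) x)))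
        - ins (e a) (ins (e a) (K.single (Fin.cons b w : W (n + 1)) x))
      + ins (e a) (dup (RR M a (K.single (Fin.cons b w : W (n + 1)) x)))
    rw [ins_single, S_single, RR_single, dup_single, ins_single, ins_single, ins_single, ins_single]
  exact congrArg (fun g => g f) this

theorem dK_single {n : ℕ} (a b : ℕ) (w : W n) (x : X) :
    dK M (n + 1) (K.single (Fin.cons a (Fin.cons b w) : W (n + 2)) x) =
      K.single (Fin.cons b w) (Rr M a x) - (if a = b then K.single (Fin.cons b w) x else 0)
        - ins (e a) (G M n (K.single (Fin.cons b w : W (n + 1)) x)) := by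
  rw [dK_eq, D0_single, G_succ_single]
  abel

theorem dK_zero_single (a : ℕ) (w : W 0) (x : X) :
    dK M 0 (K.single (Fin.cons a w : W 1) x) = K.single w (Rr M a x) - K.single w (Ll M a x) := by
  rw [dK_eq, D0_single, G_zero_single, sub_eq_add_neg]

theorem homotopy {n : ℕ} (f : K (W (n + 3)) X) :
    dK M (n + 3) (S M (n + 1) f) + S M n (dK M (n + 2) f) = f := by
  have : (dK M (n + 3)).comp (S M (n + 1)) + (S M n).comp (dK M (n + 2)) =
      ContinuousLinearMap.id ℂ (K (W (n + 3)) X) := by
    refine K.hom_ext fun J x => ?_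
    obtain ⟨a, J, rfl⟩ := J.cases
    obtain ⟨b, J, rfl⟩ := J.cases
    obtain ⟨c, w, rfl⟩ := J.cases
    show dK M (n + 3) (S M (n + 1) (K.single (Fin.cons a (Fin.cons b (Fin.cons c w)) : W (n + 3)) x))
      + S M n (dK M (n + 2) (K.single (Fin.cons a (Fin.cons b (Fin.cons c w)) : W (n + 3)) x)) =
      K.single (Fin.cons a (Fin.cons b (Fin.cons c w)) : W (n + 3)) x
    rw [S_single, dK_single]
    simp only [map_add, map_sub, dK_single, G_succ_single (n := n + 1), S_single, S_ins, RR_G, dup_G, 
      ins_single, if_true]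
    by_cases h : a = b
    · subst h
      simp only [if_true, map_add, map_sub, map_neg, ins_single, S_single, Rr_Rr_self]
      abel
    · simp only [if_neg h, map_add, map_sub, map_neg, map_zero, ins_single, Rr_Rr_self, Rr_Rr_ne M h,
        single_zero]
      abel
  exact congrArg (fun g => g f) this

theorem dK_one_single (a b : ℕ) (w : W 0) (x : X) :
    dK M 1 (K.single (Fin.cons a (Fin.cons b w) : W 2) x) =
      K.single (Fin.cons b w) (Rr M a x) - (if a = b then K.single (Fin.cons b w) x else 0)
        + K.single (Fin.cons a w) (Ll M b x) := by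
  rw [dK_single, G_zero_single, map_neg, ins_single, sub_neg_eq_add]

/-- the auxiliary map in degree two -/
noncomputable def P : K (W 1) X →L[ℂ] K (W 2) X :=
  lift (fun J => (singleL (Fin.cons (J 0) J : W 2)).toLinearMap ∘ₗ Rr M (J 0)
      - (singleL (Fin.cons (J 0) J : W 2)).toLinearMap)
    (((adm_single _).precomp (adm_Rr M _)).sub (adm_single _))

theorem P_single (a : ℕ) (w : W 0) (x : X) :
    P M (K.single (Fin.cons a w : W 1) x) =
      K.single (Fin.cons a (Fin.cons a w) : W 2) (Rr M a x)
      - K.single (Fin.cons a (Fin.cons a w) : W 2) x := by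
  rw [P, lift_single, Fin.cons_zero]
  rfl

/-- two-sided multiplication by the letters -/
noncomputable def AA : K (W 2) X →L[ℂ] K (W 2) X :=
  lift (fun J => ((singleL J).toLinearMap ∘ₗ Ll M (J 1)) ∘ₗ Rr M (J 0))
    (((adm_single _).precomp (adm_Ll M _)).precomp (adm_Rr M _))

theorem AA_single (a b : ℕ) (w : W 0) (x : X) :
    AA M (K.single (Fin.cons a (Fin.cons b w) : W 2) x) =
      K.single (Fin.cons a (Fin.cons b w) : W 2) (Ll M b (Rr M a x)) := by
  have h1 : (Fin.cons a (Fin.cons b w) : W 2) 1 = b := by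
    rw [show (1 : Fin 2) = (0 : Fin 1).succ from rfl, Fin.cons_succ, Fin.cons_zero]
  rw [AA, lift_single, Fin.cons_zero, h1]
  rfl

theorem homotopy_two (f : K (W 2) X) :
    dK M 2 (S M 0 f) + P M (dK M 1 f) + AA M f = f := by
  have : (dK M 2).comp (S M 0) + (P M).comp (dK M 1) + AA M =
      ContinuousLinearMap.id ℂ (K (W 2) X) := by
    refine K.hom_ext fun J x => ?_
    obtain ⟨a, J, rfl⟩ := J.cases
    obtain ⟨b, w, rfl⟩ := J.cases
    show dK M 2 (S M 0 (K.single (Fin.cons a (Fin.cons b w) : W 2) x))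
      + P M (dK M 1 (K.single (Fin.cons a (Fin.cons b w) : W 2) x))
      + AA M (K.single (Fin.cons a (Fin.cons b w) : W 2) x) =
      K.single (Fin.cons a (Fin.cons b w) : W 2) x
    rw [S_single, dK_one_single, AA_single]
    simp only [map_add, map_sub, dK_single, G_succ_single (n := 0), P_single, if_true,
      G_zero_single]
    by_cases h : a = b
    · subst h
      simp only [if_true, map_neg, ins_single, Rr_Rr_self, map_sub]
      rw [P_single, P_single, P_single, Rr_Ll, Rr_Rr_self]
      abel
    · simp only [if_neg h, map_sub, map_neg, map_zero, ins_single, Rr_Rr_self]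
      rw [P_single, P_single, Rr_Ll, Rr_Rr_ne M h, single_zero]
      abel
  exact congrArg (fun g => g f) this

theorem Rr_cont (a : ℕ) : Continuous (Rr M a) :=
  M.r_cont.comp (continuous_id.prodMk continuous_const)

theorem Ll_cont (a : ℕ) : Continuous (Ll M a) :=
  M.l_cont.comp (continuous_const.prodMk continuous_id)

/-- `Rr` as a continuous linear map -/
noncomputable def RrL (a : ℕ) : X →L[ℂ] X := ⟨Rr M a, Rr_cont M a⟩

/-- `Ll` as a continuous linear map -/
noncomputable def LlL (a : ℕ) : X →L[ℂ] X := ⟨Ll M a, Ll_cont M a⟩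

theorem Rr_Rr (a b : ℕ) (x : X) : Rr M b (Rr M a x) = if a = b then Rr M a x else 0 := by
  split_ifs with h
  · subst h
    exact Rr_Rr_self M a x
  · exact Rr_Rr_ne M h x

theorem Ll_Ll (a b : ℕ) (x : X) : Ll M a (Ll M b x) = if a = b then Ll M b x else 0 := by
  split_ifs with h
  · subst h
    exact Ll_Ll_self M a x
  · exact Ll_Ll_ne M h x

theorem AA_co (a b : ℕ) (w : W 0) (f : K (W 2) X) :
    (AA M f).co (Fin.cons a (Fin.cons b w)) =
      Ll M b (Rr M a ((dK M 1 f).co (Fin.cons b w))) := by
  have : (coL (Fin.cons a (Fin.cons b w) : W 2)).comp (AA M) =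
      (LlL M b).comp ((RrL M a).comp ((coL (Fin.cons b w : W 1)).comp (dK M 1))) := by
    refine K.hom_ext fun J x => ?_
    obtain ⟨a', J, rfl⟩ := J.cases
    obtain ⟨b', w', rfl⟩ := J.cases
    obtain rfl : w' = w := Subsingleton.elim _ _
    show (AA M (K.single (Fin.cons a' (Fin.cons b' w') : W 2) x)).co (Fin.cons a (Fin.cons b w')) =
      Ll M b (Rr M a ((dK M 1 (K.single (Fin.cons a' (Fin.cons b' w') : W 2) x)).co (Fin.cons b w')))
    rw [AA_single, dK_one_single, K.single_co, K.co_add, K.co_sub, K.single_co, K.single_co]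
    simp only [Fin.cons_inj, and_true]
    by_cases h1 : b = b'
    · subst h1
      by_cases h2 : a = a'
      · subst h2
        by_cases h3 : a = b
        · subst h3
          simp [Rr_Rr, Ll_Ll, Rr_Ll, K.single_co]
        · simp [Rr_Rr, Ll_Ll, Rr_Ll, K.single_co, h3, Ne.symm h3]
      · by_cases h3 : a' = b
        · subst h3
          simp [Rr_Rr, Ll_Ll, Rr_Ll, K.single_co, h2, Ne.symm h2]
        · simp [Rr_Rr, Ll_Ll, Rr_Ll, K.single_co, h2, Ne.symm h2, h3, Ne.symm h3]
    · by_cases h3 : a' = b'
      · subst h3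
        simp [Rr_Rr, Ll_Ll, Rr_Ll, K.single_co, h1, Ne.symm h1]
      · by_cases h4 : b = a'
        · subst h4
          simp [Rr_Rr, Ll_Ll, Rr_Ll, K.single_co, h1, Ne.symm h1]
        · simp [Rr_Rr, Ll_Ll, Rr_Ll, K.single_co, h1, Ne.symm h1, h3, h4]
  exact congrArg (fun g => g f) this

theorem exact_two (f : K (W 2) X) (hf : dK M 1 f = 0) : dK M 2 (S M 0 f) = f := by
  have h1 := homotopy_two M f
  have h2 : AA M f = 0 := by
    ext J
    obtain ⟨a, J, rfl⟩ := J.cases
    obtain ⟨b, w, rfl⟩ := J.cases
    rw [AA_co, hf, K.co_zero, map_zero, map_zero, K.co_zero]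
  rw [hf, map_zero, h2, add_zero, add_zero] at h1
  exact h1

/-- the homotopy in degree one -/
noncomputable def S1 : K (W 1) X →L[ℂ] K (W 2) X :=
  lift (fun J => -(singleL (Fin.cons (J 0) J : W 2)).toLinearMap
      + (∑ k ∈ Finset.range (J 0),
        (fun q : W 1 × ℕ =>
          (((singleL (Fin.cons q.2 q.1 : W 2)).toLinearMap ∘ₗ Ll M (q.1 0)) ∘ₗ Rr M q.2
          + ((singleL (Fin.cons (q.1 0) (Fin.cons q.2 (Fin.tail q.1)) : W 2)).toLinearMap
              ∘ₗ Ll M q.2) ∘ₗ Rr M (q.1 0))) (J, k))
      + (2 : ℂ) • ((singleL (Fin.cons (J 0) J : W 2)).toLinearMap ∘ₗ Ll M (J 0)) ∘ₗ Rr M (J 0))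
    (((adm_single _).neg.add (Adm.sum
      (φ := fun q : W 1 × ℕ => (((singleL (Fin.cons q.2 q.1 : W 2)).toLinearMap ∘ₗ Ll M (q.1 0))
          ∘ₗ Rr M q.2
          + ((singleL (Fin.cons (q.1 0) (Fin.cons q.2 (Fin.tail q.1)) : W 2)).toLinearMap
              ∘ₗ Ll M q.2) ∘ₗ Rr M (q.1 0)))
      ((((adm_single _).precomp (adm_Ll M _)).precomp (adm_Rr M _)).add
        (((adm_single _).precomp (adm_Ll M _)).precomp (adm_Rr M _))) _)).add
      ((((adm_single _).precomp (adm_Ll M _)).precomp (adm_Rr M _)).const_smul _))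

theorem S1_single (a : ℕ) (w : W 0) (x : X) :
    S1 M (K.single (Fin.cons a w : W 1) x) =
      -K.single (Fin.cons a (Fin.cons a w) : W 2) x
      + ∑ k ∈ Finset.range a, (K.single (Fin.cons k (Fin.cons a w) : W 2) (Ll M a (Rr M k x))
        + K.single (Fin.cons a (Fin.cons k w) : W 2) (Ll M k (Rr M a x)))
      + (2 : ℂ) • K.single (Fin.cons a (Fin.cons a w) : W 2) (Ll M a (Rr M a x)) := by
  rw [S1, lift_single, LinearMap.add_apply, LinearMap.add_apply, LinearMap.sum_apply, Fin.cons_zero]
  rfl

theorem dK_one_co (p q m : ℕ) (w : W 0) (y : X) :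
    (dK M 1 (K.single (Fin.cons p (Fin.cons q w) : W 2) y)).co (Fin.cons m w) =
      (if m = q then Rr M p y else 0) - (if p = q then (if m = q then y else 0) else 0)
        + (if m = p then Ll M q y else 0) := by
  rw [dK_one_single, K.co_add, K.co_sub, K.single_co, K.single_co]
  simp only [Fin.cons_inj, and_true]
  congr 2
  split_ifs <;> simp_all [K.single_co]

/-- the right-hand side in degree one -/
noncomputable def Phi (m : ℕ) : X →L[ℂ] X :=
  RrL M m - ∑ j ∈ Finset.range (m + 1), (LlL M j).comp (RrL M m) - LlL M m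
    + ∑ j ∈ Finset.range (m + 1), (LlL M m).comp (RrL M j)

theorem Phi_apply (m : ℕ) (g : X) : Phi M m g =
    Rr M m g - ∑ j ∈ Finset.range (m + 1), Ll M j (Rr M m g) - Ll M m g
    + ∑ j ∈ Finset.range (m + 1), Ll M m (Rr M j g) := by
  rw [Phi, add_apply, sub_apply,
    sub_apply, sum_apply, sum_apply]
  rfl

theorem degree_one (m : ℕ) (w : W 0) (f : K (W 1) X) :
    (f - dK M 1 (S1 M f)).co (Fin.cons m w) = Phi M m ((dK M 0 f).co w) := by
  have : (coL (Fin.cons m w : W 1)).comp (ContinuousLinearMap.id ℂ _ - (dK M 1).comp (S1 M)) =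
      (Phi M m).comp ((coL w).comp (dK M 0)) := by
    refine K.hom_ext fun J x => ?_
    obtain ⟨a, w', rfl⟩ := J.cases
    obtain rfl : w' = w := Subsingleton.elim _ _
    show (K.single (Fin.cons a w' : W 1) x - dK M 1 (S1 M (K.single (Fin.cons a w' : W 1) x))).co
      (Fin.cons m w') = Phi M m ((dK M 0 (K.single (Fin.cons a w' : W 1) x)).co w')
    have hR : (dK M 0 (K.single (Fin.cons a w' : W 1) x)).co w' = Rr M a x - Ll M a x := by
      rw [dK_zero_single, K.co_sub, K.single_co, K.single_co, if_pos rfl, if_pos rfl]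
    have hco : ∀ (s : Finset ℕ) (g : ℕ → K (W 1) X) (J : W 1),
        (∑ k ∈ s, g k).co J = ∑ k ∈ s, (g k).co J := by
      intro s g J
      exact map_sum (coL (X := X) J) g s
    rw [hR, S1_single, map_add, map_add, map_neg, map_smul, map_sum, K.co_sub, K.co_add, K.co_add,
      K.co_neg, K.co_smul, hco]
    rw [dK_one_co, dK_one_co]
    simp only [map_add, K.co_add, dK_one_co, K.single_co, Fin.cons_inj, and_true, Phi_apply, map_sub,
      Rr_Ll, Rr_Rr, Ll_Ll, if_true]
    have hsum : ∀ (k l : ℕ) (g : ℕ → X), (∑ x_1 ∈ Finset.range l, if k = x_1 then g x_1 else 0) =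
        if k < l then g k else 0 := by
      intro k l g
      rw [Finset.sum_ite_eq]
      simp only [Finset.mem_range]
    have hsum' : ∀ (k l : ℕ) (g : ℕ → X), (∑ x_1 ∈ Finset.range l, if x_1 = k then g x_1 else 0) =
        if k < l then g k else 0 := by
      intro k l g
      rw [Finset.sum_ite_eq']
      simp only [Finset.mem_range]
    have hne : ∀ k ∈ Finset.range a, ¬ (k = a) := fun k hk h => by
      rw [Finset.mem_range] at hk
      omega
    have hne' : ∀ k ∈ Finset.range a, ¬ (a = k) := fun k hk h => by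
      rw [Finset.mem_range] at hk
      omega
    have hred : (∑ x_1 ∈ Finset.range a,
            ((((if m = a then (Ll M a) ((Rr M x_1) x) else 0) -
                  if x_1 = a then if m = a then (Ll M a) ((Rr M x_1) x) else 0 else 0) +
                if m = x_1 then (Ll M a) ((Rr M x_1) x) else 0) +
              (((if m = x_1 then (Ll M x_1) ((Rr M a) x) else 0) -
                  if a = x_1 then if m = x_1 then (Ll M x_1) ((Rr M a) x) else 0 else 0) +
                if m = a then (Ll M x_1) ((Rr M a) x) else 0))) =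
        (if m = a then ∑ k ∈ Finset.range a, (Ll M a (Rr M k x) + Ll M k (Rr M a x)) else 0)
        + (if m < a then Ll M a (Rr M m x) + Ll M m (Rr M a x) else 0) := by
      rw [← hsum m a fun k => Ll M a (Rr M k x) + Ll M k (Rr M a x)]
      have : (if m = a then ∑ k ∈ Finset.range a, (Ll M a (Rr M k x) + Ll M k (Rr M a x)) else 0) =
          ∑ k ∈ Finset.range a, if m = a then (Ll M a (Rr M k x) + Ll M k (Rr M a x)) else 0 := by
        split_ifs
        · rfl
        · simp
      rw [this, ← Finset.sum_add_distrib]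
      refine Finset.sum_congr rfl fun k hk => ?_
      rw [if_neg (hne k hk), if_neg (hne' k hk)]
      split_ifs <;> abel
    rw [hred]
    have h3 : (∑ x_1 ∈ Finset.range (m + 1), (Ll M m) (if a = x_1 then (Rr M a) x else 0)) =
        if a < m + 1 then Ll M m (Rr M a x) else 0 := by
      rw [← hsum a (m + 1) fun _ => Ll M m (Rr M a x)]
      refine Finset.sum_congr rfl fun k _ => ?_
      split_ifs
      · rfl
      · rw [map_zero]
    rw [h3, hsum' a (m + 1) fun _ => (Ll M a) ((Rr M m) x)]
    rcases lt_trichotomy m a with h | h | h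
    · have h4 : ¬ (m = a) := h.ne
      have h5 : ¬ (a = m) := h.ne'
      have h6 : ¬ (a < m + 1) := by omega
      simp only [if_neg h4, if_neg h5, if_neg h6, if_pos h, map_zero, Finset.sum_const_zero]
      simp
      abel
    · subst h
      simp only [if_true, lt_irrefl, if_false, Nat.lt_succ_self, Finset.sum_range_succ,
        Finset.sum_add_distrib, two_smul]
      abel
    · have h4 : ¬ (m = a) := h.ne'
      have h5 : ¬ (a = m) := h.ne
      have h6 : (a < m + 1) := by omega
      have h7 : ¬ (m < a) := by omega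
      simp only [if_neg h4, if_neg h5, if_pos h6, if_neg h7, map_zero, Finset.sum_const_zero]
      simp
  exact congrArg (fun g => g f) this

theorem exact_one (f : K (W 1) X) (hf : dK M 0 f = 0) : dK M 1 (S1 M f) = f := by
  have h2 : f - dK M 1 (S1 M f) = 0 := by
    ext J
    obtain ⟨m, w, rfl⟩ := J.cases
    rw [degree_one, hf, K.co_zero, map_zero, K.co_zero]
  exact (sub_eq_zero.1 h2).symm

theorem exact_all (j : ℕ) (f : K (W (j + 1)) X) (hf : dK M j f = 0) :
    ∃ g : K (W (j + 2)) X, dK M (j + 1) g = f := by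
  match j, f, hf with
  | 0, f, hf => exact ⟨_, exact_one M f hf⟩
  | 1, f, hf => exact ⟨_, exact_two M f hf⟩
  | j + 2, f, hf =>
    refine ⟨S M (j + 1) f, ?_⟩
    have h := homotopy M f
    rw [hf, map_zero, add_zero] at h
    exact h

end

end Pool.Agent.Helper205.Hoch
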