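import Mathlib
import Pool.Agent.Helper205.HochE

set_option autoImplicit false
set_option linter.unusedSectionVars false

namespace Pool.Agent.Helper205.Hoch

universe u v w t

open Filter Topology Set
open scoped NNReal

section

variable {X : Type u} [AddCommGroup X] [Module ℂ X] [UniformSpace X] [IsUniformAddGroup X]
  [PolynormableSpace ℂ X] [T2Space X] [CompleteSpace X] (M : Bimod A0 X)

theorem single_eq_ins {n : ℕ} (a : ℕ) (w : W n) (x : X) :
    K.single (Fin.cons a w : W (n + 1)) x = ins (e a) (K.single w x) := (ins_single a w x).symm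

theorem D0_ins {n : ℕ} (a : ℕ) (f : K (W n) X) : D0 M n (ins (e a) f) = RR M a f := by
  have : (D0 M n).comp (insL (e a)) = RR M a := by
    refine K.hom_ext fun w x => ?_
    show D0 M n (ins (e a) (K.single w x)) = _
    rw [ins_single, D0_single, RR_single]
  exact congrArg (fun g => g f) this

theorem RR_G' {n : ℕ} (a : ℕ) (f : K (W (n + 1)) X) : RR M a (G M n f) = G M n (RR M a f) := by
  have : (RR M a).comp (G M n) = (G M n).comp (RR M a) := by
    refine K.hom_ext fun J x => ?_
    obtain ⟨b, w, rfl⟩ := J.cases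
    show RR M a (G M n (K.single (Fin.cons b w : W (n + 1)) x)) =
      G M n (RR M a (K.single (Fin.cons b w : W (n + 1)) x))
    rw [RR_G, RR_single]
  exact congrArg (fun g => g f) this

theorem GG_single {n : ℕ} (a b : ℕ) (w : W n) (x : X) :
    G M n (G M (n + 1) (ins (e a) (ins (e b) (K.single w x)))) = 0 := by
  induction n generalizing a b with
  | zero =>
    obtain rfl : w = Fin.elim0 := Subsingleton.elim _ _
    rw [G_ins_ins, G_zero_ins, map_neg, sub_neg_eq_add, map_add, map_neg, G_zero_ins, G_zero_ins,
      M.l_mul, neg_neg, add_neg_cancel]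
  | succ n ih =>
    obtain ⟨c, w, rfl⟩ := w.cases
    rw [single_eq_ins]
    have h1 := ih b c w
    rw [G_ins_ins, map_sub, map_neg] at h1
    have h2 : G M n (ins (e b) (G M n (ins (e c) (K.single w x)))) =
        -G M n (ins (e b * e c) (K.single w x)) := by
      rw [sub_eq_zero] at h1
      rw [← h1]
    rw [G_ins_ins, map_sub, map_neg, G_ins_ins]
    rw [G_ins_ins, map_sub, map_neg, map_sub, map_neg, G_ins_ins, G_ins_ins, h2, mul_assoc, map_neg]
    abel

theorem dd_zero {n : ℕ} (f : K (W (n + 2)) X) : dK M n (dK M (n + 1) f) = 0 := by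
  have : (dK M n).comp (dK M (n + 1)) = 0 := by
    refine K.hom_ext fun J x => ?_
    obtain ⟨a, J, rfl⟩ := J.cases
    obtain ⟨b, w, rfl⟩ := J.cases
    show dK M n (dK M (n + 1) (K.single (Fin.cons a (Fin.cons b w) : W (n + 2)) x)) = 0
    rw [single_eq_ins, single_eq_ins, dK_eq, dK_eq, map_add, map_add, GG_single, D0_ins, ← RR_G',
      RR_ins, D0_ins, G_ins_ins, map_sub, map_neg, D0_ins, RR_single, RR_single]
    by_cases h : a = b
    · subst h
      rw [e_mul_self, D0_ins, RR_single, Rr_Rr_self]
      abel
    · rw [e_mul_ne h, map_zero, LinearMap.zero_apply, map_zero, Rr_Rr_ne M h, single_zero]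
      abel
  exact congrArg (fun g => g f) this

end

end Pool.Agent.Helper205.Hoch
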