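import Mathlib
import Pool.Agent.Helper205.HochG

set_option autoImplicit false
set_option linter.unusedSectionVars false

namespace Pool.Agent.Helper205.Hoch

universe u v w t

open Filter Topology Set
open scoped NNReal

section Transport

variable {X : Type u} [AddCommGroup X] [Module ℂ X] [UniformSpace X] [IsUniformAddGroup X]
  [PolynormableSpace ℂ X] [T2Space X] [CompleteSpace X] {M : Bimod A0 X}

theorem vanishes (H : HochschildComplex M) (j : ℕ) : HomologyVanishes H j := by
  -- comparison maps
  have hg : ∀ n, ∃ g : K (W n) X →L[ℂ] H.C n, ∀ x a, g (tauK n x a) = H.τ n x a := fun n =>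
    ((isProjTensor_K n).univ (H.C n) (H.τ n) (H.isTensor n).cont).exists
  have hh : ∀ n, ∃ h : H.C n →L[ℂ] K (W n) X, ∀ x a, h (H.τ n x a) = tauK n x a := fun n =>
    ((H.isTensor n).univ (K (W n) X) (tauK n) (isProjTensor_K n).cont).exists
  choose g hg using hg
  choose h hh using hh
  have hgh : ∀ n z, g n (h n z) = z := by
    intro n z
    have h1 := ((H.isTensor n).univ (H.C n) (H.τ n) (H.isTensor n).cont).unique
      (y₁ := (g n).comp (h n)) (y₂ := ContinuousLinearMap.id ℂ _)
      (fun x a => by rw [ContinuousLinearMap.comp_apply, hh, hg]) (fun x a => rfl)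
    exact congrArg (fun f => f z) h1
  have hhg : ∀ n z, h n (g n z) = z := by
    intro n z
    have h1 := ((isProjTensor_K (X := X) n).univ (K (W n) X) (tauK n) (isProjTensor_K n).cont).unique
      (y₁ := (h n).comp (g n)) (y₂ := ContinuousLinearMap.id ℂ _)
      (fun x a => by rw [ContinuousLinearMap.comp_apply, hg, hh]) (fun x a => rfl)
    exact congrArg (fun f => f z) h1
  have hd : ∀ n f, H.d n (g (n + 1) f) = g n (dK M n f) := by
    intro n f
    have : (H.d n).comp (g (n + 1)) = (g n).comp (dK M n) := by
      refine K.hom_ext fun J x => ?_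
      show H.d n (g (n + 1) (K.single J x)) = g n (dK M n (K.single J x))
      rw [← tauK_e, hg, H.d_apply]
      have := (concrete M).d_apply n x (fun i => e (J i))
      have h2 : dK M n (tauK (n + 1) x (fun i => e (J i))) =
        tauK n (M.r x (e (J 0))) (Fin.tail fun i => e (J i))
        + ∑ i : Fin n, (-1 : ℂ) ^ ((i : ℕ) + 1) •
            tauK n x (Fin.contractNth i.castSucc (· * ·) fun i => e (J i))
        + (-1 : ℂ) ^ (n + 1) • tauK n (M.l (e (J (Fin.last n))) x) (Fin.init fun i => e (J i)) :=
        this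
      rw [h2, map_add, map_add, map_sum, map_smul, hg, hg]
      simp only [map_smul, hg]
    exact congrArg (fun f' => f' f) this
  intro z
  refine ⟨fun hz => ?_, ?_⟩
  swap
  · rintro ⟨w, rfl⟩
    rw [← hgh (j + 2) w, hd, hd, dd_zero, map_zero]
  obtain ⟨w, hw⟩ := exact_all M j (h (j + 1) z) (by
    have h1 := hd j (h (j + 1) z)
    rw [hgh, hz] at h1
    rw [← hhg j (dK M j (h (j + 1) z)), ← h1, map_zero])
  refine ⟨g (j + 2) w, ?_⟩
  rw [hd, hw, hgh]

end Transport

end Pool.Agent.Helper205.Hoch
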