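import Mathlib
import Pool.Agent.Helper205.HochF

set_option autoImplicit false
set_option linter.unusedSectionVars false

namespace Pool.Agent.Helper205.Hoch

open Filter Topology Set
open scoped NNReal BoundedContinuousFunction

/-- bounded sequences -/
abbrev X0 : Type := ℕ →ᵇ ℂ

theorem coord_le (a : A0) (i : ℕ) : ‖a.co i‖ ≤ nK (nC, fun _ => 1) a := by
  have h3 := le_nK (nC, fun _ => 1) a i
  simpa [nC_apply] using h3

/-- coordinatewise action -/
noncomputable def act (a : A0) (x : X0) : X0 :=
  BoundedContinuousFunction.ofNormedAddCommGroupDiscrete (fun i => a.co i * x i)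
    (nK (nC, fun _ => 1) a * ‖x‖) (fun i => by
      rw [norm_mul]
      exact mul_le_mul (coord_le a i) (x.norm_coe_le_norm i) (norm_nonneg _) (apply_nonneg _ _))

theorem act_apply (a : A0) (x : X0) (i : ℕ) : act a x i = a.co i * x i := rfl

theorem norm_act_le (a : A0) (x : X0) : ‖act a x‖ ≤ nK (nC, fun _ => 1) a * ‖x‖ := by
  refine (BoundedContinuousFunction.norm_le (mul_nonneg (apply_nonneg _ _) (norm_nonneg _))).2 ?_
  intro i
  rw [act_apply, norm_mul]
  exact mul_le_mul (coord_le a i) (x.norm_coe_le_norm i) (norm_nonneg _) (apply_nonneg _ _)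

/-- as a bilinear map -/
noncomputable def actB : A0 →ₗ[ℂ] X0 →ₗ[ℂ] X0 :=
  LinearMap.mk₂ ℂ act
    (fun a b x => by ext i; simp only [act_apply, K.co_add, BoundedContinuousFunction.coe_add, Pi.add_apply]; ring)
    (fun c a x => by ext i; simp only [act_apply, K.co_smul, BoundedContinuousFunction.coe_smul, smul_eq_mul]; ring)
    (fun a x y => by ext i; simp only [act_apply, BoundedContinuousFunction.coe_add, Pi.add_apply]; ring)
    (fun c a x => by ext i; simp only [act_apply, BoundedContinuousFunction.coe_smul, smul_eq_mul]; ring)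

theorem actB_apply (a : A0) (x : X0) (i : ℕ) : actB a x i = a.co i * x i := rfl

/-- the bimodule: coordinatewise left action, zero right action -/
noncomputable def M0 : Bimod A0 X0 where
  l := actB
  r := 0
  l_mul a b x := by
    ext i
    rw [actB_apply, actB_apply, actB_apply, A0.mul_co, mul_assoc]
  r_mul x a b := rfl
  l_r a x b := by
    show (0 : X0) = actB a 0
    rw [map_zero]
  l_cont := by
    refine bilin_continuous (norm_withSeminorms ℂ X0) actB ?_
    intro _
    exact ⟨nK (nC, fun _ => 1), continuous_nK _, normSeminorm ℂ X0, continuous_norm,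
      fun a x => norm_act_le a x⟩
  r_cont := continuous_const

/-- the norm as a continuous seminorm -/
noncomputable def nX : {p : Seminorm ℂ X0 // Continuous p} := ⟨normSeminorm ℂ X0, continuous_norm⟩

theorem finite_sum (f : K (W 1) X0) :
    ∃ s : Finset (W 1), f = ∑ J ∈ s, K.single J (f.co J) := by
  refine ⟨(f.fin nX.2).toFinset, ?_⟩
  ext1 k
  rw [sum_single_co]
  split_ifs with hk
  · rfl
  · by_contra h0
    apply hk
    rw [Set.Finite.mem_toFinset]
    show ‖f.co k‖ ≠ 0
    rwa [norm_ne_zero_iff]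

theorem range_finite (f : K (W 1) X0) (w : W 0) : {i | ((dK M0 0 f).co w) i ≠ 0}.Finite := by
  obtain ⟨s, hs⟩ := finite_sum f
  refine ((s.image fun J => J 0).finite_toSet).subset ?_
  intro i hi
  by_contra h
  apply hi
  rw [hs, map_sum]
  have h1 : (∑ J ∈ s, dK M0 0 (K.single J (f.co J))).co w =
      ∑ J ∈ s, (dK M0 0 (K.single J (f.co J))).co w := map_sum (coL (X := X0) w) _ s
  rw [h1, BoundedContinuousFunction.sum_apply]
  refine Finset.sum_eq_zero fun J hJ => ?_
  obtain ⟨a, w', hJe⟩ := J.cases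
  obtain rfl : w' = w := Subsingleton.elim _ _
  rw [hJe, dK_zero_single, K.co_sub, K.single_co, K.single_co, if_pos rfl, if_pos rfl]
  have h2 : Rr M0 a (f.co (Fin.cons a w')) = 0 := rfl
  have h3 : (Ll M0 a (f.co (Fin.cons a w'))) i = 0 := by
    show (e a).co i * (f.co (Fin.cons a w')) i = 0
    rw [e_co, if_neg, zero_mul]
    rintro rfl
    apply h
    refine Finset.mem_coe.2 (Finset.mem_image.2 ⟨J, hJ, ?_⟩)
    rw [hJe, Fin.cons_zero]
  rw [h2, zero_sub]
  show -((Ll M0 a (f.co (Fin.cons a w'))) i) = 0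
  rw [h3, neg_zero]

/-- the sequence `1/(i+1)` -/
noncomputable def x1 : X0 :=
  BoundedContinuousFunction.ofNormedAddCommGroupDiscrete (fun i : ℕ => ((1 / ((i : ℝ) + 1) : ℝ) : ℂ)) 1
    (fun i => by
      rw [Complex.norm_real, Real.norm_eq_abs, abs_of_pos (by positivity)]
      rw [div_le_one (by positivity)]
      linarith [(Nat.cast_nonneg i : (0:ℝ) ≤ i)])

theorem x1_apply (i : ℕ) : x1 i = ((1 / ((i : ℝ) + 1) : ℝ) : ℂ) := rfl

theorem sum_act (n : ℕ) (i : ℕ) : (∑ a ∈ Finset.range n, Ll M0 a x1) i = if i < n then x1 i else 0 := by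
  rw [BoundedContinuousFunction.sum_apply]
  have : ∀ a, (Ll M0 a x1) i = if i = a then x1 i else 0 := by
    intro a
    show (e a).co i * x1 i = _
    rw [e_co]
    split_ifs
    · rw [one_mul]
    · rw [zero_mul]
  simp only [this, Finset.sum_ite_eq, Finset.mem_range]

theorem tendsto_x1 : Tendsto (fun n => ∑ a ∈ Finset.range n, Ll M0 a x1) atTop (𝓝 x1) := by
  rw [tendsto_iff_norm_sub_tendsto_zero]
  refine squeeze_zero (fun _ => norm_nonneg _) (fun n => ?_)
    (tendsto_one_div_add_atTop_nhds_zero_nat (𝕜 := ℝ))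
  refine (BoundedContinuousFunction.norm_le (by positivity)).2 ?_
  intro i
  rw [BoundedContinuousFunction.coe_sub, Pi.sub_apply, sum_act]
  split_ifs with h
  · rw [sub_self, norm_zero]
    positivity
  · rw [zero_sub, norm_neg, x1_apply, Complex.norm_real, Real.norm_eq_abs, abs_of_pos (by positivity)]
    refine one_div_le_one_div_of_le (by positivity) ?_
    have : (n : ℝ) ≤ i := by exact_mod_cast not_lt.1 h
    linarith

theorem not_closed : ¬ IsClosed (Set.range (dK M0 0)) := by
  intro hcl
  have h1 : Tendsto (fun n => K.single (Fin.elim0 : W 0) (∑ a ∈ Finset.range n, Ll M0 a x1)) atTop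
      (𝓝 (K.single (Fin.elim0 : W 0) x1)) :=
    ((singleL (X := X0) (Fin.elim0 : W 0)).continuous.tendsto x1).comp tendsto_x1
  have h2 : ∀ n, K.single (Fin.elim0 : W 0) (∑ a ∈ Finset.range n, Ll M0 a x1) ∈
      Set.range (dK M0 0) := by
    intro n
    refine ⟨-∑ a ∈ Finset.range n, K.single (Fin.cons a (Fin.elim0 : W 0) : W 1) x1, ?_⟩
    rw [map_neg, map_sum]
    have h3 : ∀ a, dK M0 0 (K.single (Fin.cons a (Fin.elim0 : W 0) : W 1) x1) =
        -singleL (Fin.elim0 : W 0) (Ll M0 a x1) := by
      intro a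
      rw [dK_zero_single]
      have h2 : Rr M0 a x1 = 0 := rfl
      rw [h2, single_zero, zero_sub]
      rfl
    rw [Finset.sum_congr rfl fun a _ => h3 a, Finset.sum_neg_distrib, neg_neg, ← map_sum]
    rfl
  have h3 := hcl.mem_of_tendsto h1 (Eventually.of_forall h2)
  obtain ⟨f, hf⟩ := h3
  have h4 := range_finite f Fin.elim0
  rw [hf, K.single_co, if_pos rfl] at h4
  refine Set.infinite_univ (h4.subset fun i _ => ?_)
  show x1 i ≠ 0
  rw [x1_apply]
  have : (0:ℝ) < 1 / ((i : ℝ) + 1) := by positivity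
  exact_mod_cast this.ne'

theorem not_amenable : ¬ Amenable.{0} A0 := by
  intro h
  exact not_closed (h X0 M0 (concrete M0)).2

end Pool.Agent.Helper205.Hoch
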